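import Pool.Agent.Lib.MP_4a593f_gt.TF.Fact

/-!
Complex conjugation of top coefficients of products of 2-forms.
-/

namespace Pool.TwoForms

open scoped BigOperators

variable {n : ℕ}

/-- real subalgebra generated by the basis vectors -/
noncomputable def conjReal (n : ℕ) : Subalgebra ℝ (G (Fin n)) :=
  Algebra.adjoin ℝ (Set.range (e : Fin n → G (Fin n)))

theorem conj_e_mem (i : Fin n) : (e i : G (Fin n)) ∈ conjReal n :=
  Algebra.subset_adjoin ⟨i, rfl⟩

theorem conj_closure_mem {x : G (Fin n)}
    (hx : x ∈ Submonoid.closure (Set.range (e : Fin n → G (Fin n)))) : x ∈ conjReal n := by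
  have : (Submonoid.closure (Set.range (e : Fin n → G (Fin n)))) ≤
      (conjReal n).toSubmonoid := by
    rw [Submonoid.closure_le]
    exact Algebra.subset_adjoin
  exact this hx

theorem conj_c_closure (i : Fin n) {x : G (Fin n)}
    (hx : x ∈ Submonoid.closure (Set.range (e : Fin n → G (Fin n)))) : c i x ∈ conjReal n := by
  induction hx using Submonoid.closure_induction_left with
  | one => rw [c_one]; exact (conjReal n).zero_mem
  | mul_left x hx y hy ih =>
    obtain ⟨j, rfl⟩ := hx
    rw [c_e_mul]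
    refine (conjReal n).sub_mem ?_ ((conjReal n).mul_mem (conj_e_mem j) ih)
    split_ifs
    · exact conj_closure_mem hy
    · exact (conjReal n).zero_mem

theorem conj_algebraMap (r : ℝ) :
    (algebraMap ℝ (G (Fin n))) r = algebraMap ℂ (G (Fin n)) (r : ℂ) := by
  rw [IsScalarTower.algebraMap_apply ℝ ℂ (G (Fin n))]
  rfl

theorem conj_c_mem (i : Fin n) {x : G (Fin n)} (hx : x ∈ conjReal n) : c i x ∈ conjReal n := by
  have hx' : x ∈ Submodule.span ℝ
      ((Submonoid.closure (Set.range (e : Fin n → G (Fin n))) : Submonoid (G (Fin n))) :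
        Set (G (Fin n))) := by
    rw [← Algebra.adjoin_eq_span]
    exact hx
  clear hx
  induction hx' using Submodule.span_induction with
  | mem x hx => exact conj_c_closure i hx
  | zero => rw [map_zero]; exact (conjReal n).zero_mem
  | add x y hx hy ihx ihy => rw [map_add]; exact (conjReal n).add_mem ihx ihy
  | smul a x hx ih =>
    rw [Algebra.smul_def, conj_algebraMap, ← Algebra.smul_def, map_smul, Algebra.smul_def,
      ← conj_algebraMap]
    exact (conjReal n).mul_mem ((conjReal n).algebraMap_mem a) ih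

theorem conj_cl_mem (L : List (Fin n)) {x : G (Fin n)} (hx : x ∈ conjReal n) :
    cl L x ∈ conjReal n := by
  induction L generalizing x with
  | nil => exact hx
  | cons i L ih => exact ih (conj_c_mem i hx)

theorem conj_const_real {x : G (Fin n)} (hx : x ∈ conjReal n) :
    ∃ r : ℝ, ExteriorAlgebra.algebraMapInv (R := ℂ) (M := Fin n → ℂ) x = (r : ℂ) := by
  unfold conjReal at hx
  induction hx using Algebra.adjoin_induction with
  | mem x hx =>
    obtain ⟨j, rfl⟩ := hx
    refine ⟨0, ?_⟩
    unfold e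
    simp [ExteriorAlgebra.algebraMapInv]
  | algebraMap r =>
    refine ⟨r, ?_⟩
    rw [conj_algebraMap, AlgHom.commutes]
    rfl
  | add x y hx hy ihx ihy =>
    obtain ⟨r, hr⟩ := ihx
    obtain ⟨s, hs⟩ := ihy
    exact ⟨r + s, by rw [map_add, hr, hs]; push_cast; rfl⟩
  | mul x y hx hy ihx ihy =>
    obtain ⟨r, hr⟩ := ihx
    obtain ⟨s, hs⟩ := ihy
    exact ⟨r * s, by rw [map_mul, hr, hs]; push_cast; rfl⟩

theorem conj_T1_real {x : G (Fin n)} (hx : x ∈ conjReal n) : ∃ r : ℝ, T1 n x = (r : ℂ) :=
  conj_const_real (conj_cl_mem (List.finRange n) hx)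

theorem conj_tf_real (A : Fin n → Fin n → ℝ) : tf (fun i j => (A i j : ℂ)) ∈ conjReal n := by
  have h : tf (fun i j => (A i j : ℂ)) = (1 / 2 : ℝ) • ∑ i, ∑ j, A i j • (e i * e j : G (Fin n)) := by
    unfold tf
    have h1 : ∀ (r : ℝ) (x : G (Fin n)), r • x = (r : ℂ) • x := fun r x =>
      (Complex.coe_smul r x).symm
    rw [h1]
    congr 1
    push_cast
    rfl
  rw [h]
  refine (conjReal n).smul_mem ((conjReal n).sum_mem fun i _ => (conjReal n).sum_mem fun j _ =>
    (conjReal n).smul_mem ((conjReal n).mul_mem (conj_e_mem i) (conj_e_mem j)) _) _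

theorem conj_tf_split (A : Fin n → Fin n → ℂ) :
    tf A = tf (fun i j => ((A i j).re : ℂ)) + Complex.I • tf (fun i j => ((A i j).im : ℂ)) := by
  unfold tf
  rw [smul_comm Complex.I, ← smul_add]
  congr 1
  rw [Finset.smul_sum, ← Finset.sum_add_distrib]
  refine Finset.sum_congr rfl fun i _ => ?_
  rw [Finset.smul_sum, ← Finset.sum_add_distrib]
  refine Finset.sum_congr rfl fun j _ => ?_
  rw [smul_smul, ← add_smul]
  congr 1
  rw [mul_comm]
  exact (Complex.re_add_im _).symm

theorem conj_tf_split' (A : Fin n → Fin n → ℂ) :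
    tf (fun i j => (starRingEnd ℂ) (A i j)) =
      tf (fun i j => ((A i j).re : ℂ)) - Complex.I • tf (fun i j => ((A i j).im : ℂ)) := by
  rw [conj_tf_split, sub_eq_add_neg, ← smul_neg]
  congr 2
  unfold tf
  rw [← smul_neg, ← Finset.sum_neg_distrib]
  congr 1
  refine Finset.sum_congr rfl fun i _ => ?_
  rw [← Finset.sum_neg_distrib]
  refine Finset.sum_congr rfl fun j _ => ?_
  rw [← neg_smul]
  simp

theorem conj_prod (L : List (Fin n → Fin n → ℂ)) :
    ∃ x ∈ conjReal n, ∃ y ∈ conjReal n, (L.map tf).prod = x + Complex.I • y ∧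
      (L.map fun A => tf fun i j => (starRingEnd ℂ) (A i j)).prod = x - Complex.I • y := by
  induction L with
  | nil => exact ⟨1, (conjReal n).one_mem, 0, (conjReal n).zero_mem, by simp, by simp⟩
  | cons A L ih =>
    obtain ⟨x, hx, y, hy, h1, h2⟩ := ih
    have ha := conj_tf_real (fun i j => (A i j).re)
    have hb := conj_tf_real (fun i j => (A i j).im)
    obtain ⟨a, ha'⟩ : ∃ a, a = tf (fun i j => ((A i j).re : ℂ)) := ⟨_, rfl⟩
    obtain ⟨b, hb'⟩ : ∃ b, b = tf (fun i j => ((A i j).im : ℂ)) := ⟨_, rfl⟩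
    rw [← ha'] at ha
    rw [← hb'] at hb
    refine ⟨a * x - b * y, (conjReal n).sub_mem ((conjReal n).mul_mem ha hx)
      ((conjReal n).mul_mem hb hy), a * y + b * x, (conjReal n).add_mem
      ((conjReal n).mul_mem ha hy) ((conjReal n).mul_mem hb hx), ?_, ?_⟩
    · rw [List.map_cons, List.prod_cons, h1, conj_tf_split A, ← ha', ← hb']
      rw [add_mul, mul_add, mul_add, smul_mul_assoc, smul_mul_assoc, mul_smul_comm, mul_smul_comm,
        smul_smul, Complex.I_mul_I, neg_one_smul, smul_add]
      abel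
    · rw [List.map_cons, List.prod_cons, h2, conj_tf_split' A, ← ha', ← hb']
      rw [sub_mul, mul_sub, mul_sub, smul_mul_assoc, smul_mul_assoc, mul_smul_comm, mul_smul_comm,
        smul_smul, Complex.I_mul_I, neg_one_smul, smul_add]
      abel

/-- **Conjugation.** For a list of complex arrays, the top coefficient of the product of the
conjugate 2-forms is the conjugate. PROOF. Let `𝓡` be the real span (`Submodule.span ℝ`) of the
products `(L.map e).prod`. It is closed under multiplication, `c i` maps it to itself (induction on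
the list with `c_e_mul`) and `T1 n` is real on it. By induction on `L` there are `x, y ∈ 𝓡` with
`(L.map tf).prod = x + I • y` and `(conjugate list).prod = x - I • y`. -/
theorem T1_conj (L : List (Fin n → Fin n → ℂ)) :
    T1 n ((L.map fun A => tf fun i j => (starRingEnd ℂ) (A i j)).prod)
      = (starRingEnd ℂ) (T1 n ((L.map tf).prod)) := by
  obtain ⟨x, hx, y, hy, h1, h2⟩ := conj_prod L
  obtain ⟨r, hr⟩ := conj_T1_real hx
  obtain ⟨t, ht⟩ := conj_T1_real hy
  rw [h1, h2, map_sub, map_add, map_smul, hr, ht]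
  simp [sub_eq_add_neg]

end Pool.TwoForms
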