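import Mathlib

/-!
Definitions for the theorem of the two 2-forms (Gauss-Bonnet integrand in all even dimensions).
-/

namespace Pool.TwoForms

open scoped BigOperators

/-- arrays with four indices -/
abbrev Ten (n : ℕ) := Fin n → Fin n → Fin n → Fin n → ℝ

/-- arrays with two indices -/
abbrev Mat (n : ℕ) := Fin n → Fin n → ℝ

/-- algebraic curvature tensors -/
structure IsCurvature {n : ℕ} (R : Ten n) : Prop where
  skew_left : ∀ i j k l, R j i k l = - R i j k l
  skew_right : ∀ i j k l, R i j l k = - R i j k l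
  bianchi : ∀ i j k l, R i j k l + R j k i l + R k i j l = 0

/-- skew arrays (2-forms) -/
def Skew {n : ℕ} (w : Mat n) : Prop := ∀ i j, w j i = - w i j

/-- the index `2 i` -/
def lo {m : ℕ} (i : Fin m) : Fin (2 * m) := ⟨2 * i.1, by omega⟩

/-- the index `2 i + 1` -/
def hi {m : ℕ} (i : Fin m) : Fin (2 * m) := ⟨2 * i.1 + 1, by omega⟩

/-- the Gauss-Bonnet integrand up to a positive constant -/
noncomputable def gb (m : ℕ) (R : Ten (2 * m)) : ℝ :=
  ∑ σ : Equiv.Perm (Fin (2 * m)), ∑ τ : Equiv.Perm (Fin (2 * m)),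
    ((Equiv.Perm.sign σ : ℤ) : ℝ) * ((Equiv.Perm.sign τ : ℤ) : ℝ) *
      ∏ i : Fin m, R (σ (lo i)) (σ (hi i)) (τ (lo i)) (τ (hi i))

/-- the tensor `Λ²w + w ⊗ w` -/
def wsq {n : ℕ} (w : Mat n) : Ten n :=
  fun i j k l => w i k * w j l - w i l * w j k + w i j * w k l

/-- nonnegativity of the quadratic form of `S` on 2-forms -/
def NonnegOnForms {n : ℕ} (S : Ten n) : Prop :=
  ∀ β : Mat n, Skew β → 0 ≤ ∑ i, ∑ j, ∑ k, ∑ l, S i j k l * β i j * β k l

/-- all sectional curvatures are positive -/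
def SecPos {n : ℕ} (R : Ten n) : Prop :=
  ∀ x y : Fin n → ℝ, LinearIndependent ℝ ![x, y] →
    0 < ∑ i, ∑ j, ∑ k, ∑ l, R i j k l * x i * y j * x k * y l

end Pool.TwoForms
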