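import Pool.Agent.Lib.MP_4a593f_gt.TF.Fact

/-!
Top coefficients are determinants.
-/

namespace Pool.TwoForms

open scoped BigOperators

variable {n : ℕ}

private theorem det_c_prod (i : Fin n) (L : List (Fin n)) (h : i ∉ L) :
    c i ((L.map fun j => (e j : G (Fin n))).prod) = 0 := by
  induction L with
  | nil => simp only [List.map_nil, List.prod_nil]; exact c_one i
  | cons j L ih =>
    rw [List.mem_cons, not_or] at h
    simp only [List.map_cons, List.prod_cons]
    rw [c_e_mul, if_neg h.1, ih h.2, mul_zero, sub_zero]

private theorem det_clint (L : List (Fin n)) (h : L.Nodup) :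
    clint L ((L.map fun j => (e j : G (Fin n))).prod) = 1 := by
  induction L with
  | nil =>
    simp only [List.map_nil, List.prod_nil]
    unfold clint cl
    simp
  | cons j L ih =>
    rw [List.nodup_cons] at h
    have h1 : clint (j :: L) ((((j :: L).map fun j => (e j : G (Fin n)))).prod)
        = clint L (c j ((((j :: L).map fun j => (e j : G (Fin n)))).prod)) := rfl
    rw [h1, List.map_cons, List.prod_cons, c_e_mul, if_pos rfl, det_c_prod j L h.1, mul_zero,
      sub_zero]
    exact ih h.2

/-- the top coefficient of a product of `n` vectors is a determinant -/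
private theorem det_main (v : Fin n → Fin n → ℂ) :
    T1 n (ExteriorAlgebra.ιMulti ℂ n v) = Matrix.det (Matrix.of v) := by
  have h1 := AlternatingMap.eq_smul_basis_det (Pi.basisFun ℂ (Fin n))
    ((T1 n).compAlternatingMap (ExteriorAlgebra.ιMulti ℂ n))
  have h2 : ((T1 n).compAlternatingMap (ExteriorAlgebra.ιMulti ℂ n)) (Pi.basisFun ℂ (Fin n))
      = 1 := by
    rw [LinearMap.compAlternatingMap_apply, ExteriorAlgebra.ιMulti_apply]
    have h3 : (List.ofFn fun i => ExteriorAlgebra.ι ℂ ((Pi.basisFun ℂ (Fin n)) i))
        = (List.finRange n).map fun j => (e j : G (Fin n)) := by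
      rw [List.ofFn_eq_map]
      refine List.map_congr_left fun i _ => ?_
      rw [Pi.basisFun_apply]
      rfl
    rw [h3]
    exact det_clint _ (List.nodup_finRange n)
  rw [h2, one_smul] at h1
  have h4 := congrArg (fun f => f v) h1
  simp only [LinearMap.compAlternatingMap_apply] at h4
  rw [h4, Pi.basisFun_det]
  rfl

/-- the top coefficient of a product of basis vectors is the sign.
PROOF. `T1 n` composed with `ExteriorAlgebra.ιMulti ℂ n` is an alternating map on `ℂ^n`, so it is a
multiple of the determinant (`AlternatingMap.eq_smul_basis_det` for `Pi.basisFun`), and the multiple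
is `T1 n (e 0 * ... * e (n-1)) = 1` (contract from the left, induction on the list, using
`c_e_mul`). -/
theorem T1_prod (h : Fin n → Fin n) :
    T1 n (List.ofFn fun s => (e (h s) : G (Fin n))).prod
      = ∑ σ : Equiv.Perm (Fin n), ((Equiv.Perm.sign σ : ℤ) : ℂ) *
          ∏ s, (if h s = σ s then (1 : ℂ) else 0) := by
  have h1 : (List.ofFn fun s => (e (h s) : G (Fin n))).prod
      = ExteriorAlgebra.ιMulti ℂ n (fun s => Pi.single (h s) (1 : ℂ)) := by
    rw [ExteriorAlgebra.ιMulti_apply]
    rfl
  rw [h1, det_main, ← Matrix.det_transpose, Matrix.det_apply']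
  refine Finset.sum_congr rfl fun σ _ => ?_
  congr 1
  refine Finset.prod_congr rfl fun s _ => ?_
  simp only [Matrix.transpose_apply, Matrix.of_apply, Pi.single_apply]
  by_cases hs : h s = σ s
  · rw [if_pos hs, if_pos hs.symm]
  · rw [if_neg hs, if_neg fun hh => hs hh.symm]

/-- the top coefficient of a product of `n` vectors is a determinant -/
theorem T1_ιMulti (v : Fin n → Fin n → ℂ) :
    T1 n (ExteriorAlgebra.ιMulti ℂ n v) = Matrix.det (Matrix.of v) :=
  det_main v

end Pool.TwoForms
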