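import Pool.Agent.Lib.MP_4a593f_gt.TF.Defs

/-!
Exterior algebra on `I → ℂ`, basis vectors `e i`, contractions `c i`, full contraction.
-/

namespace Pool.TwoForms

open scoped BigOperators

section basic

variable {I : Type} [DecidableEq I]

/-- the exterior algebra of `ℂ^I` -/
abbrev G (I : Type) := ExteriorAlgebra ℂ (I → ℂ)

/-- basis vectors -/
noncomputable def e (i : I) : G I := ExteriorAlgebra.ι ℂ (Pi.single i (1 : ℂ))

/-- contraction with the dual basis vector -/
noncomputable def c (i : I) : G I →ₗ[ℂ] G I :=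
  CliffordAlgebra.contractLeft (Q := (0 : QuadraticForm ℂ (I → ℂ))) (LinearMap.proj i)

/-- 2-form elements -/
noncomputable def tf [Fintype I] (A : I → I → ℂ) : G I :=
  (1 / 2 : ℂ) • ∑ i, ∑ j, A i j • (e i * e j)

/-- contraction along a list (the head first) -/
noncomputable def cl : List I → (G I →ₗ[ℂ] G I)
  | [] => LinearMap.id
  | i :: L => (cl L).comp (c i)

/-- constant term after contraction along a list -/
noncomputable def clint (L : List I) : G I →ₗ[ℂ] ℂ :=
  (ExteriorAlgebra.algebraMapInv (R := ℂ) (M := I → ℂ)).toLinearMap.comp (cl L)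

theorem c_ι_mul (i : I) (v : I → ℂ) (x : G I) :
    c i (ExteriorAlgebra.ι ℂ v * x) = v i • x - ExteriorAlgebra.ι ℂ v * c i x := by
  unfold c ExteriorAlgebra.ι
  rw [CliffordAlgebra.contractLeft_ι_mul]
  rfl

theorem c_e_mul (i j : I) (x : G I) : c i (e j * x) = (if i = j then x else 0) - e j * c i x := by
  unfold e
  rw [c_ι_mul]
  congr 1
  by_cases h : i = j
  · subst h; simp
  · simp [h]

theorem c_one (i : I) : c i (1 : G I) = 0 := by
  unfold c
  exact CliffordAlgebra.contractLeft_one _ _

theorem c_c (i : I) (x : G I) : c i (c i x) = 0 := by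
  unfold c
  exact CliffordAlgebra.contractLeft_contractLeft _ _

theorem c_comm (i j : I) (x : G I) : c i (c j x) = - c j (c i x) := by
  unfold c
  exact CliffordAlgebra.contractLeft_comm _ _ _

theorem ι_anti (v w : I → ℂ) : ExteriorAlgebra.ι ℂ v * ExteriorAlgebra.ι ℂ w
    = - (ExteriorAlgebra.ι ℂ w * ExteriorAlgebra.ι ℂ v) :=
  eq_neg_of_add_eq_zero_left (ExteriorAlgebra.ι_add_mul_swap v w)

theorem e_anti (i j : I) : (e i : G I) * e j = - (e j * e i) := ι_anti _ _

theorem e_sq (i : I) : (e i : G I) * e i = 0 := ExteriorAlgebra.ι_sq_zero _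

/-- a product of two vectors commutes with everything -/
theorem ιι_comm (v w : I → ℂ) (x : G I) :
    (ExteriorAlgebra.ι ℂ v * ExteriorAlgebra.ι ℂ w) * x
      = x * (ExteriorAlgebra.ι ℂ v * ExteriorAlgebra.ι ℂ w) := by
  induction x using ExteriorAlgebra.induction with
  | algebraMap r => exact (Algebra.commutes r _).symm
  | ι u =>
    rw [mul_assoc, ι_anti w u, mul_neg, ← mul_assoc, ι_anti v u, neg_mul, neg_neg, mul_assoc]
  | mul x y hx hy => rw [← mul_assoc, hx, mul_assoc, hy, mul_assoc]
  | add x y hx hy => rw [mul_add, add_mul, hx, hy]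

theorem ee_comm (i j : I) (x : G I) : (e i * e j) * x = x * (e i * e j) := ιι_comm _ _ x

theorem tf_comm [Fintype I] (A : I → I → ℂ) (x : G I) : tf A * x = x * tf A := by
  unfold tf
  simp only [smul_mul_assoc, mul_smul_comm, Finset.sum_mul, Finset.mul_sum, ee_comm]

/-- contraction of a product of two basis vectors times something -/
theorem c_ee_mul (i j k : I) (x : G I) :
    c i (e j * e k * x) = c i (e j * e k) * x + e j * e k * c i x := by
  have h1 : c i (e j * e k * x) = (if i = j then e k * x else 0)
      - e j * ((if i = k then x else 0) - e k * c i x) := by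
    rw [mul_assoc, c_e_mul, c_e_mul]
  have h2 : c i (e j * e k) = (if i = j then e k else 0) - e j * (if i = k then 1 else 0) := by
    have := c_e_mul i j (e k)
    rw [this]
    have h3 := c_e_mul i k (1 : G I)
    rw [mul_one, c_one, mul_zero, sub_zero] at h3
    rw [h3]
  rw [h1, h2]
  split_ifs <;> noncomm_ring

end basic

end Pool.TwoForms
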