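import Pool.Agent.Lib.MP_4a593f_gt.TF.Grass

/-!
The top coefficient on two copies factorises on products `inc₁ X * inc₂ Y` with `X` even.
-/

namespace Pool.TwoForms

open scoped BigOperators

variable {n : ℕ}

/-- first copy -/
noncomputable def inc₁ (n : ℕ) : G (Fin n) →ₐ[ℂ] GG n :=
  ExteriorAlgebra.map
    ({ toFun := fun v => Sum.elim v 0
       map_add' := fun v w => by ext x; cases x <;> simp
       map_smul' := fun r v => by ext x; cases x <;> simp } :
      (Fin n → ℂ) →ₗ[ℂ] (Fin n ⊕ Fin n → ℂ))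

/-- second copy -/
noncomputable def inc₂ (n : ℕ) : G (Fin n) →ₐ[ℂ] GG n :=
  ExteriorAlgebra.map
    ({ toFun := fun v => Sum.elim 0 v
       map_add' := fun v w => by ext x; cases x <;> simp
       map_smul' := fun r v => by ext x; cases x <;> simp } :
      (Fin n → ℂ) →ₗ[ℂ] (Fin n ⊕ Fin n → ℂ))

/-- even part (generated by products of two basis vectors) -/
noncomputable def Ev (n : ℕ) : Subalgebra ℂ (G (Fin n)) :=
  Algebra.adjoin ℂ (Set.range fun p : Fin n × Fin n => (e p.1 * e p.2 : G (Fin n)))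

theorem inc₁_e (i : Fin n) : inc₁ n (e i) = e (Sum.inl i) := by
  unfold inc₁ e
  rw [ExteriorAlgebra.map_apply_ι]
  congr 1
  ext x
  cases x <;> simp [Pi.single_apply, Sum.inl.injEq, eq_comm]

theorem inc₂_e (i : Fin n) : inc₂ n (e i) = e (Sum.inr i) := by
  unfold inc₂ e
  rw [ExteriorAlgebra.map_apply_ι]
  congr 1
  ext x
  cases x <;> simp [Pi.single_apply, Sum.inr.injEq, eq_comm]

theorem inc₁_tf (A : Fin n → Fin n → ℂ) : inc₁ n (tf A) = fa A := by
  unfold tf fa
  simp only [map_smul, map_sum, map_mul, inc₁_e]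

theorem inc₂_tf (A : Fin n → Fin n → ℂ) : inc₂ n (tf A) = fb A := by
  unfold tf fb
  simp only [map_smul, map_sum, map_mul, inc₂_e]

theorem tf_mem_Ev (A : Fin n → Fin n → ℂ) : tf A ∈ Ev n := by
  unfold tf
  refine Subalgebra.smul_mem _ (Subalgebra.sum_mem _ fun i _ => Subalgebra.sum_mem _ fun j _ =>
    Subalgebra.smul_mem _ ?_ _) _
  exact Algebra.subset_adjoin ⟨(i, j), rfl⟩

theorem fact_inc₁_ι (v : Fin n → ℂ) :
    inc₁ n (ExteriorAlgebra.ι ℂ v) =
      ExteriorAlgebra.ι ℂ (Sum.elim v (0 : Fin n → ℂ) : Fin n ⊕ Fin n → ℂ) := by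
  unfold inc₁
  rw [ExteriorAlgebra.map_apply_ι]
  rfl

theorem fact_inc₂_ι (v : Fin n → ℂ) :
    inc₂ n (ExteriorAlgebra.ι ℂ v) =
      ExteriorAlgebra.ι ℂ (Sum.elim (0 : Fin n → ℂ) v : Fin n ⊕ Fin n → ℂ) := by
  unfold inc₂
  rw [ExteriorAlgebra.map_apply_ι]
  rfl

theorem fact_c_algebraMap {I : Type} [DecidableEq I] (i : I) (r : ℂ) :
    c i (algebraMap ℂ (G I) r) = 0 := by
  rw [Algebra.algebraMap_eq_smul_one, map_smul, c_one, smul_zero]

/-- contraction along the second copy passes an even element of the first copy -/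
theorem fact_c_inr_mul (i : Fin n) (X : G (Fin n)) (hX : X ∈ Ev n) (z : GG n) :
    c (Sum.inr i) (inc₁ n X * z) = inc₁ n X * c (Sum.inr i) z := by
  revert z
  unfold Ev at hX
  induction hX using Algebra.adjoin_induction with
  | mem x hx =>
    obtain ⟨p, rfl⟩ := hx
    intro z
    have h0 : c (Sum.inr i) (e (Sum.inl p.1) * e (Sum.inl p.2) : GG n) = 0 := by
      rw [c_e_mul]
      have h1 := c_e_mul (Sum.inr i) (Sum.inl p.2) (1 : GG n)
      rw [mul_one, c_one, mul_zero, sub_zero, if_neg (by simp)] at h1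
      rw [h1, mul_zero, if_neg (by simp), sub_zero]
    change c (Sum.inr i) (inc₁ n (e p.1 * e p.2) * z) = inc₁ n (e p.1 * e p.2) * c (Sum.inr i) z
    rw [map_mul (inc₁ n), inc₁_e, inc₁_e, c_ee_mul, h0, zero_mul, zero_add]
  | algebraMap r =>
    intro z
    rw [AlgHom.commutes, ← Algebra.smul_def, map_smul, ← Algebra.smul_def]
  | add x y _ _ hx hy =>
    intro z
    rw [map_add, add_mul, map_add, hx, hy, add_mul]
  | mul x y _ _ hx hy =>
    intro z
    rw [map_mul (inc₁ n), mul_assoc, hx, hy, mul_assoc]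

/-- contraction along the second copy on the second copy -/
theorem fact_c_inr_inc₂ (i : Fin n) (Y : G (Fin n)) :
    c (Sum.inr i) (inc₂ n Y) = inc₂ n (c i Y) := by
  induction Y using CliffordAlgebra.left_induction with
  | algebraMap r => 
    change c (Sum.inr i) (inc₂ n (algebraMap ℂ (G (Fin n)) r)) =
      inc₂ n (c i (algebraMap ℂ (G (Fin n)) r))
    rw [AlgHom.commutes, fact_c_algebraMap, fact_c_algebraMap, map_zero]
  | add x y hx hy => rw [map_add, map_add, map_add, map_add, hx, hy]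
  | ι_mul x v hx =>
    change c (Sum.inr i) (inc₂ n (ExteriorAlgebra.ι ℂ v * x)) =
      inc₂ n (c i (ExteriorAlgebra.ι ℂ v * x))
    rw [map_mul (inc₂ n), fact_inc₂_ι, c_ι_mul, c_ι_mul, hx, map_sub, map_smul,
      map_mul (inc₂ n), fact_inc₂_ι]
    rfl

/-- contraction along the first copy on the second copy -/
theorem fact_c_inl_inc₂ (i : Fin n) (Y : G (Fin n)) :
    c (Sum.inl i) (inc₂ n Y) = 0 := by
  induction Y using CliffordAlgebra.left_induction with
  | algebraMap r => 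
    change c (Sum.inl i) (inc₂ n (algebraMap ℂ (G (Fin n)) r)) = 0
    rw [AlgHom.commutes, fact_c_algebraMap]
  | add x y hx hy => rw [map_add, map_add, hx, hy, add_zero]
  | ι_mul x v hx =>
    change c (Sum.inl i) (inc₂ n (ExteriorAlgebra.ι ℂ v * x)) = 0
    rw [map_mul (inc₂ n), fact_inc₂_ι, c_ι_mul, hx]
    simp

/-- contraction along the first copy -/
theorem fact_c_inl_mul (i : Fin n) (X : G (Fin n)) (Z : GG n) (hZ : c (Sum.inl i) Z = 0) :
    c (Sum.inl i) (inc₁ n X * Z) = inc₁ n (c i X) * Z := by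
  induction X using CliffordAlgebra.left_induction with
  | algebraMap r => 
    change c (Sum.inl i) (inc₁ n (algebraMap ℂ (G (Fin n)) r) * Z) =
      inc₁ n (c i (algebraMap ℂ (G (Fin n)) r)) * Z
    rw [AlgHom.commutes, ← Algebra.smul_def, map_smul, hZ, fact_c_algebraMap, map_zero, zero_mul,
      smul_zero]
  | add x y hx hy => rw [map_add, add_mul, map_add, hx, hy, map_add, map_add, add_mul]
  | ι_mul x v hx =>
    change c (Sum.inl i) (inc₁ n (ExteriorAlgebra.ι ℂ v * x) * Z) =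
      inc₁ n (c i (ExteriorAlgebra.ι ℂ v * x)) * Z
    rw [map_mul (inc₁ n), fact_inc₁_ι, mul_assoc, c_ι_mul, c_ι_mul, hx, map_sub, map_smul,
      map_mul (inc₁ n), fact_inc₁_ι, sub_mul, smul_mul_assoc, mul_assoc]
    rfl

theorem fact_cl_append {I : Type} [DecidableEq I] (L M : List I) (x : G I) :
    cl (L ++ M) x = cl M (cl L x) := by
  induction L generalizing x with
  | nil => rfl
  | cons a L ih =>
    change cl (L ++ M) (c a x) = cl M (cl L (c a x))
    exact ih _

theorem fact_cl_inr (L : List (Fin n)) (X Y : G (Fin n)) (hX : X ∈ Ev n) :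
    cl (L.map Sum.inr) (inc₁ n X * inc₂ n Y) = inc₁ n X * inc₂ n (cl L Y) := by
  induction L generalizing Y with
  | nil => rfl
  | cons a L ih =>
    change cl (L.map Sum.inr) (c (Sum.inr a) (inc₁ n X * inc₂ n Y)) =
      inc₁ n X * inc₂ n (cl L (c a Y))
    rw [fact_c_inr_mul a X hX, fact_c_inr_inc₂, ih]

theorem fact_cl_inl (L : List (Fin n)) (X : G (Fin n)) (Z : GG n)
    (hZ : ∀ i, c (Sum.inl i) Z = 0) :
    cl (L.map Sum.inl) (inc₁ n X * Z) = inc₁ n (cl L X) * Z := by
  induction L generalizing X with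
  | nil => rfl
  | cons a L ih =>
    change cl (L.map Sum.inl) (c (Sum.inl a) (inc₁ n X * Z)) = inc₁ n (cl L (c a X)) * Z
    rw [fact_c_inl_mul a X Z (hZ a), ih]

theorem fact_inv₁ (X : G (Fin n)) :
    ExteriorAlgebra.algebraMapInv (R := ℂ) (M := Fin n ⊕ Fin n → ℂ) (inc₁ n X) =
      ExteriorAlgebra.algebraMapInv (R := ℂ) (M := Fin n → ℂ) X := by
  have h : (ExteriorAlgebra.algebraMapInv (R := ℂ) (M := Fin n ⊕ Fin n → ℂ)).comp (inc₁ n) =
      ExteriorAlgebra.algebraMapInv (R := ℂ) (M := Fin n → ℂ) := by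
    apply ExteriorAlgebra.hom_ext
    ext v
    simp [inc₁, ExteriorAlgebra.algebraMapInv]
  exact DFunLike.congr_fun h X

theorem fact_inv₂ (X : G (Fin n)) :
    ExteriorAlgebra.algebraMapInv (R := ℂ) (M := Fin n ⊕ Fin n → ℂ) (inc₂ n X) =
      ExteriorAlgebra.algebraMapInv (R := ℂ) (M := Fin n → ℂ) X := by
  have h : (ExteriorAlgebra.algebraMapInv (R := ℂ) (M := Fin n ⊕ Fin n → ℂ)).comp (inc₂ n) =
      ExteriorAlgebra.algebraMapInv (R := ℂ) (M := Fin n → ℂ) := by
    apply ExteriorAlgebra.hom_ext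
    ext v
    simp [inc₂, ExteriorAlgebra.algebraMapInv]
  exact DFunLike.congr_fun h X

/-- **Factorisation.** PROOF. Contract first along the second copy: for `X ∈ Ev n` one has
`c (inr i) (inc₁ X * z) = inc₁ X * c (inr i) z` (adjoin induction with `c_ee_mul`), and
`c (inr i) (inc₂ Y) = inc₂ (c i Y)`; then contract along the first copy:
`c (inl i) (inc₁ X * Z) = inc₁ (c i X) * Z` for every `X` as soon as all `c (inl i) Z = 0`
(left induction), with `Z = inc₂ (cl (finRange n) Y)`; the constant term is multiplicative. -/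
theorem TT_mul (X Y : G (Fin n)) (hX : X ∈ Ev n) :
    TT n (inc₁ n X * inc₂ n Y) = T1 n X * T1 n Y := by
  unfold TT T1 clint
  change ExteriorAlgebra.algebraMapInv (R := ℂ) (M := Fin n ⊕ Fin n → ℂ)
      (cl ((List.finRange n).map Sum.inr ++ (List.finRange n).map Sum.inl)
        (inc₁ n X * inc₂ n Y)) =
    ExteriorAlgebra.algebraMapInv (R := ℂ) (M := Fin n → ℂ) (cl (List.finRange n) X) *
      ExteriorAlgebra.algebraMapInv (R := ℂ) (M := Fin n → ℂ) (cl (List.finRange n) Y)
  rw [fact_cl_append, fact_cl_inr _ X Y hX, fact_cl_inl _ X _ fun i => fact_c_inl_inc₂ i _,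
    map_mul, fact_inv₁, fact_inv₂]

end Pool.TwoForms
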