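import Pool.Agent.Lib.MP_4a593f_gt.TF.Defs

/-!
Sharpness with positive sectional curvature: three 2-forms are not enough in dimension 6, even if
all the sectional curvatures are positive (the evaluation of `gb` follows `TF/Sharp.lean`).
-/

namespace Pool.TwoForms

open scoped BigOperators

/-! ### the example, integer version -/

private def spE (i j : ℕ) (p q : Fin (2 * 3)) : ℤ :=
  if p.1 = i ∧ q.1 = j then 1 else if p.1 = j ∧ q.1 = i then -1 else 0

private def spW (a : Fin 3) (p q : Fin (2 * 3)) : ℤ :=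
  if a = 0 then 3 * spE 0 1 p q - 3 * spE 2 3 p q
  else if a = 1 then 3 * spE 1 5 p q - 3 * spE 2 4 p q
  else 3 * spE 0 5 p q - 3 * spE 3 4 p q

private def spI (i j k l : Fin (2 * 3)) : ℤ :=
  (if i = k then 1 else 0) * (if j = l then 1 else 0) -
    (if i = l then 1 else 0) * (if j = k then 1 else 0)

private def spR (i j k l : Fin (2 * 3)) : ℤ :=
  ∑ a : Fin 3, (spW a i k * spW a j l - spW a i l * spW a j k +
    spW a i j * spW a k l + spW a i j * spW a k l) + spI i j k l

private noncomputable def wPos (a : Fin 3) : Mat (2 * 3) := fun p q => (spW a p q : ℝ)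

private noncomputable def rPos : Ten (2 * 3) := fun i j k l => (spR i j k l : ℝ)

private theorem spR_cast (i j k l : Fin (2 * 3)) : rPos i j k l = (spR i j k l : ℝ) := rfl

private theorem rPos_eq (i j k l : Fin (2 * 3)) :
    rPos i j k l = ∑ a : Fin 3, (wsq (wPos a) i j k l + wPos a i j * wPos a k l) +
      ((if i = k then (1 : ℝ) else 0) * (if j = l then 1 else 0) -
        (if i = l then 1 else 0) * (if j = k then 1 else 0)) := by
  unfold rPos spR spI wsq wPos
  push_cast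
  refine congrArg₂ _ (Finset.sum_congr rfl fun a _ => ?_) rfl
  ring

private def spT : ℕ := 0x8208208208208208208208208208208208208208208208208208208218208207e0820820820820829820820a608208178208205e08208208608208208208177e08208208208208208208208208298208208208218208208205e08208208207e0820820829820820820820820820820f2082080e82082082082083282082012082082082082082082082083c8203a082083282082082082082082082082012082082081f8208208608208208208208178208205e0820829820820a6082082082082082082082082082082082082082082082082082082082082082080e820f20820804820820820820820820820820ca08208208208203a082083c820820820820804820820ca0820820820820820820817820820820860820820820a6082082081f8208208208208208205e0820820820821a6082082082082082082082082081f8208208207e082082082082986082082082082082082082082081782082082082083282012082083c8208208208208208208208203a082082082082082082082082082082082082082082082082082082082082082082082082082082082083c82082012082082082080e820820ca08208208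208208208208208208608208208178207e08208208298208298208205e0820820820820821820820a608208178208207e082082081f820820820a60820820820860820820817820820820820820820820ca082080482082082082083c8208203a0820820820820820820820820820820820820804820820f208208208208328208203a08208208208208208208208208208208208208208208208208208208298208205e082082082082082982082086082081f8208205e08208208208208208208208208205e0820820821820a6082082081f82082082012082083282082082082080e820820f208208208208208208208298208208207e08208208205e08208208218208208208208208208208208208208208208207e0820820829820860820820817820817820820a608208208208208178208207e0820821820820a6082082082082082082082082082082082082082082082082082082082082082082082082082082080e820820ca082082082083c820820120820820804820ca082080e820820820820820820820820f20820820820a6082082082081f5e0820820820820820820820820821820820817820820a6082082082082081f8208205e0820829820820860820820820820820820820820820a6082082081f8205e08208208218208208208208208208208208328208203a0820820820804820820f20820820820820820820820820820820820820820820820820820820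

private def spL : ℕ → ℕ → ℤ := fun p q => ((spT / 64 ^ (36 * p + q) % 64 : ℕ) : ℤ) - 32

private def spC (i j : Fin (2 * 3)) : ℕ := 6 * i.1 + j.1

set_option maxRecDepth 20000 in
private theorem spR_tab : ∀ i j k l : Fin (2 * 3),
    spR i j k l = spL (spC i j) (spC k l) := by
  decide +kernel

private def spQ : List (ℤ × ℕ × ℕ × ℕ) :=
    [(1, 1, 15, 29), (-1, 1, 16, 23), (1, 1, 17, 22), (1, 1, 22, 17), (-1, 1, 23, 16)
    , (1, 1, 29, 15), (-1, 2, 9, 29), (1, 2, 10, 23), (-1, 2, 11, 22), (-1, 2, 22, 11)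
    , (1, 2, 23, 10), (-1, 2, 29, 9), (1, 3, 8, 29), (-1, 3, 10, 17), (1, 3, 11, 16), (1, 3, 16, 11)
    , (-1, 3, 17, 10), (1, 3, 29, 8), (-1, 4, 8, 23), (1, 4, 9, 17), (-1, 4, 11, 15)
    , (-1, 4, 15, 11), (1, 4, 17, 9), (-1, 4, 23, 8), (1, 5, 8, 22), (-1, 5, 9, 16), (1, 5, 10, 15)
    , (1, 5, 15, 10), (-1, 5, 16, 9), (1, 5, 22, 8), (1, 8, 3, 29), (-1, 8, 4, 23), (1, 8, 5, 22)
    , (1, 8, 22, 5), (-1, 8, 23, 4), (1, 8, 29, 3), (-1, 9, 2, 29), (1, 9, 4, 17), (-1, 9, 5, 16)
    , (-1, 9, 16, 5), (1, 9, 17, 4), (-1, 9, 29, 2), (1, 10, 2, 23), (-1, 10, 3, 17), (1, 10, 5, 15)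
    , (1, 10, 15, 5), (-1, 10, 17, 3), (1, 10, 23, 2), (-1, 11, 2, 22), (1, 11, 3, 16)
    , (-1, 11, 4, 15), (-1, 11, 15, 4), (1, 11, 16, 3), (-1, 11, 22, 2), (1, 15, 1, 29)
    , (-1, 15, 4, 11), (1, 15, 5, 10), (1, 15, 10, 5), (-1, 15, 11, 4), (1, 15, 29, 1)
    , (-1, 16, 1, 23), (1, 16, 3, 11), (-1, 16, 5, 9), (-1, 16, 9, 5), (1, 16, 11, 3)
    , (-1, 16, 23, 1), (1, 17, 1, 22), (-1, 17, 3, 10), (1, 17, 4, 9), (1, 17, 9, 4)
    , (-1, 17, 10, 3), (1, 17, 22, 1), (1, 22, 1, 17), (-1, 22, 2, 11), (1, 22, 5, 8), (1, 22, 8, 5)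
    , (-1, 22, 11, 2), (1, 22, 17, 1), (-1, 23, 1, 16), (1, 23, 2, 10), (-1, 23, 4, 8)
    , (-1, 23, 8, 4), (1, 23, 10, 2), (-1, 23, 16, 1), (1, 29, 1, 15), (-1, 29, 2, 9), (1, 29, 3, 8)
    , (1, 29, 8, 3), (-1, 29, 9, 2), (1, 29, 15, 1)]

private def spV (x y : ℤ × ℕ × ℕ × ℕ) : ℤ :=
  x.1 * y.1 * (spL x.2.1 y.2.1 * spL x.2.2.1 y.2.2.1 * spL x.2.2.2 y.2.2.2)

set_option maxRecDepth 20000 in
private theorem sp_val :
    (spQ.map fun x => (spQ.map fun y => spV x y).sum).sum = -53856 := by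
  decide +kernel

private def spK (σ : Equiv.Perm (Fin (2 * 3))) : ℤ × ℕ × ℕ × ℕ :=
  ((Equiv.Perm.sign σ : ℤ), spC (σ 0) (σ 1), spC (σ 2) (σ 3), spC (σ 4) (σ 5))

private def spA : Finset (Equiv.Perm (Fin (2 * 3))) :=
  ((Finset.univ.filter fun σ => σ 0 < σ 1).filter fun σ => σ 2 < σ 3).filter fun σ => σ 4 < σ 5

set_option maxRecDepth 20000 in
private theorem spA_keys : spA.val.map spK = (spQ : Multiset (ℤ × ℕ × ℕ × ℕ)) := by
  decide +kernel

/-! ### halving a sum -/

private theorem sp_half (A : Finset (Equiv.Perm (Fin (2 * 3)))) (s : Equiv.Perm (Fin (2 * 3)))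
    (hs : s * s = 1) (hA : ∀ σ, σ ∈ A → σ * s ∈ A) (p : Equiv.Perm (Fin (2 * 3)) → Prop)
    [DecidablePred p] (hp : ∀ σ, p (σ * s) ↔ ¬ p σ) (F : Equiv.Perm (Fin (2 * 3)) → ℤ)
    (hF : ∀ σ, F (σ * s) = F σ) : ∑ σ ∈ A, F σ = 2 * ∑ σ ∈ A.filter p, F σ := by
  have h1 : ∑ σ ∈ A.filter (fun σ => ¬ p σ), F σ = ∑ σ ∈ A.filter p, F σ := by
    refine Finset.sum_nbij' (fun σ => σ * s) (fun σ => σ * s) ?_ ?_ ?_ ?_ ?_
    · intro σ hσ
      rw [Finset.mem_filter] at hσ ⊢
      exact ⟨hA σ hσ.1, (hp σ).2 hσ.2⟩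
    · intro σ hσ
      rw [Finset.mem_filter] at hσ ⊢
      exact ⟨hA σ hσ.1, fun h => (hp σ).1 h hσ.2⟩
    · intro σ _
      rw [mul_assoc, hs, mul_one]
    · intro σ _
      rw [mul_assoc, hs, mul_one]
    · intro σ _
      exact (hF σ).symm
  rw [← Finset.sum_filter_add_sum_filter_not A p, h1]
  ring

private theorem sp_sum (F : Equiv.Perm (Fin (2 * 3)) → ℤ)
    (h0 : ∀ σ, F (σ * Equiv.swap 0 1) = F σ) (h2 : ∀ σ, F (σ * Equiv.swap 2 3) = F σ)
    (h4 : ∀ σ, F (σ * Equiv.swap 4 5) = F σ) : ∑ σ, F σ = 8 * ∑ σ ∈ spA, F σ := by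
  have e : ∀ (σ : Equiv.Perm (Fin (2 * 3))) (i j k : Fin (2 * 3)),
      (σ * Equiv.swap i j) k = σ (Equiv.swap i j k) := fun σ i j k => rfl
  have hlt : ∀ (σ : Equiv.Perm (Fin (2 * 3))) (i j : Fin (2 * 3)), i ≠ j →
      (σ j < σ i ↔ ¬ σ i < σ j) := by
    intro σ i j hij
    rw [not_lt, le_iff_lt_or_eq]
    constructor
    · exact Or.inl
    · rintro (h | h)
      · exact h
      · exact absurd (σ.injective h).symm hij
  rw [sp_half Finset.univ (Equiv.swap 0 1) (Equiv.swap_mul_self _ _)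
      (fun σ _ => Finset.mem_univ _) (fun σ => σ 0 < σ 1) ?_ F h0,
    sp_half _ (Equiv.swap 2 3) (Equiv.swap_mul_self _ _) ?_ (fun σ => σ 2 < σ 3) ?_ F h2,
    sp_half _ (Equiv.swap 4 5) (Equiv.swap_mul_self _ _) ?_ (fun σ => σ 4 < σ 5) ?_ F h4]
  · unfold spA
    ring
  · intro σ hσ
    rw [Finset.mem_filter, Finset.mem_filter] at hσ ⊢
    rw [e, e, e, e]
    exact ⟨⟨Finset.mem_univ _, hσ.1.2⟩, hσ.2⟩
  · intro σ
    change σ (Equiv.swap 4 5 4) < σ (Equiv.swap 4 5 5) ↔ _
    rw [Equiv.swap_apply_left, Equiv.swap_apply_right]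
    exact hlt σ 4 5 (by decide)
  · intro σ hσ
    rw [Finset.mem_filter] at hσ ⊢
    rw [e, e]
    exact ⟨Finset.mem_univ _, hσ.2⟩
  · intro σ
    change σ (Equiv.swap 2 3 2) < σ (Equiv.swap 2 3 3) ↔ _
    rw [Equiv.swap_apply_left, Equiv.swap_apply_right]
    exact hlt σ 2 3 (by decide)
  · intro σ
    change σ (Equiv.swap 0 1 0) < σ (Equiv.swap 0 1 1) ↔ _
    rw [Equiv.swap_apply_left, Equiv.swap_apply_right]
    exact hlt σ 0 1 (by decide)


private theorem wPos_skew (a : Fin 3) : Skew (wPos a) := by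
  have h : ∀ (a : Fin 3) (i j : Fin (2 * 3)), spW a j i = - spW a i j := by decide +kernel
  intro i j
  unfold wPos
  rw [h a i j]
  push_cast
  ring

private theorem rPos_curv : IsCurvature rPos := by
  have h1 : ∀ i j k l : Fin (2 * 3), spR j i k l = - spR i j k l := by decide +kernel
  have h2 : ∀ i j k l : Fin (2 * 3), spR i j l k = - spR i j k l := by decide +kernel
  have h3 : ∀ i j k l : Fin (2 * 3), spR i j k l + spR j k i l + spR k i j l = 0 := by
    decide +kernel
  refine ⟨?_, ?_, ?_⟩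
  · intro i j k l
    rw [spR_cast, spR_cast, h1]
    push_cast
    ring
  · intro i j k l
    rw [spR_cast, spR_cast, h2]
    push_cast
    ring
  · intro i j k l
    rw [spR_cast, spR_cast, spR_cast]
    exact_mod_cast h3 i j k l

private def spG (σ τ : Equiv.Perm (Fin (2 * 3))) : ℤ :=
  (Equiv.Perm.sign σ : ℤ) * (Equiv.Perm.sign τ : ℤ) *
    (spR (σ 0) (σ 1) (τ 0) (τ 1) * spR (σ 2) (σ 3) (τ 2) (τ 3) *
      spR (σ 4) (σ 5) (τ 4) (τ 5))

private theorem sp_gb : gb 3 rPos = ((∑ σ, ∑ τ, spG σ τ : ℤ) : ℝ) := by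
  unfold gb spG
  rw [Int.cast_sum]
  refine Finset.sum_congr rfl fun σ _ => ?_
  rw [Int.cast_sum]
  refine Finset.sum_congr rfl fun τ _ => ?_
  rw [Fin.prod_univ_three]
  simp only [spR_cast]
  push_cast
  rfl

private theorem spG_eq (σ τ : Equiv.Perm (Fin (2 * 3))) :
    spG σ τ = spV (spK σ) (spK τ) := by
  unfold spG spV spK
  rw [spR_tab, spR_tab, spR_tab]

/-- the exact value is `-3446784` (`gb` of the unit sphere is `5760`). -/
private theorem rPos_gb : gb 3 rPos < 0 := by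
  have hl : ∀ i j k l : Fin (2 * 3), spR j i k l = - spR i j k l := by decide +kernel
  have hr : ∀ i j k l : Fin (2 * 3), spR i j l k = - spR i j k l := by decide +kernel
  have hsg : ∀ (σ : Equiv.Perm (Fin (2 * 3))) (i j : Fin (2 * 3)), i ≠ j →
      (Equiv.Perm.sign (σ * Equiv.swap i j) : ℤ) = - (Equiv.Perm.sign σ : ℤ) := by
    intro σ i j hij
    rw [Equiv.Perm.sign_mul, Equiv.Perm.sign_swap hij]
    simp
  have e : ∀ (σ : Equiv.Perm (Fin (2 * 3))) (i j k : Fin (2 * 3)),
      (σ * Equiv.swap i j) k = σ (Equiv.swap i j k) := fun σ i j k => rfl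
  have a1 : ∀ i : Fin (2 * 3), Equiv.swap (0 : Fin (2 * 3)) 1 i =
      if i = 0 then 1 else if i = 1 then 0 else i := by decide
  have a2 : ∀ i : Fin (2 * 3), Equiv.swap (2 : Fin (2 * 3)) 3 i =
      if i = 2 then 3 else if i = 3 then 2 else i := by decide
  have a3 : ∀ i : Fin (2 * 3), Equiv.swap (4 : Fin (2 * 3)) 5 i =
      if i = 4 then 5 else if i = 5 then 4 else i := by decide
  have hτ : ∀ σ, ∑ τ, spG σ τ = 8 * ∑ τ ∈ spA, spG σ τ := by
    intro σ
    refine sp_sum _ ?_ ?_ ?_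
    · intro τ
      change _ * (_ : ℤ) * (spR _ _ (τ (Equiv.swap 0 1 0)) (τ (Equiv.swap 0 1 1)) *
        spR _ _ (τ (Equiv.swap 0 1 2)) (τ (Equiv.swap 0 1 3)) *
        spR _ _ (τ (Equiv.swap 0 1 4)) (τ (Equiv.swap 0 1 5))) = _
      rw [hsg τ 0 1 (by decide), a1, a1, a1, a1, a1, a1]
      change _ * (_ : ℤ) * (spR _ _ (τ 1) (τ 0) * spR _ _ (τ 2) (τ 3) *
        spR _ _ (τ 4) (τ 5)) = _
      unfold spG
      rw [hr (σ 0) (σ 1) (τ 0) (τ 1)]
      ring
    · intro τ
      change _ * (_ : ℤ) * (spR _ _ (τ (Equiv.swap 2 3 0)) (τ (Equiv.swap 2 3 1)) *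
        spR _ _ (τ (Equiv.swap 2 3 2)) (τ (Equiv.swap 2 3 3)) *
        spR _ _ (τ (Equiv.swap 2 3 4)) (τ (Equiv.swap 2 3 5))) = _
      rw [hsg τ 2 3 (by decide), a2, a2, a2, a2, a2, a2]
      change _ * (_ : ℤ) * (spR _ _ (τ 0) (τ 1) * spR _ _ (τ 3) (τ 2) *
        spR _ _ (τ 4) (τ 5)) = _
      unfold spG
      rw [hr (σ 2) (σ 3) (τ 2) (τ 3)]
      ring
    · intro τ
      change _ * (_ : ℤ) * (spR _ _ (τ (Equiv.swap 4 5 0)) (τ (Equiv.swap 4 5 1)) *
        spR _ _ (τ (Equiv.swap 4 5 2)) (τ (Equiv.swap 4 5 3)) *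
        spR _ _ (τ (Equiv.swap 4 5 4)) (τ (Equiv.swap 4 5 5))) = _
      rw [hsg τ 4 5 (by decide), a3, a3, a3, a3, a3, a3]
      change _ * (_ : ℤ) * (spR _ _ (τ 0) (τ 1) * spR _ _ (τ 2) (τ 3) *
        spR _ _ (τ 5) (τ 4)) = _
      unfold spG
      rw [hr (σ 4) (σ 5) (τ 4) (τ 5)]
      ring
  have hG : ∀ (s : Equiv.Perm (Fin (2 * 3))), (∀ σ τ, spG (σ * s) τ = spG σ τ) →
      ∀ σ, (8 * ∑ τ ∈ spA, spG (σ * s) τ : ℤ) = 8 * ∑ τ ∈ spA, spG σ τ := by
    intro s h σ
    simp only [h]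
  have hσ : ∑ σ, (8 * ∑ τ ∈ spA, spG σ τ) =
      8 * ∑ σ ∈ spA, (8 * ∑ τ ∈ spA, spG σ τ) := by
    refine sp_sum _ (hG _ ?_) (hG _ ?_) (hG _ ?_)
    · intro σ τ
      change (_ : ℤ) * _ * (spR (σ (Equiv.swap 0 1 0)) (σ (Equiv.swap 0 1 1)) _ _ *
        spR (σ (Equiv.swap 0 1 2)) (σ (Equiv.swap 0 1 3)) _ _ *
        spR (σ (Equiv.swap 0 1 4)) (σ (Equiv.swap 0 1 5)) _ _) = _
      rw [hsg σ 0 1 (by decide), a1, a1, a1, a1, a1, a1]
      change (_ : ℤ) * _ * (spR (σ 1) (σ 0) _ _ * spR (σ 2) (σ 3) _ _ *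
        spR (σ 4) (σ 5) _ _) = _
      unfold spG
      rw [hl (σ 0) (σ 1) (τ 0) (τ 1)]
      ring
    · intro σ τ
      change (_ : ℤ) * _ * (spR (σ (Equiv.swap 2 3 0)) (σ (Equiv.swap 2 3 1)) _ _ *
        spR (σ (Equiv.swap 2 3 2)) (σ (Equiv.swap 2 3 3)) _ _ *
        spR (σ (Equiv.swap 2 3 4)) (σ (Equiv.swap 2 3 5)) _ _) = _
      rw [hsg σ 2 3 (by decide), a2, a2, a2, a2, a2, a2]
      change (_ : ℤ) * _ * (spR (σ 0) (σ 1) _ _ * spR (σ 3) (σ 2) _ _ *
        spR (σ 4) (σ 5) _ _) = _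
      unfold spG
      rw [hl (σ 2) (σ 3) (τ 2) (τ 3)]
      ring
    · intro σ τ
      change (_ : ℤ) * _ * (spR (σ (Equiv.swap 4 5 0)) (σ (Equiv.swap 4 5 1)) _ _ *
        spR (σ (Equiv.swap 4 5 2)) (σ (Equiv.swap 4 5 3)) _ _ *
        spR (σ (Equiv.swap 4 5 4)) (σ (Equiv.swap 4 5 5)) _ _) = _
      rw [hsg σ 4 5 (by decide), a3, a3, a3, a3, a3, a3]
      change (_ : ℤ) * _ * (spR (σ 0) (σ 1) _ _ * spR (σ 2) (σ 3) _ _ *
        spR (σ 5) (σ 4) _ _) = _
      unfold spG
      rw [hl (σ 4) (σ 5) (τ 4) (τ 5)]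
      ring
  have key : ∀ f : ℤ × ℕ × ℕ × ℕ → ℤ, ∑ σ ∈ spA, f (spK σ) = (spQ.map f).sum := by
    intro f
    have h : ∑ σ ∈ spA, f (spK σ) = ((spA.val.map spK).map f).sum := by
      rw [Multiset.map_map]
      rfl
    rw [h, spA_keys, Multiset.map_coe, Multiset.sum_coe]
  have hval : ∑ σ ∈ spA, ∑ τ ∈ spA, spG σ τ = -53856 := by
    have h1 : ∀ σ, ∑ τ ∈ spA, spG σ τ = (spQ.map fun y => spV (spK σ) y).sum := by
      intro σ
      rw [← key fun y => spV (spK σ) y]
      exact Finset.sum_congr rfl fun τ _ => spG_eq σ τ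
    rw [Finset.sum_congr rfl fun σ _ => h1 σ,
      key fun x => (spQ.map fun y => spV x y).sum]
    exact sp_val
  have htot : ∑ σ, ∑ τ, spG σ τ = -3446784 := by
    rw [Finset.sum_congr rfl fun σ _ => hτ σ, hσ, ← Finset.mul_sum, hval]
    norm_num
  rw [sp_gb, htot]
  norm_num


/-! ### the quadratic forms -/

private theorem sp_id_sum (A B : Mat (2 * 3)) :
    ∑ i, ∑ j, ∑ k, ∑ l, ((if i = k then (1 : ℝ) else 0) * (if j = l then 1 else 0) -
        (if i = l then 1 else 0) * (if j = k then 1 else 0)) * A i j * B k l =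
      ∑ i, ∑ j, (A i j * B i j - A i j * B j i) := by
  refine Finset.sum_congr rfl fun i _ => Finset.sum_congr rfl fun j _ => ?_
  have h : ∀ k l : Fin (2 * 3), ((if i = k then (1 : ℝ) else 0) * (if j = l then 1 else 0) -
      (if i = l then 1 else 0) * (if j = k then 1 else 0)) * A i j * B k l =
      (if i = k then (if j = l then A i j * B k l else 0) else 0) -
        (if j = k then (if i = l then A i j * B k l else 0) else 0) := by
    intro k l
    split_ifs <;> ring
  simp only [h, Finset.sum_sub_distrib]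
  simp

private theorem sp_skew_self {w : Mat (2 * 3)} (hw : Skew w) (x : Fin (2 * 3) → ℝ) :
    ∑ i, ∑ k, w i k * x i * x k = 0 := by
  have h : ∑ i, ∑ k, w i k * x i * x k = - ∑ i, ∑ k, w i k * x i * x k := by
    conv_lhs => rw [Finset.sum_comm]
    rw [← Finset.sum_neg_distrib]
    refine Finset.sum_congr rfl fun i _ => ?_
    rw [← Finset.sum_neg_distrib]
    refine Finset.sum_congr rfl fun k _ => ?_
    rw [hw i k]
    ring
  linarith

private theorem sp_wsq_sum {w : Mat (2 * 3)} (hw : Skew w) (x y : Fin (2 * 3) → ℝ) :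
    ∑ i, ∑ j, ∑ k, ∑ l, (wsq w i j k l + w i j * w k l) * x i * y j * x k * y l =
      3 * (∑ i, ∑ j, w i j * x i * y j) ^ 2 := by
  have e1 : ∑ i, ∑ j, ∑ k, ∑ l, (w i k * x i * x k) * (w j l * y j * y l) =
      (∑ i, ∑ k, w i k * x i * x k) * (∑ j, ∑ l, w j l * y j * y l) := by
    rw [Finset.sum_mul]
    refine Finset.sum_congr rfl fun i _ => ?_
    rw [Finset.mul_sum]
    refine Finset.sum_congr rfl fun j _ => ?_
    rw [Finset.sum_mul]
    refine Finset.sum_congr rfl fun k _ => ?_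
    rw [Finset.mul_sum]
  have e2 : ∑ i, ∑ j, ∑ k, ∑ l, (w i l * x i * y l) * (w j k * y j * x k) =
      (∑ i, ∑ l, w i l * x i * y l) * (∑ j, ∑ k, w j k * y j * x k) := by
    rw [Finset.sum_mul]
    refine Finset.sum_congr rfl fun i _ => ?_
    rw [Finset.mul_sum]
    refine Finset.sum_congr rfl fun j _ => ?_
    rw [Finset.sum_mul]
    rw [Finset.sum_comm]
    refine Finset.sum_congr rfl fun l _ => ?_
    rw [Finset.mul_sum]
  have e3 : ∑ i, ∑ j, ∑ k, ∑ l, (w i j * x i * y j) * (w k l * x k * y l) =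
      (∑ i, ∑ j, w i j * x i * y j) * (∑ k, ∑ l, w k l * x k * y l) := by
    rw [Finset.sum_mul]
    refine Finset.sum_congr rfl fun i _ => ?_
    rw [Finset.sum_mul]
    refine Finset.sum_congr rfl fun j _ => ?_
    rw [Finset.mul_sum]
    refine Finset.sum_congr rfl fun k _ => ?_
    rw [Finset.mul_sum]
  have e4 : ∑ j, ∑ k, w j k * y j * x k = - ∑ i, ∑ j, w i j * x i * y j := by
    rw [Finset.sum_comm, ← Finset.sum_neg_distrib]
    refine Finset.sum_congr rfl fun i _ => ?_
    rw [← Finset.sum_neg_distrib]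
    refine Finset.sum_congr rfl fun j _ => ?_
    rw [hw i j]
    ring
  have h : ∀ i j k l : Fin (2 * 3), (wsq w i j k l + w i j * w k l) * x i * y j * x k * y l =
      (w i k * x i * x k) * (w j l * y j * y l) - (w i l * x i * y l) * (w j k * y j * x k) +
        (w i j * x i * y j) * (w k l * x k * y l) + (w i j * x i * y j) * (w k l * x k * y l) := by
    intro i j k l
    unfold wsq
    ring
  simp only [h, Finset.sum_add_distrib, Finset.sum_sub_distrib]
  rw [e1, e2, e3, sp_skew_self hw x, e4]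
  ring

private theorem sp_sec : SecPos rPos := by
  intro x y hxy
  have hsum : ∑ i, ∑ j, ∑ k, ∑ l, rPos i j k l * x i * y j * x k * y l =
      ∑ a : Fin 3, 3 * (∑ i, ∑ j, wPos a i j * x i * y j) ^ 2 +
        ((∑ i, x i ^ 2) * (∑ j, y j ^ 2) - (∑ i, x i * y i) ^ 2) := by
    have h1 : ∀ i j k l : Fin (2 * 3), rPos i j k l * x i * y j * x k * y l =
        ∑ a : Fin 3, (wsq (wPos a) i j k l + wPos a i j * wPos a k l) * x i * y j * x k * y l +
          ((if i = k then (1 : ℝ) else 0) * (if j = l then 1 else 0) -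
            (if i = l then 1 else 0) * (if j = k then 1 else 0)) *
              (fun i j => x i * y j : Mat (2 * 3)) i j * (fun i j => x i * y j : Mat (2 * 3)) k l := by
      intro i j k l
      rw [rPos_eq]
      simp only [← Finset.sum_mul]
      ring
    simp only [h1, Finset.sum_add_distrib]
    congr 1
    · rw [← Finset.sum_congr rfl fun a _ => sp_wsq_sum (wPos_skew a) x y]
      simp only [Fin.sum_univ_three, Finset.sum_add_distrib]
    · rw [sp_id_sum]
      simp only [Finset.sum_sub_distrib]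
      congr 1
      · rw [Finset.sum_mul_sum]
        refine Finset.sum_congr rfl fun i _ => Finset.sum_congr rfl fun j _ => ?_
        ring
      · rw [sq, Finset.sum_mul_sum]
        refine Finset.sum_congr rfl fun i _ => Finset.sum_congr rfl fun j _ => ?_
        ring
  rw [hsum]
  have h3 : 0 ≤ ∑ a : Fin 3, 3 * (∑ i, ∑ j, wPos a i j * x i * y j) ^ 2 :=
    Finset.sum_nonneg fun a _ => by positivity
  suffices hlag : 0 < (∑ i, x i ^ 2) * (∑ j, y j ^ 2) - (∑ i, x i * y i) ^ 2 by linarith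
  set Y : ℝ := ∑ j, y j ^ 2 with hY
  set P : ℝ := ∑ i, x i * y i with hP
  rw [LinearIndependent.pair_iff] at hxy
  have hy : y ≠ 0 := by
    intro h
    have := hxy 0 1 (by rw [h]; simp)
    exact one_ne_zero this.2
  have hYpos : 0 < Y := by
    obtain ⟨i, hi⟩ : ∃ i, y i ≠ 0 := by
      by_contra hcon
      push Not at hcon
      exact hy (funext hcon)
    refine lt_of_lt_of_le (by positivity : 0 < y i ^ 2) ?_
    exact Finset.single_le_sum (f := fun j => y j ^ 2) (fun j _ => sq_nonneg _) (Finset.mem_univ i)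
  have hid : ∑ i, (Y * x i - P * y i) ^ 2 = Y * ((∑ i, x i ^ 2) * Y - P ^ 2) := by
    have h1 : ∀ i, (Y * x i - P * y i) ^ 2 =
        Y ^ 2 * x i ^ 2 - 2 * Y * P * (x i * y i) + P ^ 2 * y i ^ 2 := by intro i; ring
    simp only [h1, Finset.sum_add_distrib, Finset.sum_sub_distrib, ← Finset.mul_sum]
    rw [← hY, ← hP]
    ring
  have hpos : 0 < ∑ i, (Y * x i - P * y i) ^ 2 := by
    obtain ⟨i, hi⟩ : ∃ i, Y * x i - P * y i ≠ 0 := by
      by_contra hcon
      push Not at hcon
      have h4 := hxy Y (-P) (by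
        funext i
        simp only [Pi.add_apply, Pi.smul_apply, smul_eq_mul, Pi.zero_apply]
        linarith [hcon i])
      exact hYpos.ne' h4.1
    refine lt_of_lt_of_le (by positivity : 0 < (Y * x i - P * y i) ^ 2) ?_
    exact Finset.single_le_sum (f := fun j => (Y * x j - P * y j) ^ 2) (fun j _ => sq_nonneg _)
      (Finset.mem_univ i)
  rw [hid] at hpos
  exact (pos_iff_pos_of_mul_pos hpos).1 hYpos

theorem sharp_pos : ∃ R : Ten (2 * 3), IsCurvature R ∧ (∃ w : Fin 3 → Mat (2 * 3),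
    (∀ a, Skew (w a)) ∧
      NonnegOnForms (fun i j k l => R i j k l - ∑ a, (wsq (w a) i j k l + w a i j * w a k l))) ∧
    SecPos R ∧ gb 3 R < 0 := by
  refine ⟨rPos, rPos_curv, ⟨wPos, wPos_skew, fun β hβ => ?_⟩, sp_sec, rPos_gb⟩
  have h : ∀ i j k l : Fin (2 * 3),
      (rPos i j k l - ∑ a, (wsq (wPos a) i j k l + wPos a i j * wPos a k l)) * β i j * β k l =
      ((if i = k then (1 : ℝ) else 0) * (if j = l then 1 else 0) -
        (if i = l then 1 else 0) * (if j = k then 1 else 0)) * β i j * β k l := by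
    intro i j k l
    rw [rPos_eq]
    ring
  simp only [h]
  rw [sp_id_sum]
  refine Finset.sum_nonneg fun i _ => Finset.sum_nonneg fun j _ => ?_
  rw [hβ i j]
  nlinarith [sq_nonneg (β i j)]

end Pool.TwoForms
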