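import Pool.Agent.Lib.MP_4a593f_gt.TF.Main
import Pool.Agent.Lib.MP_4a593f_gt.TF.SharpPos

/-!
The number of 2-forms: two is always allowed, three is not.
-/

namespace Pool.TwoForms

open scoped BigOperators

theorem skew_zero {n : ℕ} : Skew (fun _ _ => 0 : Mat n) := by
  intro i j
  simp

theorem wsq_zero {n : ℕ} (i j k l : Fin n) : wsq (fun _ _ => 0 : Mat n) i j k l = 0 := by
  simp [wsq]

theorem final_le {N : ℕ} (hN : N ≤ 2) (m : ℕ) (R : Ten (2 * m)) (w : Fin N → Mat (2 * m))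
    (hR : IsCurvature R) (hw : ∀ b, Skew (w b))
    (h : NonnegOnForms (fun i j k l => R i j k l - ∑ b, wsq (w b) i j k l)) :
    0 ≤ gb m R ∧ (SecPos R → 0 < gb m R) := by
  interval_cases N
  · refine main m R hR (fun _ _ => 0) (fun _ _ => 0) skew_zero skew_zero ?_
    simpa [wsq_zero] using h
  · refine main m R hR (w 0) (fun _ _ => 0) (hw 0) skew_zero ?_
    simpa [wsq_zero] using h
  · refine main m R hR (w 0) (w 1) (hw 0) (hw 1) ?_
    simpa [Fin.sum_univ_two] using h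

theorem final_ge {N : ℕ} (hN : 3 ≤ N) :
    ∃ (R : Ten (2 * 3)) (w : Fin N → Mat (2 * 3)), IsCurvature R ∧ (∀ b, Skew (w b)) ∧
      NonnegOnForms (fun i j k l => R i j k l - ∑ b, (wsq (w b) i j k l + w b i j * w b k l)) ∧
      SecPos R ∧ gb 3 R < 0 := by
  obtain ⟨R, hR, ⟨w, hw, hn⟩, hs, hg⟩ := sharp_pos
  obtain ⟨K, rfl⟩ : ∃ K, N = 3 + K := ⟨N - 3, by omega⟩
  refine ⟨R, Fin.append w (fun _ _ _ => 0), hR, ?_, ?_, hs, hg⟩
  · intro b
    refine Fin.addCases (fun i => ?_) (fun i => ?_) b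
    · rw [Fin.append_left]; exact hw i
    · rw [Fin.append_right]; exact skew_zero
  · simpa [Fin.sum_univ_add, Fin.append_left, Fin.append_right, wsq_zero] using hn

end Pool.TwoForms
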