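import Mathlib

/-!
The flow identity (pure commutative algebra).
-/

namespace Pool.TwoForms

open scoped BigOperators Nat

/-- the coefficient `2 |j - k| + δ_{jk}` -/
def cf (j k : ℕ) : ℕ := 2 * (max j k - min j k) + if j = k then 1 else 0

section FlowAux

variable {A : Type*} [CommRing A] [Algebra ℂ A]

/-- divided power with integer exponent, zero for negative exponents -/
noncomputable def flowDp (a : A) (n : ℤ) : A :=
  if 0 ≤ n then ((1 : ℂ) / ((n.toNat)! : ℂ)) • a ^ n.toNat else 0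

theorem flowDp_neg (a : A) {n : ℤ} (hn : n < 0) : flowDp a n = 0 := by
  unfold flowDp
  rw [if_neg (by omega)]

theorem flowDp_nat (a : A) (n : ℕ) : flowDp a (n : ℤ) = ((1 : ℂ) / (n ! : ℂ)) • a ^ n := by
  unfold flowDp
  rw [if_pos (by omega)]
  simp

theorem flowDp_mul (a : A) (n : ℤ) :
    a * flowDp a n = ((n : ℂ) + 1) • flowDp a (n + 1) := by
  rcases lt_trichotomy n (-1) with h | h | h
  · rw [flowDp_neg a (by omega), flowDp_neg a (by omega)]; simp
  · subst h
    rw [flowDp_neg a (by omega)]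
    simp
  · obtain ⟨k, rfl⟩ := Int.eq_ofNat_of_zero_le (show 0 ≤ n by omega)
    have e : ((k : ℤ) + 1) = ((k + 1 : ℕ) : ℤ) := by push_cast; ring
    rw [e, flowDp_nat, flowDp_nat, mul_smul_comm, smul_smul, ← pow_succ']
    congr 1
    have h1 : ((k ! : ℕ) : ℂ) ≠ 0 := by exact_mod_cast Nat.factorial_ne_zero k
    have h2 : ((k : ℂ) + 1) ≠ 0 := by exact_mod_cast Nat.succ_ne_zero k
    rw [Nat.factorial_succ]
    push_cast
    field_simp

theorem flowDp_der (D : Derivation ℂ A A) (a : A) (n : ℤ) :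
    D (flowDp a n) = flowDp a (n - 1) * D a := by
  rcases lt_trichotomy n 0 with h | h | h
  · rw [flowDp_neg a (by omega), flowDp_neg a (by omega)]; simp
  · subst h
    rw [flowDp_neg a (n := 0 - 1) (by omega)]
    have : flowDp a 0 = 1 := by
      have := flowDp_nat a 0
      simpa using this
    rw [this]
    simp
  · obtain ⟨k, hk⟩ := Int.eq_ofNat_of_zero_le (show 0 ≤ n - 1 by omega)
    have hn : n = ((k + 1 : ℕ) : ℤ) := by push_cast; omega
    subst hn
    have e2 : (((k + 1 : ℕ) : ℤ) - 1) = (k : ℤ) := by push_cast; ring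
    rw [e2, flowDp_nat, flowDp_nat, Derivation.map_smul, Derivation.leibniz_pow]
    simp only [Nat.add_sub_cancel, smul_eq_mul]
    rw [nsmul_eq_mul, smul_mul_assoc, Algebra.smul_def, Algebra.smul_def]
    have h1 : ((k ! : ℕ) : ℂ) ≠ 0 := by exact_mod_cast Nat.factorial_ne_zero k
    have h2 : ((k : ℂ) + 1) ≠ 0 := by exact_mod_cast Nat.succ_ne_zero k
    have h3 : (((k + 1 : ℕ) : A)) = algebraMap ℂ A ((k : ℂ) + 1) := by
      simp
    rw [h3, ← mul_assoc, ← map_mul]
    congr 2
    rw [Nat.factorial_succ]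
    push_cast
    field_simp

/-- shift by one -/
theorem flow_shift1 (g : ℤ → ℂ) (B : ℕ) (h0 : g 0 = 0) (hB : g B = 0) :
    ∑ k ∈ Finset.range B, g ((k : ℤ) + 1) = ∑ k ∈ Finset.range B, g (k : ℤ) := by
  have e1 := Finset.sum_range_succ' (fun k : ℕ => g (k : ℤ)) B
  have e2 := Finset.sum_range_succ (fun k : ℕ => g (k : ℤ)) B
  have e3 : ∑ k ∈ Finset.range B, g (((k + 1 : ℕ)) : ℤ)
      = ∑ k ∈ Finset.range B, g ((k : ℤ) + 1) := by
    refine Finset.sum_congr rfl fun k _ => ?_
    push_cast; rfl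
  rw [e3] at e1
  have h0' : g (((0 : ℕ)) : ℤ) = 0 := by simpa using h0
  rw [h0'] at e1
  rw [hB] at e2
  have := e1.symm.trans e2
  simpa using this

/-- shift by minus one -/
theorem flow_shift2 (g : ℤ → ℂ) (B : ℕ) (h0 : g (-1) = 0) (hB : g ((B : ℤ) - 1) = 0) :
    ∑ k ∈ Finset.range B, g ((k : ℤ) - 1) = ∑ k ∈ Finset.range B, g (k : ℤ) := by
  have := flow_shift1 (fun k => g (k - 1)) B (by simpa using h0) hB
  simpa using this.symm

/-- half sign -/
noncomputable def flowS (d : ℤ) : ℂ := if 0 < d then 1 / 2 else if d < 0 then -(1 / 2) else 0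

/-- integer version of the coefficient -/
noncomputable def flowC (d : ℤ) : ℂ := 2 * ((|d| : ℤ) : ℂ) + if d = 0 then 1 else 0

theorem flow_c1 (d : ℤ) : ((d : ℂ) + 1) * flowS (d + 1) + 2 * (d : ℂ) * flowS d
    + ((d : ℂ) - 1) * flowS (d - 1) = flowC d := by
  unfold flowS flowC
  rcases lt_trichotomy d 0 with h | h | h
  · rcases eq_or_lt_of_le (show d ≤ -1 by omega) with h' | h'
    · subst h'; norm_num
    · rw [if_neg (by omega), if_pos (by omega), if_neg (by omega), if_pos (by omega),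
        if_neg (by omega), if_pos (by omega), if_neg (by omega), abs_of_neg h]
      push_cast; ring
  · subst h; norm_num
  · rcases eq_or_lt_of_le (show 1 ≤ d by omega) with h' | h'
    · subst h'; norm_num
    · rw [if_pos (by omega), if_pos (by omega), if_pos (by omega),
        if_neg (by omega), abs_of_pos h]
      ring

theorem flow_c2 (d : ℤ) : flowC d - flowC (d - 1) = 2 * (flowS d + flowS (d - 1)) := by
  unfold flowS flowC
  rcases lt_trichotomy d 0 with h | h | h
  · rw [if_neg (by omega), if_neg (by omega), if_neg (by omega), if_pos (by omega),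
        if_neg (by omega), if_pos (by omega), abs_of_neg h, abs_of_neg (by omega)]
    push_cast; ring
  · subst h; norm_num
  · rcases eq_or_lt_of_le (show 1 ≤ d by omega) with h' | h'
    · subst h'; norm_num
    · rw [if_neg (by omega), if_neg (by omega), if_pos (by omega),
        if_pos (by omega), abs_of_pos h, abs_of_pos (by omega)]
      push_cast; ring

/-- double sum over a box -/
noncomputable def flowSS (B : ℕ) (f : ℤ → ℤ → ℂ) : ℂ :=
  ∑ j ∈ Finset.range B, ∑ k ∈ Finset.range B, f j k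

theorem flowSS_congr (B : ℕ) (f g : ℤ → ℤ → ℂ) (h : ∀ j k : ℤ, f j k = g j k) :
    flowSS B f = flowSS B g := by
  unfold flowSS
  exact Finset.sum_congr rfl fun j _ => Finset.sum_congr rfl fun k _ => h _ _

theorem flowSS_add (B : ℕ) (f g : ℤ → ℤ → ℂ) :
    flowSS B (fun j k => f j k + g j k) = flowSS B f + flowSS B g := by
  unfold flowSS
  simp only [Finset.sum_add_distrib]

theorem flowSS_sub (B : ℕ) (f g : ℤ → ℤ → ℂ) :
    flowSS B (fun j k => f j k - g j k) = flowSS B f - flowSS B g := by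
  unfold flowSS
  simp only [Finset.sum_sub_distrib]

theorem flowSS_mul (B : ℕ) (c : ℂ) (f : ℤ → ℤ → ℂ) :
    flowSS B (fun j k => c * f j k) = c * flowSS B f := by
  unfold flowSS
  simp only [Finset.mul_sum]

theorem flowSS_sk (B : ℕ) (f : ℤ → ℤ → ℂ) (h0 : ∀ j : ℕ, f j 0 = 0)
    (hb : ∀ j : ℕ, f j B = 0) : flowSS B (fun j k => f j (k + 1)) = flowSS B f := by
  unfold flowSS
  exact Finset.sum_congr rfl fun j _ => flow_shift1 (fun k => f j k) B (h0 j) (hb j)

theorem flowSS_sj (B : ℕ) (f : ℤ → ℤ → ℂ) (h0 : ∀ k : ℕ, f 0 k = 0)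
    (hb : ∀ k : ℕ, f B k = 0) : flowSS B (fun j k => f (j + 1) k) = flowSS B f := by
  unfold flowSS
  rw [Finset.sum_comm, Finset.sum_comm (f := fun (j k : ℕ) => f j k)]
  exact Finset.sum_congr rfl fun k _ => flow_shift1 (fun j => f j k) B (h0 k) (hb k)

theorem flowSS_sk' (B : ℕ) (f : ℤ → ℤ → ℂ) (h0 : ∀ j : ℕ, f j (-1) = 0)
    (hb : ∀ j : ℕ, f j ((B : ℤ) - 1) = 0) :
    flowSS B (fun j k => f j (k - 1)) = flowSS B f := by
  unfold flowSS
  exact Finset.sum_congr rfl fun j _ => flow_shift2 (fun k => f j k) B (h0 j) (hb j)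

theorem flowSS_sj' (B : ℕ) (f : ℤ → ℤ → ℂ) (h0 : ∀ k : ℕ, f (-1) k = 0)
    (hb : ∀ k : ℕ, f ((B : ℤ) - 1) k = 0) :
    flowSS B (fun j k => f (j - 1) k) = flowSS B f := by
  unfold flowSS
  rw [Finset.sum_comm, Finset.sum_comm (f := fun (j k : ℕ) => f j k)]
  exact Finset.sum_congr rfl fun k _ => flow_shift2 (fun j => f j k) B (h0 k) (hb k)

/-- first multiplier -/
noncomputable def flowAl (j k : ℤ) : ℂ := (flowS (k + 1 - j) + flowS (k - j)) / 2

/-- second multiplier -/
noncomputable def flowBe (j k : ℤ) : ℂ := (flowS (k - (j + 1)) + flowS (k - j)) / 2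

theorem flow_pointwise (N : ℂ) (j k : ℤ) (m w x : ℂ) :
    N * (flowC (k - j) * m) =
        flowAl j k * ((k : ℂ) + 1) * w
          + flowAl j (k - 1) * k * w + 4 * (flowAl j (k - 1) * k * m)
          + (1 / 2) * (flowAl j k * x) + (1 / 2) * (flowAl (j + 1) k * x)
          - flowBe j k * ((j : ℂ) + 1) * w
          - flowBe (j - 1) k * j * w - 4 * (flowBe (j - 1) k * j * m)
          - (1 / 2) * (flowBe j k * x) - (1 / 2) * (flowBe j (k + 1) * x)
          - (1 / 2) * flowC (k - j) * w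
          + flowC (k - j) * (N - j - k) * m
          + flowC (k - (j - 1)) * j * m + flowC (k - 1 - j) * k * m := by
  have e1 := flow_c1 (k - j)
  have e2 := flow_c2 (k - j)
  have e3 := flow_c2 (k - j + 1)
  have q1 : k + 1 - j = k - j + 1 := by ring
  have q2 : k - (j + 1) = k - j - 1 := by ring
  have q3 : k - 1 + 1 - j = k - j := by ring
  have q4 : k - 1 - j = k - j - 1 := by ring
  have q5 : k + 1 - (j + 1) = k - j := by ring
  have q6 : k - (j - 1 + 1) = k - j := by ring
  have q7 : k - (j - 1) = k - j + 1 := by ring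
  have q8 : k - j + 1 - 1 = k - j := by ring
  simp only [flowAl, flowBe, q1, q2, q3, q4, q5, q6, q7]
  rw [q8] at e3
  push_cast at e1
  linear_combination (-(1 / 2) * w) * e1 + (k : ℂ) * m * e2 - (j : ℂ) * m * e3

/-- The combinatorial heart: three relations imply that the weighted sum vanishes. -/
theorem flow_comb (N B : ℕ) (hB : N + 3 ≤ B) (m w x : ℤ → ℤ → ℂ)
    (hm3 : ∀ j k, (N : ℤ) < j + k → m j k = 0)
    (hw3 : ∀ j k, (N : ℤ) < j + k → w j k = 0)
    (hx1 : ∀ j k, j < 0 → x j k = 0) (hx2 : ∀ j k, k < 0 → x j k = 0)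
    (hx3 : ∀ j k, (N : ℤ) < j + k → x j k = 0)
    (R1 : ∀ j k : ℤ, ((k : ℂ) + 1) * (w j k + w j (k + 1) + 4 * m j (k + 1))
      + (1 / 2) * (x j k + x (j - 1) k) = 0)
    (R2 : ∀ j k : ℤ, ((j : ℂ) + 1) * (w j k + w (j + 1) k + 4 * m (j + 1) k)
      + (1 / 2) * (x j k + x j (k - 1)) = 0)
    (R3 : ∀ j k : ℤ, w j k = 2 * (((N : ℂ) - j - k) * m j k + ((j : ℂ) + 1) * m (j + 1) k
      + ((k : ℂ) + 1) * m j (k + 1))) :
    (N : ℂ) * flowSS B (fun j k => flowC (k - j) * m j k) = 0 := by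
  have hBN : (N : ℤ) + 3 ≤ B := by exact_mod_cast hB
  have a2 := flowSS_sk B (fun j k => flowAl j (k - 1) * k * w j k) (fun j => by simp)
    (fun j => by simp [hw3 (j : ℤ) (B : ℤ) (by omega)])
  have a3 := flowSS_sk B (fun j k => flowAl j (k - 1) * k * m j k) (fun j => by simp)
    (fun j => by simp [hm3 (j : ℤ) (B : ℤ) (by omega)])
  have a5 := flowSS_sj' B (fun j k => flowAl (j + 1) k * x j k)
    (fun k => by simp [hx1 (-1) (k : ℤ) (by omega)])
    (fun k => by simp [hx3 ((B : ℤ) - 1) (k : ℤ) (by omega)])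
  have b2 := flowSS_sj B (fun j k => flowBe (j - 1) k * j * w j k) (fun j => by simp)
    (fun j => by simp [hw3 (B : ℤ) (j : ℤ) (by omega)])
  have b3 := flowSS_sj B (fun j k => flowBe (j - 1) k * j * m j k) (fun j => by simp)
    (fun j => by simp [hm3 (B : ℤ) (j : ℤ) (by omega)])
  have b5 := flowSS_sk' B (fun j k => flowBe j (k + 1) * x j k)
    (fun k => by simp [hx2 (k : ℤ) (-1) (by omega)])
    (fun k => by simp [hx3 (k : ℤ) ((B : ℤ) - 1) (by omega)])
  have c2 := flowSS_sj B (fun j k => flowC (k - (j - 1)) * j * m j k) (fun j => by simp)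
    (fun j => by simp [hm3 (B : ℤ) (j : ℤ) (by omega)])
  have c3 := flowSS_sk B (fun j k => flowC (k - 1 - j) * k * m j k) (fun j => by simp)
    (fun j => by simp [hm3 (j : ℤ) (B : ℤ) (by omega)])
  have tot : flowSS B (fun j k =>
      flowAl j k * (((k : ℂ) + 1) * (w j k + w j (k + 1) + 4 * m j (k + 1))
        + (1 / 2) * (x j k + x (j - 1) k))
      - flowBe j k * (((j : ℂ) + 1) * (w j k + w (j + 1) k + 4 * m (j + 1) k)
        + (1 / 2) * (x j k + x j (k - 1)))
      - (1 / 2) * flowC (k - j) * (w j k - 2 * (((N : ℂ) - j - k) * m j k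
        + ((j : ℂ) + 1) * m (j + 1) k + ((k : ℂ) + 1) * m j (k + 1)))) = 0 := by
    unfold flowSS
    refine Finset.sum_eq_zero fun j _ => Finset.sum_eq_zero fun k _ => ?_
    beta_reduce
    rw [R1 j k, R2 j k, ← R3 j k]
    ring
  have e1 : flowSS B (fun j k =>
      flowAl j k * (((k : ℂ) + 1) * (w j k + w j (k + 1) + 4 * m j (k + 1))
        + (1 / 2) * (x j k + x (j - 1) k))
      - flowBe j k * (((j : ℂ) + 1) * (w j k + w (j + 1) k + 4 * m (j + 1) k)
        + (1 / 2) * (x j k + x j (k - 1)))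
      - (1 / 2) * flowC (k - j) * (w j k - 2 * (((N : ℂ) - j - k) * m j k
        + ((j : ℂ) + 1) * m (j + 1) k + ((k : ℂ) + 1) * m j (k + 1)))) =
      flowSS B (fun j k => (flowAl j k * ((k : ℂ) + 1) * w j k
          + (1 / 2) * (flowAl j k * x j k)
          - flowBe j k * ((j : ℂ) + 1) * w j k
          - (1 / 2) * (flowBe j k * x j k)
          - (1 / 2) * flowC (k - j) * w j k
          + flowC (k - j) * (N - j - k) * m j k))
      + flowSS B (fun j k => flowAl j (k + 1 - 1) * ((k + 1 : ℤ) : ℂ) * w j (k + 1))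
      + 4 * flowSS B (fun j k => flowAl j (k + 1 - 1) * ((k + 1 : ℤ) : ℂ) * m j (k + 1))
      + (1 / 2) * flowSS B (fun j k => flowAl (j - 1 + 1) k * x (j - 1) k)
      - flowSS B (fun j k => flowBe (j + 1 - 1) k * ((j + 1 : ℤ) : ℂ) * w (j + 1) k)
      - 4 * flowSS B (fun j k => flowBe (j + 1 - 1) k * ((j + 1 : ℤ) : ℂ) * m (j + 1) k)
      - (1 / 2) * flowSS B (fun j k => flowBe j (k - 1 + 1) * x j (k - 1))
      + flowSS B (fun j k => flowC (k - (j + 1 - 1)) * ((j + 1 : ℤ) : ℂ) * m (j + 1) k)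
      + flowSS B (fun j k => flowC (k + 1 - 1 - j) * ((k + 1 : ℤ) : ℂ) * m j (k + 1)) := by
    simp only [← flowSS_add, ← flowSS_sub, ← flowSS_mul]
    refine flowSS_congr _ _ _ fun j k => ?_
    simp only [add_sub_cancel_right, sub_add_cancel]
    push_cast
    ring
  have e2 : (N : ℂ) * flowSS B (fun j k => flowC (k - j) * m j k) =
      flowSS B (fun j k => (flowAl j k * ((k : ℂ) + 1) * w j k
          + (1 / 2) * (flowAl j k * x j k)
          - flowBe j k * ((j : ℂ) + 1) * w j k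
          - (1 / 2) * (flowBe j k * x j k)
          - (1 / 2) * flowC (k - j) * w j k
          + flowC (k - j) * (N - j - k) * m j k))
      + flowSS B (fun j k => flowAl j (k - 1) * k * w j k)
      + 4 * flowSS B (fun j k => flowAl j (k - 1) * k * m j k)
      + (1 / 2) * flowSS B (fun j k => flowAl (j + 1) k * x j k)
      - flowSS B (fun j k => flowBe (j - 1) k * j * w j k)
      - 4 * flowSS B (fun j k => flowBe (j - 1) k * j * m j k)
      - (1 / 2) * flowSS B (fun j k => flowBe j (k + 1) * x j k)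
      + flowSS B (fun j k => flowC (k - (j - 1)) * j * m j k)
      + flowSS B (fun j k => flowC (k - 1 - j) * k * m j k) := by
    simp only [← flowSS_add, ← flowSS_sub, ← flowSS_mul]
    refine flowSS_congr _ _ _ fun j k => ?_
    rw [flow_pointwise (N : ℂ) j k (m j k) (w j k) (x j k)]
    ring
  rw [e2, ← a2, ← a3, ← a5, ← b2, ← b3, ← b5, ← c2, ← c3, ← e1, tot]

/-- product of three divided powers -/
noncomputable def flowM (X p q : A) (i j k : ℤ) : A :=
  flowDp X i * flowDp p j * flowDp q k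

theorem flowM_neg1 (X p q : A) (i j k : ℤ) (h : i < 0) : flowM X p q i j k = 0 := by
  unfold flowM; rw [flowDp_neg X h]; ring

theorem flowM_neg2 (X p q : A) (i j k : ℤ) (h : j < 0) : flowM X p q i j k = 0 := by
  unfold flowM; rw [flowDp_neg p h]; ring

theorem flowM_neg3 (X p q : A) (i j k : ℤ) (h : k < 0) : flowM X p q i j k = 0 := by
  unfold flowM; rw [flowDp_neg q h]; ring

theorem flowM_X (X p q : A) (i j k : ℤ) :
    X * flowM X p q i j k = ((i : ℂ) + 1) • flowM X p q (i + 1) j k := by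
  unfold flowM
  have := flowDp_mul X i
  calc X * (flowDp X i * flowDp p j * flowDp q k)
      = (X * flowDp X i) * (flowDp p j * flowDp q k) := by ring
    _ = _ := by rw [this, smul_mul_assoc]; congr 1; ring

theorem flowM_p (X p q : A) (i j k : ℤ) :
    p * flowM X p q i j k = ((j : ℂ) + 1) • flowM X p q i (j + 1) k := by
  unfold flowM
  have := flowDp_mul p j
  calc p * (flowDp X i * flowDp p j * flowDp q k)
      = (p * flowDp p j) * (flowDp X i * flowDp q k) := by ring
    _ = _ := by rw [this, smul_mul_assoc]; congr 1; ring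

theorem flowM_q (X p q : A) (i j k : ℤ) :
    q * flowM X p q i j k = ((k : ℂ) + 1) • flowM X p q i j (k + 1) := by
  unfold flowM
  have := flowDp_mul q k
  calc q * (flowDp X i * flowDp p j * flowDp q k)
      = (q * flowDp q k) * (flowDp X i * flowDp p j) := by ring
    _ = _ := by rw [this, smul_mul_assoc]; congr 1; ring

theorem flowM_der (D : Derivation ℂ A A) (X p q : A) (i j k : ℤ) :
    D (flowM X p q i j k) = D X * flowM X p q (i - 1) j k + D p * flowM X p q i (j - 1) k
      + D q * flowM X p q i j (k - 1) := by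
  unfold flowM
  rw [Derivation.leibniz, Derivation.leibniz, flowDp_der, flowDp_der, flowDp_der]
  simp only [smul_eq_mul]
  ring

/-- the three relations give the vanishing for every functional killing the images -/
theorem flow_vanish (D D' : Derivation ℂ A A) (T : A →ₗ[ℂ] ℂ)
    (hD : ∀ x, T (D x) = 0) (hD' : ∀ x, T (D' x) = 0)
    (ap am bp bm Wp Wm : A)
    (h1 : D ap = Wp) (h2 : D am = Wm) (h3 : D Wp = 2 * bp) (h4 : D Wm = 2 * bm)
    (h5 : D bp = 0) (h6 : D bm = 0)
    (k1 : D' bp = Wp) (k2 : D' bm = Wm) (k3 : D' Wp = 2 * ap) (k4 : D' Wm = 2 * am)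
    (k5 : D' ap = 0) (k6 : D' am = 0) (h X p q : A) (hh : 2 * h = 1)
    (hX : X = -(h * (am * bp + ap * bm) - h * (Wp * Wm))) (hp : p = h * (am * bp))
    (hq : q = h * (ap * bm)) (N B : ℕ) (hB : N + 3 ≤ B) (hN : 1 ≤ N)
    (hhc : h = algebraMap ℂ A (1 / 2)) :
    flowSS B (fun j k => flowC (k - j) * T (flowM X p q ((N : ℤ) - j - k) j k)) = 0 := by
  have hDh : D h = 0 := by rw [hhc]; exact D.map_algebraMap _
  have hDh' : D' h = 0 := by rw [hhc]; exact D'.map_algebraMap _
  have dp : D p = h * (Wm * bp) := by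
    rw [hp, Derivation.leibniz, Derivation.leibniz, hDh, h2, h5]
    simp only [smul_eq_mul]; ring
  have dq : D q = h * (Wp * bm) := by
    rw [hq, Derivation.leibniz, Derivation.leibniz, hDh, h1, h6]
    simp only [smul_eq_mul]; ring
  have dX : D X = h * (Wm * bp + Wp * bm) := by
    rw [hX]
    simp only [map_neg, map_sub, map_add, Derivation.leibniz, smul_eq_mul, hDh, h1, h2, h3, h4,
      h5, h6]
    ring
  have dp' : D' p = h * (am * Wp) := by
    rw [hp, Derivation.leibniz, Derivation.leibniz, hDh', k1, k6]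
    simp only [smul_eq_mul]; ring
  have dq' : D' q = h * (ap * Wm) := by
    rw [hq, Derivation.leibniz, Derivation.leibniz, hDh', k2, k5]
    simp only [smul_eq_mul]; ring
  have dX' : D' X = h * (am * Wp + ap * Wm) := by
    rw [hX]
    simp only [map_neg, map_sub, map_add, Derivation.leibniz, smul_eq_mul, hDh', k1, k2, k3, k4,
      k5, k6]
    ring
  have Th : ∀ y : A, T (h * y) = (1 / 2) * T y := by
    intro y
    rw [hhc, ← Algebra.smul_def, LinearMap.map_smul, smul_eq_mul]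
  -- relations
  have R1 : ∀ i j k : ℤ, ((k : ℂ) + 1) * (T (Wp * Wm * flowM X p q i j k)
      + T (Wp * Wm * flowM X p q (i - 1) j (k + 1)) + 4 * T (flowM X p q i j (k + 1)))
      + (1 / 2) * (T (ap * bp * Wm ^ 2 * flowM X p q (i - 1) j k)
        + T (ap * bp * Wm ^ 2 * flowM X p q i (j - 1) k)) = 0 := by
    intro i j k
    have e0 := hD (ap * Wm * flowM X p q i j k)
    have q1 := flowM_q X p q i j k
    have q2 := flowM_q X p q (i - 1) j k
    have q3 := flowM_q X p q i j (k - 1)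
    rw [sub_add_cancel] at q3
    push_cast at q3
    rw [sub_add_cancel] at q3
    have e1 : D (ap * Wm * flowM X p q i j k) = Wp * Wm * flowM X p q i j k
        + (2 * 2 : ℂ) • (q * flowM X p q i j k)
        + h * (ap * bp * Wm ^ 2 * flowM X p q (i - 1) j k)
        + Wp * Wm * (q * flowM X p q (i - 1) j k)
        + h * (ap * bp * Wm ^ 2 * flowM X p q i (j - 1) k)
        + Wp * Wm * (q * flowM X p q i j (k - 1)) := by
      rw [Derivation.leibniz, Derivation.leibniz, flowM_der, dp, dq, dX, h1, h4]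
      simp only [smul_eq_mul, Algebra.smul_def]
      have : (algebraMap ℂ A) (2 * 2) = 4 := by
        rw [show (2 * 2 : ℂ) = ((4 : ℕ) : ℂ) by norm_num, map_natCast]; norm_num
      rw [this]
      generalize flowM X p q i j k = M0
      generalize flowM X p q (i - 1) j k = M1
      generalize flowM X p q i (j - 1) k = M2
      generalize flowM X p q i j (k - 1) = M3
      rw [hq]
      linear_combination (-2 * ap * bm * M0) * hh
    rw [e1, q1, q2, q3] at e0
    simp only [map_add, LinearMap.map_smul, smul_eq_mul, Th, mul_smul_comm] at e0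
    linear_combination e0
  have R2 : ∀ i j k : ℤ, ((j : ℂ) + 1) * (T (Wp * Wm * flowM X p q i j k)
      + T (Wp * Wm * flowM X p q (i - 1) (j + 1) k) + 4 * T (flowM X p q i (j + 1) k))
      + (1 / 2) * (T (ap * bp * Wm ^ 2 * flowM X p q (i - 1) j k)
        + T (ap * bp * Wm ^ 2 * flowM X p q i j (k - 1))) = 0 := by
    intro i j k
    have e0 := hD' (bp * Wm * flowM X p q i j k)
    have q1 := flowM_p X p q i j k
    have q2 := flowM_p X p q (i - 1) j k
    have q3 := flowM_p X p q i (j - 1) k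
    rw [sub_add_cancel] at q3
    push_cast at q3
    rw [sub_add_cancel] at q3
    have e1 : D' (bp * Wm * flowM X p q i j k) = Wp * Wm * flowM X p q i j k
        + (2 * 2 : ℂ) • (p * flowM X p q i j k)
        + h * (ap * bp * Wm ^ 2 * flowM X p q (i - 1) j k)
        + Wp * Wm * (p * flowM X p q (i - 1) j k)
        + h * (ap * bp * Wm ^ 2 * flowM X p q i j (k - 1))
        + Wp * Wm * (p * flowM X p q i (j - 1) k) := by
      rw [Derivation.leibniz, Derivation.leibniz, flowM_der, dp', dq', dX', k1, k4]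
      simp only [smul_eq_mul, Algebra.smul_def]
      have : (algebraMap ℂ A) (2 * 2) = 4 := by
        rw [show (2 * 2 : ℂ) = ((4 : ℕ) : ℂ) by norm_num, map_natCast]; norm_num
      rw [this]
      generalize flowM X p q i j k = M0
      generalize flowM X p q (i - 1) j k = M1
      generalize flowM X p q i (j - 1) k = M2
      generalize flowM X p q i j (k - 1) = M3
      rw [hp]
      linear_combination (-2 * am * bp * M0) * hh
    rw [e1, q1, q2, q3] at e0
    simp only [map_add, LinearMap.map_smul, smul_eq_mul, Th, mul_smul_comm] at e0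
    linear_combination e0
  have R3 : ∀ i j k : ℤ, T (Wp * Wm * flowM X p q i j k) =
      2 * (((i : ℂ) + 1) * T (flowM X p q (i + 1) j k) + ((j : ℂ) + 1) * T (flowM X p q i (j + 1) k)
        + ((k : ℂ) + 1) * T (flowM X p q i j (k + 1))) := by
    intro i j k
    have e1 : Wp * Wm * flowM X p q i j k = (2 : ℂ) • (X * flowM X p q i j k
        + p * flowM X p q i j k + q * flowM X p q i j k) := by
      have : (algebraMap ℂ A) 2 = 2 := map_ofNat _ 2
      rw [Algebra.smul_def, this]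
      generalize flowM X p q i j k = M0
      rw [hX, hp, hq]
      linear_combination (-(Wp * Wm * M0)) * hh
    rw [e1, flowM_X, flowM_p, flowM_q]
    simp only [map_add, LinearMap.map_smul, smul_eq_mul]
  have main := flow_comb N B hB (fun j k => T (flowM X p q ((N : ℤ) - j - k) j k))
    (fun j k => T (Wp * Wm * flowM X p q ((N : ℤ) - 1 - j - k) j k))
    (fun j k => T (ap * bp * Wm ^ 2 * flowM X p q ((N : ℤ) - 2 - j - k) j k))
    (fun j k hjk => by
      show T (flowM X p q ((N : ℤ) - j - k) j k) = 0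
      rw [flowM_neg1 _ _ _ _ _ _ (by omega), map_zero])
    (fun j k hjk => by
      show T (Wp * Wm * flowM X p q ((N : ℤ) - 1 - j - k) j k) = 0
      rw [flowM_neg1 _ _ _ _ _ _ (by omega), mul_zero, map_zero])
    (fun j k hjk => by
      show T (ap * bp * Wm ^ 2 * flowM X p q ((N : ℤ) - 2 - j - k) j k) = 0
      rw [flowM_neg2 _ _ _ _ _ _ hjk, mul_zero, map_zero])
    (fun j k hjk => by
      show T (ap * bp * Wm ^ 2 * flowM X p q ((N : ℤ) - 2 - j - k) j k) = 0
      rw [flowM_neg3 _ _ _ _ _ _ hjk, mul_zero, map_zero])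
    (fun j k hjk => by
      show T (ap * bp * Wm ^ 2 * flowM X p q ((N : ℤ) - 2 - j - k) j k) = 0
      rw [flowM_neg1 _ _ _ _ _ _ (by omega), mul_zero, map_zero])
    (fun j k => by
      have := R1 ((N : ℤ) - 1 - j - k) j k
      have q1 : (N : ℤ) - 1 - j - (k + 1) = (N : ℤ) - 1 - j - k - 1 := by ring
      have q2 : (N : ℤ) - j - (k + 1) = (N : ℤ) - 1 - j - k := by ring
      have q3 : (N : ℤ) - 2 - j - k = (N : ℤ) - 1 - j - k - 1 := by ring
      have q4 : (N : ℤ) - 2 - (j - 1) - k = (N : ℤ) - 1 - j - k := by ring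
      simp only [q1, q2, q4, q3]
      exact this)
    (fun j k => by
      have := R2 ((N : ℤ) - 1 - j - k) j k
      have q1 : (N : ℤ) - 1 - (j + 1) - k = (N : ℤ) - 1 - j - k - 1 := by ring
      have q2 : (N : ℤ) - (j + 1) - k = (N : ℤ) - 1 - j - k := by ring
      have q3 : (N : ℤ) - 2 - j - k = (N : ℤ) - 1 - j - k - 1 := by ring
      have q4 : (N : ℤ) - 2 - j - (k - 1) = (N : ℤ) - 1 - j - k := by ring
      simp only [q1, q2, q4, q3]
      exact this)
    (fun j k => by
      have := R3 ((N : ℤ) - 1 - j - k) j k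
      have q1 : (N : ℤ) - (j + 1) - k = (N : ℤ) - 1 - j - k := by ring
      have q2 : (N : ℤ) - j - (k + 1) = (N : ℤ) - 1 - j - k := by ring
      have q3 : (N : ℤ) - 1 - j - k + 1 = (N : ℤ) - j - k := by ring
      rw [q3] at this
      simp only [q1, q2]
      rw [this]
      push_cast
      ring)
  have hN' : (N : ℂ) ≠ 0 := by
    have : (N : ℂ) = ((N : ℕ) : ℂ) := rfl
    exact_mod_cast (show N ≠ 0 by omega)
  exact (mul_eq_zero.mp main).resolve_left hN'

theorem flow_binom (R X : A) (n : ℕ) :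
    ∑ i ∈ Finset.range (n + 1), ((1 : ℂ) / ((n - i)! : ℂ)) • (R ^ (n - i) * flowDp X (i : ℤ))
      = ((1 : ℂ) / (n ! : ℂ)) • (R + X) ^ n := by
  rw [add_comm R X, add_pow, Finset.smul_sum]
  refine Finset.sum_congr rfl fun i hi => ?_
  have hi' : i ≤ n := by simpa [Nat.lt_succ_iff] using hi
  rw [flowDp_nat, mul_smul_comm, smul_smul]
  have e := Nat.choose_mul_factorial_mul_factorial hi'
  have e' : ((n.choose i : ℕ) : ℂ) * (i ! : ℂ) * ((n - i)! : ℂ) = (n ! : ℂ) := by
    exact_mod_cast e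
  have f1 : ((i ! : ℕ) : ℂ) ≠ 0 := by exact_mod_cast Nat.factorial_ne_zero i
  have f2 : (((n - i)! : ℕ) : ℂ) ≠ 0 := by exact_mod_cast Nat.factorial_ne_zero (n - i)
  have f3 : ((n ! : ℕ) : ℂ) ≠ 0 := by exact_mod_cast Nat.factorial_ne_zero n
  have e2 : X ^ i * R ^ (n - i) * ((n.choose i : ℕ) : A)
      = ((n.choose i : ℕ) : ℂ) • (R ^ (n - i) * X ^ i) := by
    rw [Algebra.smul_def, map_natCast]; ring
  rw [e2, smul_smul]
  congr 1
  rw [← e']
  have f4 : ((n.choose i : ℕ) : ℂ) ≠ 0 := by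
    exact_mod_cast (Nat.choose_pos hi').ne'
  field_simp

theorem flow_inner (R X : A) (m s : ℕ) (hs : s ≤ m) (P' : A) :
    ∑ N ∈ Finset.range (m + 1), ((1 : ℂ) / ((m - N)! : ℂ)) •
      (R ^ (m - N) * (flowDp X ((N : ℤ) - s) * P'))
      = (((1 : ℂ) / ((m - s)! : ℂ)) • (R + X) ^ (m - s)) * P' := by
  rw [← flow_binom, Finset.sum_mul, Finset.range_eq_Ico,
    ← Finset.sum_Ico_consecutive _ (Nat.zero_le s) (show s ≤ m + 1 by omega)]
  rw [Finset.sum_eq_zero, zero_add, Finset.sum_Ico_eq_sum_range,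
    show m + 1 - s = m - s + 1 by omega]
  · refine Finset.sum_congr rfl fun i hi => ?_
    rw [show m - (s + i) = m - s - i by omega]
    rw [show (((s + i : ℕ)) : ℤ) - s = (i : ℤ) by push_cast; ring]
    rw [smul_mul_assoc, mul_assoc]
  · intro i hi
    have : i < s := (Finset.mem_Ico.mp hi).2
    rw [flowDp_neg _ (by omega)]
    simp

end FlowAux

/-- **Flow identity.** `D`, `D'` derivations of a commutative algebra, `T` a functional killing
their images; `(ap, Wp, bp)` and `(am, Wm, bm)` two adjoint triples of `sl₂`, `R` invariant.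
With `X = (am bp + ap bm)/2 - Wp Wm/2`, `p = am bp`, `q = ap bm`:
`T(R^m)/m! = ∑_{j+k ≤ m} cf j k/(2^{j+k} j! k! (m-j-k)!) T((R-X)^{m-j-k} p^j q^k)`.

PROOF. For `i, j, k` let `M(i,j,k) = (-X)^i/i! (p/2)^j/j! (q/2)^k/k!` (zero if an index is
negative). Note `D p = Wm bp`, `D q = Wp bm`, `D (Wp Wm) = 2 bp Wm + 2 bm Wp`, so
`D X = -(Wm bp + Wp bm)/2` and
`D M(i,j,k) = (1/2)(Wm bp + Wp bm) M(i-1,j,k) + (1/2) Wm bp M(i,j-1,k) + (1/2) Wp bm M(i,j,k-1)`,
same for `D'` with `D' p = am Wp`, `D' q = ap Wm`, `D' X = -(am Wp + ap Wm)/2`. For every `l` put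
`m(i,j,k) = T(R^l M(i,j,k))`, `w(i,j,k) = T(R^l Wp Wm M(i,j,k))`,
`x(i,j,k) = T(R^l ap bp Wm^2 M(i,j,k))`. Since `D R = 0`, `T(R^l D η) = 0` for all `η`.
`η = ap Wm M(i,j,k)` under `D` and `η = bp Wm M(i,j,k)` under `D'` give
(R1) `(k+1)(w(i,j,k) + w(i-1,j,k+1) + 4 m(i,j,k+1)) + (1/2)(x(i-1,j,k) + x(i,j-1,k)) = 0`
(R2) `(j+1)(w(i,j,k) + w(i-1,j+1,k) + 4 m(i,j+1,k)) + (1/2)(x(i-1,j,k) + x(i,j,k-1)) = 0`
and `X = (p+q)/2 - Wp Wm/2` gives
(R3) `w(i,j,k) = 2((i+1) m(i+1,j,k) + (j+1) m(i,j+1,k) + (k+1) m(i,j,k+1))`.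
Let `d_{jk} = sgn(k-j)/2`, `α_{jk} = (d_{j,k+1}+d_{jk})/2`, `β_{jk} = (d_{j+1,k}+d_{jk})/2`. Then
`∑_{i+j+k=N-1} (α_{jk} R1(i,j,k) - β_{jk} R2(i,j,k)) = N ∑_{i+j+k=N} cf j k m(i,j,k)`
(the coefficient of `w(i,j,k)` is `(k+1)α_{jk}+kα_{j,k-1}-(j+1)β_{jk}-jβ_{j-1,k} = (cf j k)/2`, the
coefficient of `x(i,j,k)` is `(α_{jk}+α_{j+1,k}-β_{jk}-β_{j,k+1})/2 = 0`, the direct coefficient of
`m(i,j,k)` is `4(kα_{j,k-1}-jβ_{j-1,k}) = (j+k) cf j k - j cf (j-1) k - k cf j (k-1)`; now use
(R3)). So `∑_{i+j+k=N} cf j k T(R^l M(i,j,k)) = 0` for all `l` and all `N ≥ 1`. Multiply by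
`1/(m-N)!`, `l = m-N`, sum over `N ≤ m` (for `N = 0` the term is `T(R^m)/m!`) and use the binomial
theorem `∑_{l+i=n} R^l (-X)^i/(l! i!) = (R-X)^n/n!`. -/
theorem flow {A : Type*} [CommRing A] [Algebra ℂ A] (D D' : Derivation ℂ A A) (T : A →ₗ[ℂ] ℂ)
    (hD : ∀ x, T (D x) = 0) (hD' : ∀ x, T (D' x) = 0)
    (R ap am bp bm Wp Wm : A) (hR : D R = 0) (hR' : D' R = 0)
    (h1 : D ap = Wp) (h2 : D am = Wm) (h3 : D Wp = 2 * bp) (h4 : D Wm = 2 * bm)
    (h5 : D bp = 0) (h6 : D bm = 0)
    (k1 : D' bp = Wp) (k2 : D' bm = Wm) (k3 : D' Wp = 2 * ap) (k4 : D' Wm = 2 * am)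
    (k5 : D' ap = 0) (k6 : D' am = 0) (m : ℕ) :
    T (R ^ m) / (m ! : ℂ) =
      ∑ j ∈ Finset.range (m + 1), ∑ k ∈ Finset.range (m + 1 - j),
        ((cf j k : ℕ) : ℂ) / (2 ^ (j + k) * (j ! : ℂ) * (k ! : ℂ) * ((m - j - k)! : ℂ)) *
          T ((R - ((1 / 2 : ℂ) • (am * bp + ap * bm) - (1 / 2 : ℂ) • (Wp * Wm))) ^ (m - j - k)
            * ((am * bp) ^ j * (ap * bm) ^ k)) := by
  set h : A := algebraMap ℂ A (1 / 2) with hh
  have h2h : 2 * h = 1 := by
    have : (2 : A) = algebraMap ℂ A 2 := (map_ofNat _ 2).symm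
    rw [hh, this, ← map_mul]
    norm_num
  set X : A := -(h * (am * bp + ap * bm) - h * (Wp * Wm)) with hX
  set p : A := h * (am * bp) with hp
  set q : A := h * (ap * bm) with hq
  set B := m + 3 with hB
  have hXX : R - ((1 / 2 : ℂ) • (am * bp + ap * bm) - (1 / 2 : ℂ) • (Wp * Wm)) = R + X := by
    rw [hX, Algebra.smul_def, Algebra.smul_def, ← hh]; ring
  rw [hXX]
  -- vanishing
  have van : ∀ N, 1 ≤ N → N ≤ m → flowSS B (fun j k => flowC (k - j) *
      T (R ^ (m - N) * flowM X p q ((N : ℤ) - j - k) j k)) = 0 := by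
    intro N hN hNm
    have hDR : ∀ l : ℕ, D (R ^ l) = 0 := by
      intro l; rw [Derivation.leibniz_pow, hR]; simp
    have hDR' : ∀ l : ℕ, D' (R ^ l) = 0 := by
      intro l; rw [Derivation.leibniz_pow, hR']; simp
    have := flow_vanish D D' (T ∘ₗ LinearMap.mulLeft ℂ (R ^ (m - N)))
      (fun x => by
        have := hD (R ^ (m - N) * x)
        rw [Derivation.leibniz, hDR] at this
        simpa using this)
      (fun x => by
        have := hD' (R ^ (m - N) * x)
        rw [Derivation.leibniz, hDR'] at this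
        simpa using this)
      ap am bp bm Wp Wm h1 h2 h3 h4 h5 h6 k1 k2 k3 k4 k5 k6 h X p q h2h hX hp hq N B
      (by omega) hN hh
    simpa using this
  have lhs : T (R ^ m) / (m ! : ℂ) = ∑ N ∈ Finset.range (m + 1), ((1 : ℂ) / ((m - N)! : ℂ)) *
      flowSS B (fun j k => flowC (k - j) *
        T (R ^ (m - N) * flowM X p q ((N : ℤ) - j - k) j k)) := by
    rw [Finset.sum_eq_single 0]
    · unfold flowSS
      rw [Finset.sum_eq_single 0, Finset.sum_eq_single 0]
      · have : flowM X p q (((0 : ℕ) : ℤ) - ((0 : ℕ) : ℤ) - ((0 : ℕ) : ℤ)) ((0 : ℕ) : ℤ)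
            ((0 : ℕ) : ℤ) = 1 := by
          have e : ∀ a : A, flowDp a 0 = 1 := by
            intro a
            have := flowDp_nat a 0
            simpa using this
          simp [flowM, e]
        beta_reduce
        rw [this]
        have e2 : flowC (((0 : ℕ) : ℤ) - ((0 : ℕ) : ℤ)) = 1 := by simp [flowC]
        rw [e2]
        simp
        ring
      · intro k _ hk
        beta_reduce
        rw [flowM_neg1 _ _ _ _ _ _ (by omega)]
        simp
      · intro hk; exact absurd (Finset.mem_range.mpr (by omega)) hk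
      · intro j _ hj
        refine Finset.sum_eq_zero fun k _ => ?_
        beta_reduce
        rw [flowM_neg1 _ _ _ _ _ _ (by omega)]
        simp
      · intro hk; exact absurd (Finset.mem_range.mpr (by omega)) hk
    · intro N hN hN0
      rw [van N (by omega) (by have := Finset.mem_range.mp hN; omega), mul_zero]
    · intro hk; exact absurd (Finset.mem_range.mpr (by omega)) hk
  rw [lhs]
  have swap : ∑ N ∈ Finset.range (m + 1), ((1 : ℂ) / ((m - N)! : ℂ)) *
      flowSS B (fun j k => flowC (k - j) *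
        T (R ^ (m - N) * flowM X p q ((N : ℤ) - j - k) j k)) =
      ∑ j ∈ Finset.range B, ∑ k ∈ Finset.range B, flowC ((k : ℤ) - j) *
        T (∑ N ∈ Finset.range (m + 1), ((1 : ℂ) / ((m - N)! : ℂ)) •
          (R ^ (m - N) * flowM X p q ((N : ℤ) - j - k) j k)) := by
    unfold flowSS
    simp only [Finset.mul_sum, map_sum, LinearMap.map_smul, smul_eq_mul]
    rw [Finset.sum_comm]
    refine Finset.sum_congr rfl fun j _ => ?_
    rw [Finset.sum_comm]
    refine Finset.sum_congr rfl fun k _ => Finset.sum_congr rfl fun N _ => ?_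
    ring
  rw [swap]
  have inner : ∀ j k : ℕ, j + k ≤ m → ∑ N ∈ Finset.range (m + 1), ((1 : ℂ) / ((m - N)! : ℂ)) •
          (R ^ (m - N) * flowM X p q ((N : ℤ) - j - k) j k) =
        ((1 : ℂ) / (2 ^ (j + k) * (j ! : ℂ) * (k ! : ℂ) * ((m - j - k)! : ℂ))) •
          ((R + X) ^ (m - j - k) * ((am * bp) ^ j * (ap * bm) ^ k)) := by
    intro j k hjk
    have e := flow_inner R X m (j + k) hjk (flowDp p j * flowDp q k)
    have e2 : ∀ N : ℕ, flowM X p q ((N : ℤ) - j - k) j k =
        flowDp X ((N : ℤ) - ((j + k : ℕ) : ℤ)) * (flowDp p j * flowDp q k) := by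
      intro N
      unfold flowM
      rw [show (N : ℤ) - j - k = (N : ℤ) - ((j + k : ℕ) : ℤ) by push_cast; ring, mul_assoc]
    simp only [e2]
    have eh : ∀ (y : A) (n : ℕ), (algebraMap ℂ A (1 / 2) * y) ^ n = ((1 / 2 : ℂ) ^ n) • y ^ n := by
      intro y n
      rw [mul_pow, ← map_pow, ← Algebra.smul_def]
    rw [e, flowDp_nat, flowDp_nat, show m - (j + k) = m - j - k by omega, hp, hq, hh, eh, eh]
    simp only [smul_mul_smul_comm, smul_smul]
    congr 1
    have f1 : ((j ! : ℕ) : ℂ) ≠ 0 := by exact_mod_cast Nat.factorial_ne_zero j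
    have f2 : ((k ! : ℕ) : ℂ) ≠ 0 := by exact_mod_cast Nat.factorial_ne_zero k
    have f3 : (((m - j - k)! : ℕ) : ℂ) ≠ 0 := by exact_mod_cast Nat.factorial_ne_zero _
    rw [div_pow, div_pow, pow_add]
    field_simp
    simp
  have outer : ∀ j k : ℕ, m < j + k → ∑ N ∈ Finset.range (m + 1), ((1 : ℂ) / ((m - N)! : ℂ)) •
          (R ^ (m - N) * flowM X p q ((N : ℤ) - j - k) j k) = 0 := by
    intro j k hjk
    refine Finset.sum_eq_zero fun N hN => ?_
    have := Finset.mem_range.mp hN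
    rw [flowM_neg1 _ _ _ _ _ _ (by omega)]
    simp
  have hcf : ∀ j k : ℕ, flowC ((k : ℤ) - j) = ((cf j k : ℕ) : ℂ) := by
    intro j k
    unfold flowC cf
    rcases lt_trichotomy j k with h | h | h
    · rw [if_neg (by omega), if_neg (by omega), max_eq_right h.le, min_eq_left h.le,
        abs_of_pos (by omega)]
      push_cast [Nat.cast_sub h.le]
      ring
    · subst h; simp
    · rw [if_neg (by omega), if_neg (by omega), max_eq_left h.le, min_eq_right h.le,
        abs_of_neg (by omega)]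
      push_cast [Nat.cast_sub h.le]
      ring
  have hF : ∀ j k : ℕ, flowC ((k : ℤ) - j) *
        T (∑ N ∈ Finset.range (m + 1), ((1 : ℂ) / ((m - N)! : ℂ)) •
          (R ^ (m - N) * flowM X p q ((N : ℤ) - j - k) j k)) =
      if j + k ≤ m then ((cf j k : ℕ) : ℂ) /
        (2 ^ (j + k) * (j ! : ℂ) * (k ! : ℂ) * ((m - j - k)! : ℂ)) *
          T ((R + X) ^ (m - j - k) * ((am * bp) ^ j * (ap * bm) ^ k)) else 0 := by
    intro j k
    split_ifs with hjk
    · rw [inner j k hjk, hcf, LinearMap.map_smul, smul_eq_mul]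
      ring
    · rw [outer j k (by omega), map_zero, mul_zero]
  simp only [hF]
  have h1' : ∀ j ∈ Finset.range B, ∑ k ∈ Finset.range B, (if j + k ≤ m then ((cf j k : ℕ) : ℂ) /
        (2 ^ (j + k) * (j ! : ℂ) * (k ! : ℂ) * ((m - j - k)! : ℂ)) *
          T ((R + X) ^ (m - j - k) * ((am * bp) ^ j * (ap * bm) ^ k)) else 0) =
      ∑ k ∈ Finset.range (m + 1 - j), ((cf j k : ℕ) : ℂ) /
        (2 ^ (j + k) * (j ! : ℂ) * (k ! : ℂ) * ((m - j - k)! : ℂ)) *
          T ((R + X) ^ (m - j - k) * ((am * bp) ^ j * (ap * bm) ^ k)) := by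
    intro j _
    rw [← Finset.sum_filter]
    congr 1
    ext k
    simp only [Finset.mem_filter, Finset.mem_range]
    omega
  rw [Finset.sum_congr rfl h1']
  symm
  refine Finset.sum_subset ?_ ?_
  · intro j hj
    have := Finset.mem_range.mp hj
    exact Finset.mem_range.mpr (by omega)
  · intro j _ hj
    have : m + 1 - j = 0 := by
      have : ¬ j < m + 1 := fun h' => hj (Finset.mem_range.mpr h')
      omega
    rw [this]
    simp

end Pool.TwoForms
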