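import Pool.Agent.Lib.MP_4a593f_gt.TF.Det

/-!
The Gauss-Bonnet integrand as a top coefficient.
-/

namespace Pool.TwoForms

open scoped BigOperators

/-- expansion of a power of a sum in a noncommutative semiring -/
private theorem gbt_pow {A Z : Type} [Semiring A] [Fintype Z] (f : Z → A) (m : ℕ) :
    (∑ z, f z) ^ m = ∑ h : Fin m → Z, (List.ofFn fun t => f (h t)).prod := by
  induction m with
  | zero => simp
  | succ m ih =>
    rw [pow_succ', ih, Finset.sum_mul_sum, ← Finset.sum_product']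
    refine Fintype.sum_equiv (Fin.consEquiv fun _ => Z) _ _ ?_
    rintro ⟨z, h⟩
    simp [Fin.consEquiv, List.ofFn_succ]

/-- scalars come out of a list product -/
private theorem gbt_smul {A : Type} [Semiring A] [Algebra ℂ A] (m : ℕ) (r : Fin m → ℂ)
    (f : Fin m → A) :
    (List.ofFn fun t => r t • f t).prod = (∏ t, r t) • (List.ofFn f).prod := by
  induction m with
  | zero => simp
  | succ m ih =>
    rw [List.ofFn_succ, List.prod_cons, ih (fun t => r t.succ) (fun t => f t.succ),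
      List.ofFn_succ, List.prod_cons, Fin.prod_univ_succ, smul_mul_smul_comm]

/-- separation of the two copies -/
private theorem gbt_sep {n : ℕ} (m : ℕ) (p q : Fin m → Fin n × Fin n) :
    (List.ofFn fun t => (inc₁ n (e (p t).1 * e (p t).2) * inc₂ n (e (q t).1 * e (q t).2))).prod
      = inc₁ n (List.ofFn fun t => (e (p t).1 * e (p t).2 : G (Fin n))).prod
        * inc₂ n (List.ofFn fun t => (e (q t).1 * e (q t).2 : G (Fin n))).prod := by
  induction m with
  | zero => simp
  | succ m ih =>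
    rw [List.ofFn_succ, List.prod_cons, ih (fun t => p t.succ) (fun t => q t.succ),
      List.ofFn_succ, List.prod_cons, List.ofFn_succ, List.prod_cons, map_mul (inc₁ n) (e _ * e _),
      map_mul (inc₂ n) (e _ * e _)]
    have h : ∀ x : GG n, inc₂ n (e (q 0).1 * e (q 0).2) * x = x * inc₂ n (e (q 0).1 * e (q 0).2) := by
      intro x
      rw [map_mul, inc₂_e, inc₂_e, ee_comm]
    rw [mul_assoc, ← mul_assoc (inc₂ n (e (q 0).1 * e (q 0).2)), h]
    simp only [mul_assoc]

/-- pairs -/
private theorem gbt_pairs {A : Type} [Monoid A] (m : ℕ) (f : Fin (2 * m) → A) :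
    (List.ofFn f).prod = (List.ofFn fun t : Fin m => f (lo t) * f (hi t)).prod := by
  rw [List.ofFn_mul', List.prod_flatten, List.map_ofFn]
  congr 1
  congr 1
  funext t
  simp only [Function.comp, List.ofFn_succ, List.ofFn_zero, List.prod_cons, List.prod_nil, mul_one]
  rfl

/-- merge of pairs -/
private def gbt_h {n m : ℕ} (p : Fin m → Fin n × Fin n) : Fin (2 * m) → Fin n := fun s =>
  if s.1 % 2 = 0 then (p ⟨s.1 / 2, by omega⟩).1 else (p ⟨s.1 / 2, by omega⟩).2

private theorem gbt_h_lo {n m : ℕ} (p : Fin m → Fin n × Fin n) (t : Fin m) :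
    gbt_h p (lo t) = (p t).1 := by
  unfold gbt_h lo
  have h : (2 * t.1) % 2 = 0 := by omega
  have h2 : (2 * t.1) / 2 = t.1 := by omega
  simp only [h, if_true, h2]

private theorem gbt_h_hi {n m : ℕ} (p : Fin m → Fin n × Fin n) (t : Fin m) :
    gbt_h p (hi t) = (p t).2 := by
  unfold gbt_h hi
  have h : ¬ (2 * t.1 + 1) % 2 = 0 := by omega
  have h2 : (2 * t.1 + 1) / 2 = t.1 := by omega
  simp only [h, if_false, h2]

private theorem gbt_T1 (m : ℕ) (p : Fin m → Fin (2 * m) × Fin (2 * m)) :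
    T1 (2 * m) (List.ofFn fun t => (e (p t).1 * e (p t).2 : G (Fin (2 * m)))).prod
      = ∑ σ : Equiv.Perm (Fin (2 * m)), ((Equiv.Perm.sign σ : ℤ) : ℂ) *
          (if p = (fun t => (σ (lo t), σ (hi t))) then (1 : ℂ) else 0) := by
  have h1 : (List.ofFn fun t => (e (p t).1 * e (p t).2 : G (Fin (2 * m)))).prod
      = (List.ofFn fun s => (e (gbt_h p s) : G (Fin (2 * m)))).prod := by
    rw [gbt_pairs m (fun s => (e (gbt_h p s) : G (Fin (2 * m))))]
    simp only [gbt_h_lo, gbt_h_hi]
  rw [h1, T1_prod]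
  refine Finset.sum_congr rfl fun σ _ => ?_
  congr 1
  rw [← List.prod_ofFn, gbt_pairs, List.prod_ofFn]
  simp only [gbt_h_lo, gbt_h_hi]
  by_cases h : p = (fun t => (σ (lo t), σ (hi t)))
  · rw [if_pos h]
    refine Finset.prod_eq_one fun t _ => ?_
    have h2 : p t = (σ (lo t), σ (hi t)) := congrFun h t
    rw [h2]
    simp
  · rw [if_neg h]
    obtain ⟨t, ht⟩ : ∃ t, p t ≠ (σ (lo t), σ (hi t)) := by
      by_contra hc
      push Not at hc
      exact h (funext hc)
    refine Finset.prod_eq_zero (Finset.mem_univ t) ?_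
    by_cases h3 : (p t).1 = σ (lo t)
    · have h4 : (p t).2 ≠ σ (hi t) := fun h4 => ht (Prod.ext h3 h4)
      rw [if_neg h4, mul_zero]
    · rw [if_neg h3, zero_mul]

private theorem gbt_rr {n : ℕ} (R : Ten n) :
    rr R = (1 / 4 : ℂ) • ∑ z : (Fin n × Fin n) × (Fin n × Fin n),
      ((R z.1.1 z.1.2 z.2.1 z.2.2 : ℝ) : ℂ) •
        (inc₁ n (e z.1.1 * e z.1.2) * inc₂ n (e z.2.1 * e z.2.2)) := by
  unfold rr
  congr 1
  rw [Fintype.sum_prod_type, Fintype.sum_prod_type]
  refine Finset.sum_congr rfl fun i _ => Finset.sum_congr rfl fun j _ => ?_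
  rw [Fintype.sum_prod_type]
  refine Finset.sum_congr rfl fun k _ => Finset.sum_congr rfl fun l _ => ?_
  simp only [map_mul, inc₁_e, inc₂_e]

private theorem gbt_mem {n m : ℕ} (p : Fin m → Fin n × Fin n) :
    (List.ofFn fun t => (e (p t).1 * e (p t).2 : G (Fin n))).prod ∈ Ev n := by
  refine Subalgebra.list_prod_mem _ fun x hx => ?_
  rw [List.mem_ofFn] at hx
  obtain ⟨t, rfl⟩ := hx
  exact Algebra.subset_adjoin ⟨p t, rfl⟩

/-- **Gauss-Bonnet integrand as a top coefficient.** PROOF. Expand the power: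
`rr R ^ m = (1/4)^m ∑ over h, h' : Fin m → (Fin (2m))^2 of ∏_t R(h t, h' t) ∏_t (e e)(e' e')`; the
even factors commute, so the product is `inc₁ (∏_t e e) * inc₂ (∏_t e e)`, and `TT_mul`, `T1_prod`
turn it into a double sum over permutations with indicator functions. The product over
`Fin (2 m)` of single vectors is the product over `Fin m` of pairs `e (h (lo t)) * e (h (hi t))`
(induction on `m`, `List.ofFn_succ` twice); similarly for `∏_s (if h s = σ s ..)`. -/
theorem TT_rr_pow (m : ℕ) (R : Ten (2 * m)) :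
    TT (2 * m) (rr R ^ m) = (1 / 4 : ℂ) ^ m * ((gb m R : ℝ) : ℂ) := by
  rw [gbt_rr, smul_pow, map_smul, smul_eq_mul]
  congr 1
  rw [gbt_pow, map_sum]
  have h1 : ∀ h : Fin m → (Fin (2 * m) × Fin (2 * m)) × (Fin (2 * m) × Fin (2 * m)),
      TT (2 * m) (List.ofFn fun t => ((R (h t).1.1 (h t).1.2 (h t).2.1 (h t).2.2 : ℝ) : ℂ) •
        (inc₁ (2 * m) (e (h t).1.1 * e (h t).1.2)
          * inc₂ (2 * m) (e (h t).2.1 * e (h t).2.2))).prod
      = ∑ σ : Equiv.Perm (Fin (2 * m)), ∑ τ : Equiv.Perm (Fin (2 * m)),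
        (if h = (fun t => ((σ (lo t), σ (hi t)), (τ (lo t), τ (hi t)))) then
          ((Equiv.Perm.sign σ : ℤ) : ℂ) * ((Equiv.Perm.sign τ : ℤ) : ℂ) *
            ∏ i : Fin m, ((R (σ (lo i)) (σ (hi i)) (τ (lo i)) (τ (hi i)) : ℝ) : ℂ) else 0) := by
    intro h
    rw [gbt_smul, map_smul, gbt_sep m (fun t => (h t).1) (fun t => (h t).2),
      TT_mul _ _ (gbt_mem _), gbt_T1, gbt_T1, Finset.sum_mul_sum, smul_eq_mul, Finset.mul_sum]
    refine Finset.sum_congr rfl fun σ _ => ?_
    rw [Finset.mul_sum]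
    refine Finset.sum_congr rfl fun τ _ => ?_
    by_cases hh : h = (fun t => ((σ (lo t), σ (hi t)), (τ (lo t), τ (hi t))))
    · rw [if_pos hh]
      subst hh
      simp only [if_true]
      ring
    · rw [if_neg hh]
      by_cases ha : (fun t => (h t).1) = (fun t => (σ (lo t), σ (hi t)))
      · by_cases hb : (fun t => (h t).2) = (fun t => (τ (lo t), τ (hi t)))
        · exact absurd (funext fun t => Prod.ext (congrFun ha t) (congrFun hb t)) hh
        · rw [if_neg hb]; ring
      · rw [if_neg ha]; ring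
  rw [Finset.sum_congr rfl fun h _ => h1 h, Finset.sum_comm]
  unfold gb
  push_cast
  refine Finset.sum_congr rfl fun σ _ => ?_
  rw [Finset.sum_comm]
  refine Finset.sum_congr rfl fun τ _ => ?_
  rw [Finset.sum_ite_eq' Finset.univ, if_pos (Finset.mem_univ _)]

end Pool.TwoForms
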