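import Pool.Agent.Lib.MP_4a593f_gt.TF.Ext

/-!
The exterior algebra on two copies of `ℂ^n`: forms, the tensor element, the two derivations and the
top coefficient functional.
-/

namespace Pool.TwoForms

open scoped BigOperators

variable {n : ℕ}

/-- exterior algebra on two copies of `ℂ^n` -/
abbrev GG (n : ℕ) := G (Fin n ⊕ Fin n)

/-- complex skew arrays -/
def SkewC (A : Fin n → Fin n → ℂ) : Prop := ∀ i j, A j i = - A i j

/-- `A(ψ)` -/
noncomputable def fa (A : Fin n → Fin n → ℂ) : GG n :=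
  (1 / 2 : ℂ) • ∑ i, ∑ j, A i j • (e (Sum.inl i) * e (Sum.inl j))

/-- `A(ψ')` -/
noncomputable def fb (A : Fin n → Fin n → ℂ) : GG n :=
  (1 / 2 : ℂ) • ∑ i, ∑ j, A i j • (e (Sum.inr i) * e (Sum.inr j))

/-- `A(ψ,ψ')` -/
noncomputable def fw (A : Fin n → Fin n → ℂ) : GG n :=
  ∑ i, ∑ j, A i j • (e (Sum.inl i) * e (Sum.inr j))

/-- the element of a 4-tensor -/
noncomputable def rr (R : Ten n) : GG n :=
  (1 / 4 : ℂ) • ∑ i, ∑ j, ∑ k, ∑ l, (R i j k l : ℂ) •
    ((e (Sum.inl i) * e (Sum.inl j)) * (e (Sum.inr k) * e (Sum.inr l)))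

/-- raising derivation `ψ ↦ ψ'` -/
noncomputable def DD (n : ℕ) : GG n →ₗ[ℂ] GG n :=
  ∑ i : Fin n, (LinearMap.mulLeft ℂ (e (Sum.inr i))).comp (c (Sum.inl i))

/-- lowering derivation `ψ' ↦ ψ` -/
noncomputable def DD' (n : ℕ) : GG n →ₗ[ℂ] GG n :=
  ∑ i : Fin n, (LinearMap.mulLeft ℂ (e (Sum.inl i))).comp (c (Sum.inr i))

/-- top coefficient on two copies -/
noncomputable def TT (n : ℕ) : GG n →ₗ[ℂ] ℂ :=
  clint ((List.finRange n).map Sum.inr ++ (List.finRange n).map Sum.inl)

/-- top coefficient on one copy -/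
noncomputable def T1 (n : ℕ) : G (Fin n) →ₗ[ℂ] ℂ := clint (List.finRange n)

section der

variable {I : Type} [DecidableEq I]

/-- the elementary derivation `e k ∧ (contraction with i)` -/
noncomputable def der (i k : I) : G I →ₗ[ℂ] G I := (LinearMap.mulLeft ℂ (e k)).comp (c i)

theorem der_apply (i k : I) (x : G I) : der i k x = e k * c i x := rfl

theorem der_mul (i k : I) (x y : G I) : der i k (x * y) = der i k x * y + x * der i k y := by
  induction x using ExteriorAlgebra.induction generalizing y with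
  | algebraMap r =>
    have h1 : der i k (algebraMap ℂ (G I) r) = 0 := by
      rw [der_apply, Algebra.algebraMap_eq_smul_one, map_smul, c_one, smul_zero, mul_zero]
    rw [h1, zero_mul, zero_add, ← Algebra.smul_def, ← Algebra.smul_def, map_smul]
  | ι v =>
    have h1 : c i (ExteriorAlgebra.ι ℂ v : G I) = algebraMap ℂ (G I) (v i) := by
      have := c_ι_mul i v (1 : G I)
      rw [mul_one, c_one, mul_zero, sub_zero] at this
      rw [this, Algebra.algebraMap_eq_smul_one]
    rw [der_apply, der_apply, der_apply, c_ι_mul, h1, mul_sub, mul_smul_comm,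
      ← Algebra.commutes, ← Algebra.smul_def, smul_mul_assoc, ← mul_assoc]
    have h2 : e k * ExteriorAlgebra.ι ℂ v = - (ExteriorAlgebra.ι ℂ v * e k : G I) := by
      unfold e; exact ι_anti _ _
    rw [h2, neg_mul, sub_neg_eq_add, mul_assoc]
  | mul x₁ x₂ h₁ h₂ =>
    rw [mul_assoc, h₁, h₂, h₁ x₂]
    noncomm_ring
  | add x₁ x₂ h₁ h₂ =>
    rw [add_mul, map_add, h₁, h₂, map_add]
    noncomm_ring

theorem der_e (i k j : I) : der i k (e j : G I) = if i = j then e k else 0 := by
  have := c_e_mul i j (1 : G I)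
  rw [mul_one, c_one, mul_zero, sub_zero] at this
  rw [der_apply, this]
  split_ifs <;> simp

theorem der_eq_neg (i k : I) (h : i ≠ k) (x : G I) : der i k x = - c i (e k * x) := by
  rw [der_apply, c_e_mul, if_neg h, zero_sub, neg_neg]

theorem cl_c_mem (L : List I) (i : I) (hi : i ∈ L) (x : G I) : cl L (c i x) = 0 := by
  induction L generalizing x with
  | nil => simp at hi
  | cons j L ih =>
    change cl L (c j (c i x)) = 0
    by_cases h : i = j
    · subst h; rw [c_c, map_zero]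
    · rw [c_comm, map_neg, ih ((List.mem_cons.1 hi).resolve_left h), neg_zero]

theorem clint_c_mem (L : List I) (i : I) (hi : i ∈ L) (x : G I) : clint L (c i x) = 0 := by
  unfold clint
  rw [LinearMap.comp_apply, cl_c_mem L i hi, map_zero]

end der

theorem DD_eq (x : GG n) : DD n x = ∑ i : Fin n, der (Sum.inl i) (Sum.inr i) x := by
  unfold DD der
  rw [LinearMap.sum_apply]

theorem DD'_eq (x : GG n) : DD' n x = ∑ i : Fin n, der (Sum.inr i) (Sum.inl i) x := by
  unfold DD' der
  rw [LinearMap.sum_apply]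

theorem DD_mul (x y : GG n) : DD n (x * y) = DD n x * y + x * DD n y := by
  simp only [DD_eq, der_mul, Finset.sum_add_distrib, Finset.sum_mul, Finset.mul_sum]

theorem DD'_mul (x y : GG n) : DD' n (x * y) = DD' n x * y + x * DD' n y := by
  simp only [DD'_eq, der_mul, Finset.sum_add_distrib, Finset.sum_mul, Finset.mul_sum]

theorem mem_full (s : Fin n ⊕ Fin n) :
    s ∈ (List.finRange n).map Sum.inr ++ (List.finRange n).map (Sum.inl : Fin n → Fin n ⊕ Fin n) := by
  cases s <;> simp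

theorem TT_DD (x : GG n) : TT n (DD n x) = 0 := by
  rw [DD_eq, map_sum]
  refine Finset.sum_eq_zero fun i _ => ?_
  rw [der_eq_neg _ _ (by simp), map_neg]
  unfold TT
  rw [clint_c_mem _ _ (mem_full _), neg_zero]

theorem TT_DD' (x : GG n) : TT n (DD' n x) = 0 := by
  rw [DD'_eq, map_sum]
  refine Finset.sum_eq_zero fun i _ => ?_
  rw [der_eq_neg _ _ (by simp), map_neg]
  unfold TT
  rw [clint_c_mem _ _ (mem_full _), neg_zero]

theorem DD_el (i : Fin n) : DD n (e (Sum.inl i)) = e (Sum.inr i) := by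
  rw [DD_eq]
  simp only [der_e, Sum.inl.injEq]
  simp

theorem DD_er (i : Fin n) : DD n (e (Sum.inr i)) = 0 := by
  rw [DD_eq]
  simp [der_e]

theorem DD'_el (i : Fin n) : DD' n (e (Sum.inl i)) = 0 := by
  rw [DD'_eq]
  simp [der_e]

theorem DD'_er (i : Fin n) : DD' n (e (Sum.inr i)) = e (Sum.inl i) := by
  rw [DD'_eq]
  simp only [der_e, Sum.inr.injEq]
  simp

theorem DD_fa {A : Fin n → Fin n → ℂ} (hA : SkewC A) : DD n (fa A) = fw A := by
  unfold fa fw
  simp only [map_smul, map_sum, DD_mul, DD_el, smul_add, Finset.sum_add_distrib]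
  have h : ∑ i : Fin n, ∑ j : Fin n, A i j • (e (Sum.inr i) * e (Sum.inl j) : GG n)
      = ∑ i : Fin n, ∑ j : Fin n, A i j • (e (Sum.inl i) * e (Sum.inr j) : GG n) := by
    rw [Finset.sum_comm]
    refine Finset.sum_congr rfl fun i _ => Finset.sum_congr rfl fun j _ => ?_
    rw [e_anti, hA i j, smul_neg, neg_smul, neg_neg]
  rw [h, ← add_smul]
  norm_num

theorem DD_fw (A : Fin n → Fin n → ℂ) : DD n (fw A) = 2 * fb A := by
  unfold fb fw
  simp only [map_smul, map_sum, DD_mul, DD_el, DD_er, mul_zero, add_zero]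
  rw [two_mul, ← add_smul]
  norm_num

theorem DD_fb (A : Fin n → Fin n → ℂ) : DD n (fb A) = 0 := by
  unfold fb
  simp only [map_smul, map_sum, DD_mul, DD_er, mul_zero, zero_mul, add_zero, smul_zero,
    Finset.sum_const_zero]

theorem DD'_fb {A : Fin n → Fin n → ℂ} (hA : SkewC A) : DD' n (fb A) = fw A := by
  unfold fb fw
  simp only [map_smul, map_sum, DD'_mul, DD'_er, smul_add, Finset.sum_add_distrib]
  have h : ∑ i : Fin n, ∑ j : Fin n, A i j • (e (Sum.inr i) * e (Sum.inl j) : GG n)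
      = ∑ i : Fin n, ∑ j : Fin n, A i j • (e (Sum.inl i) * e (Sum.inr j) : GG n) := by
    rw [Finset.sum_comm]
    refine Finset.sum_congr rfl fun i _ => Finset.sum_congr rfl fun j _ => ?_
    rw [e_anti, hA i j, smul_neg, neg_smul, neg_neg]
  rw [h, ← add_smul]
  norm_num

theorem DD'_fw (A : Fin n → Fin n → ℂ) : DD' n (fw A) = 2 * fa A := by
  unfold fa fw
  simp only [map_smul, map_sum, DD'_mul, DD'_el, DD'_er, zero_mul, zero_add]
  rw [two_mul, ← add_smul]
  norm_num

theorem DD'_fa (A : Fin n → Fin n → ℂ) : DD' n (fa A) = 0 := by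
  unfold fa
  simp only [map_smul, map_sum, DD'_mul, DD'_el, mul_zero, zero_mul, add_zero, smul_zero,
    Finset.sum_const_zero]

/-- cyclic invariance of products of three vectors -/
theorem e_cyc {I : Type} [DecidableEq I] (i j k : I) :
    (e i * (e j * e k) : G I) = e j * (e k * e i) := by
  rw [← mul_assoc (e j) (e k) (e i), ee_comm j k (e i)]

theorem sum_cyc_zero (f : Fin n → Fin n → Fin n → ℂ) (g : Fin n → Fin n → Fin n → GG n)
    (hf : ∀ i j k, f i j k + f j k i + f k i j = 0) (hg : ∀ i j k, g i j k = g j k i) :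
    ∑ i, ∑ j, ∑ k, f i j k • g i j k = 0 := by
  have h1 : ∑ i, ∑ j, ∑ k, f i j k • g i j k = ∑ i, ∑ j, ∑ k, f j k i • g i j k := by
    calc ∑ i, ∑ j, ∑ k, f i j k • g i j k
        = ∑ j, ∑ k, ∑ i, f i j k • g i j k := by
          rw [Finset.sum_comm]
          exact Finset.sum_congr rfl fun j _ => Finset.sum_comm
      _ = ∑ i, ∑ j, ∑ k, f k i j • g k i j := rfl
      _ = ∑ j, ∑ k, ∑ i, f k i j • g k i j := by
          rw [Finset.sum_comm]
          exact Finset.sum_congr rfl fun j _ => Finset.sum_comm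
      _ = ∑ i, ∑ j, ∑ k, f j k i • g j k i := rfl
      _ = ∑ i, ∑ j, ∑ k, f j k i • g i j k := by simp only [← hg]
  have h2 : ∑ i, ∑ j, ∑ k, f i j k • g i j k = ∑ i, ∑ j, ∑ k, f k i j • g i j k := by
    calc ∑ i, ∑ j, ∑ k, f i j k • g i j k
        = ∑ j, ∑ k, ∑ i, f i j k • g i j k := by
          rw [Finset.sum_comm]
          exact Finset.sum_congr rfl fun j _ => Finset.sum_comm
      _ = ∑ i, ∑ j, ∑ k, f k i j • g k i j := rfl
      _ = ∑ i, ∑ j, ∑ k, f k i j • g i j k := by simp only [hg]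
  have h3 : (3 : ℂ) • ∑ i, ∑ j, ∑ k, f i j k • g i j k = 0 := by
    have : (3 : ℂ) • ∑ i, ∑ j, ∑ k, f i j k • g i j k
        = ∑ i, ∑ j, ∑ k, f i j k • g i j k + ∑ i, ∑ j, ∑ k, f j k i • g i j k
          + ∑ i, ∑ j, ∑ k, f k i j • g i j k := by
      rw [← h1, ← h2]
      have h0 : (3 : ℂ) = 1 + 1 + 1 := by norm_num
      rw [h0, add_smul, add_smul, one_smul]
    rw [this]
    simp only [← Finset.sum_add_distrib, ← add_smul, hf, zero_smul, Finset.sum_const_zero]
  exact (smul_eq_zero.1 h3).resolve_left (by norm_num)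

theorem bianchi₂ {R : Ten n} (hR : IsCurvature R) (i j k l : Fin n) :
    R i j k l + R i k l j + R i l j k = 0 := by
  have L := hR.skew_left
  have Q := hR.skew_right
  have hp : ∀ i j k l, R k l i j = R i j k l := by
    intro i j k l
    linarith [hR.bianchi i j k l, hR.bianchi j k l i, hR.bianchi k l i j, hR.bianchi l i j k,
      L i j k l, L i j l k, L j k i l, L j k l i, L k i j l, L k i l j, L k l i j, L k l j i,
      L l i j k, L l i k j, L j l i k, L j l k i,
      Q i j k l, Q j i k l, Q j k i l, Q k j i l, Q k i j l, Q i k j l, Q k l i j, Q l k i j,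
      Q l i j k, Q i l j k, Q j l i k, Q l j i k]
  have h := hR.bianchi j k l i
  rw [hp l i j k, hp j i k l, hp k i l j] at h
  have h1 := Q i j k l
  have h2 := Q i j l k
  linarith [hR.bianchi j k l i, hp i j k l, hp i k l j, hp i l j k, Q k l i j, Q l j i k, Q j k i l,
    L k l i j, L l j i k, L j k i l]

theorem DD_rr {R : Ten n} (hR : IsCurvature R) : DD n (rr R) = 0 := by
  unfold rr
  simp only [map_smul, map_sum, DD_mul, DD_el, DD_er, mul_zero, zero_mul, add_zero, add_mul,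
    smul_add, Finset.sum_add_distrib]
  have h2 : ∑ i : Fin n, ∑ j : Fin n, ∑ k : Fin n, ∑ l : Fin n, (R i j k l : ℂ) •
      ((e (Sum.inl i) * e (Sum.inr j)) * (e (Sum.inr k) * e (Sum.inr l)) : GG n) = 0 := by
    refine Finset.sum_eq_zero fun i _ => ?_
    have := sum_cyc_zero (n := n) (fun j k l => (R i j k l : ℂ))
      (fun j k l => (e (Sum.inl i) * e (Sum.inr j)) * (e (Sum.inr k) * e (Sum.inr l)))
      (fun j k l => by exact_mod_cast bianchi₂ hR i j k l)
      (fun j k l => by rw [mul_assoc, e_cyc, ← mul_assoc])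
    exact this
  have h1 : ∑ i : Fin n, ∑ j : Fin n, ∑ k : Fin n, ∑ l : Fin n, (R i j k l : ℂ) •
      ((e (Sum.inr i) * e (Sum.inl j)) * (e (Sum.inr k) * e (Sum.inr l)) : GG n) = 0 := by
    rw [← h2, Finset.sum_comm]
    refine Finset.sum_congr rfl fun i _ => Finset.sum_congr rfl fun j _ =>
      Finset.sum_congr rfl fun k _ => Finset.sum_congr rfl fun l _ => ?_
    rw [e_anti, hR.skew_left i j k l, neg_mul, smul_neg]
    push_cast
    rw [neg_smul, neg_neg]
  rw [h1, h2, smul_zero, add_zero]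

theorem DD'_rr {R : Ten n} (hR : IsCurvature R) : DD' n (rr R) = 0 := by
  unfold rr
  simp only [map_smul, map_sum, DD'_mul, DD'_el, DD'_er, mul_zero, zero_mul, zero_add, mul_add,
    add_zero, smul_add, Finset.sum_add_distrib]
  have h2 : ∑ i : Fin n, ∑ j : Fin n, ∑ k : Fin n, ∑ l : Fin n, (R i j k l : ℂ) •
      ((e (Sum.inl i) * e (Sum.inl j)) * (e (Sum.inl k) * e (Sum.inr l)) : GG n) = 0 := by
    have hsw : ∑ i : Fin n, ∑ j : Fin n, ∑ k : Fin n, ∑ l : Fin n, (R i j k l : ℂ) •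
        ((e (Sum.inl i) * e (Sum.inl j)) * (e (Sum.inl k) * e (Sum.inr l)) : GG n)
        = ∑ l : Fin n, ∑ i : Fin n, ∑ j : Fin n, ∑ k : Fin n, (R i j k l : ℂ) •
        ((e (Sum.inl i) * e (Sum.inl j)) * (e (Sum.inl k) * e (Sum.inr l)) : GG n) := by
      symm
      rw [Finset.sum_comm]
      refine Finset.sum_congr rfl fun i _ => ?_
      rw [Finset.sum_comm]
      refine Finset.sum_congr rfl fun j _ => ?_
      rw [Finset.sum_comm]
    rw [hsw]
    refine Finset.sum_eq_zero fun l _ => ?_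
    have := sum_cyc_zero (n := n) (fun i j k => (R i j k l : ℂ))
      (fun i j k => (e (Sum.inl i) * e (Sum.inl j)) * (e (Sum.inl k) * e (Sum.inr l)))
      (fun i j k => by exact_mod_cast hR.bianchi i j k l)
      (fun i j k => by
        rw [← mul_assoc, mul_assoc (e (Sum.inl i)), e_cyc, ← mul_assoc, ← mul_assoc,
          mul_assoc (e (Sum.inl j) * e (Sum.inl k))])
    exact this
  have h1 : ∑ i : Fin n, ∑ j : Fin n, ∑ k : Fin n, ∑ l : Fin n, (R i j k l : ℂ) •
      ((e (Sum.inl i) * e (Sum.inl j)) * (e (Sum.inr k) * e (Sum.inl l)) : GG n) = 0 := by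
    rw [← h2]
    refine Finset.sum_congr rfl fun i _ => Finset.sum_congr rfl fun j _ => ?_
    rw [Finset.sum_comm]
    refine Finset.sum_congr rfl fun k _ => Finset.sum_congr rfl fun l _ => ?_
    rw [e_anti (Sum.inr l) (Sum.inl k), hR.skew_right i j k l, mul_neg, smul_neg]
    push_cast
    rw [neg_smul, neg_neg]
  rw [h1, h2, smul_zero, add_zero]

theorem fa_comm (A : Fin n → Fin n → ℂ) (x : GG n) : fa A * x = x * fa A := by
  unfold fa
  simp only [smul_mul_assoc, mul_smul_comm, Finset.sum_mul, Finset.mul_sum, ee_comm]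

theorem fb_comm (A : Fin n → Fin n → ℂ) (x : GG n) : fb A * x = x * fb A := by
  unfold fb
  simp only [smul_mul_assoc, mul_smul_comm, Finset.sum_mul, Finset.mul_sum, ee_comm]

theorem fw_comm (A : Fin n → Fin n → ℂ) (x : GG n) : fw A * x = x * fw A := by
  unfold fw
  simp only [smul_mul_assoc, mul_smul_comm, Finset.sum_mul, Finset.mul_sum, ee_comm]

theorem rr_comm (R : Ten n) (x : GG n) : rr R * x = x * rr R := by
  unfold rr
  simp only [smul_mul_assoc, mul_smul_comm, Finset.sum_mul, Finset.mul_sum]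
  congr 1
  refine Finset.sum_congr rfl fun i _ => Finset.sum_congr rfl fun j _ =>
    Finset.sum_congr rfl fun k _ => Finset.sum_congr rfl fun l _ => ?_
  congr 1
  rw [mul_assoc, ee_comm (Sum.inr k) (Sum.inr l) x, ← mul_assoc, ee_comm (Sum.inl i) (Sum.inl j) x,
    mul_assoc]

theorem e4 (i j k l : Fin n) :
    ((e (Sum.inl i) * e (Sum.inl j)) * (e (Sum.inr k) * e (Sum.inr l)) : GG n)
      = - ((e (Sum.inl i) * e (Sum.inr k)) * (e (Sum.inl j) * e (Sum.inr l))) := by
  rw [mul_assoc, ← mul_assoc (e (Sum.inl j)) (e (Sum.inr k)), e_anti (Sum.inl j) (Sum.inr k)]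
  noncomm_ring

theorem e4' (i j k l : Fin n) :
    ((e (Sum.inl i) * e (Sum.inl j)) * (e (Sum.inr k) * e (Sum.inr l)) : GG n)
      = (e (Sum.inl i) * e (Sum.inr l)) * (e (Sum.inl j) * e (Sum.inr k)) := by
  rw [e_anti (Sum.inr k) (Sum.inr l), mul_neg, e4, neg_neg]

theorem fw_mul_fw (A B : Fin n → Fin n → ℂ) : fw A * fw B
    = ∑ i : Fin n, ∑ j : Fin n, ∑ k : Fin n, ∑ l : Fin n, (A i k * B j l) •
      ((e (Sum.inl i) * e (Sum.inr k)) * (e (Sum.inl j) * e (Sum.inr l)) : GG n) := by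
  unfold fw
  rw [Finset.sum_mul]
  refine Finset.sum_congr rfl fun i _ => ?_
  rw [Finset.sum_mul]
  simp only [Finset.mul_sum, smul_mul_smul_comm]
  rw [Finset.sum_comm]

theorem fa_mul_fb (A B : Fin n → Fin n → ℂ) : fa A * fb B
    = (1 / 4 : ℂ) • ∑ i : Fin n, ∑ j : Fin n, ∑ k : Fin n, ∑ l : Fin n, (A i j * B k l) •
      ((e (Sum.inl i) * e (Sum.inl j)) * (e (Sum.inr k) * e (Sum.inr l)) : GG n) := by
  unfold fa fb
  rw [smul_mul_smul_comm, show (1 / 2 * (1 / 2) : ℂ) = 1 / 4 by norm_num]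
  congr 1
  rw [Finset.sum_mul]
  refine Finset.sum_congr rfl fun i _ => ?_
  rw [Finset.sum_mul]
  simp only [Finset.mul_sum, smul_mul_smul_comm]

/-- the tensor `Λ²w + w ⊗ w` as an element -/
theorem rr_wsq (w : Mat n) :
    rr (wsq w) = fa (fun i j => (w i j : ℂ)) * fb (fun i j => (w i j : ℂ))
      - (1 / 2 : ℂ) • (fw (fun i j => (w i j : ℂ)) * fw (fun i j => (w i j : ℂ))) := by
  have hA : ∑ i : Fin n, ∑ j : Fin n, ∑ k : Fin n, ∑ l : Fin n, ((w i k : ℂ) * w j l) •
      ((e (Sum.inl i) * e (Sum.inl j)) * (e (Sum.inr k) * e (Sum.inr l)) : GG n)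
      = - (fw (fun i j => (w i j : ℂ)) * fw (fun i j => (w i j : ℂ))) := by
    rw [fw_mul_fw]
    simp only [← Finset.sum_neg_distrib]
    refine Finset.sum_congr rfl fun i _ => Finset.sum_congr rfl fun j _ =>
      Finset.sum_congr rfl fun k _ => Finset.sum_congr rfl fun l _ => ?_
    rw [e4, smul_neg]
  have hB : ∑ i : Fin n, ∑ j : Fin n, ∑ k : Fin n, ∑ l : Fin n, ((w i l : ℂ) * w j k) •
      ((e (Sum.inl i) * e (Sum.inl j)) * (e (Sum.inr k) * e (Sum.inr l)) : GG n)
      = fw (fun i j => (w i j : ℂ)) * fw (fun i j => (w i j : ℂ)) := by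
    rw [fw_mul_fw]
    refine Finset.sum_congr rfl fun i _ => Finset.sum_congr rfl fun j _ => ?_
    rw [Finset.sum_comm]
    refine Finset.sum_congr rfl fun k _ => Finset.sum_congr rfl fun l _ => ?_
    rw [e4']
  rw [fa_mul_fb]
  unfold rr wsq
  push_cast
  simp only [add_smul, sub_smul, Finset.sum_add_distrib, Finset.sum_sub_distrib]
  rw [hA, hB]
  module

/-- a sum of squares of 2-forms as an element -/
theorem rr_sq {S : Type} [Fintype S] (ρ : S → Mat n) :
    rr (fun i j k l => ∑ s, ρ s i j * ρ s k l)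
      = ∑ s, fa (fun i j => (ρ s i j : ℂ)) * fb (fun i j => (ρ s i j : ℂ)) := by
  simp only [fa_mul_fb, ← Finset.smul_sum]
  unfold rr
  congr 1
  symm
  rw [Finset.sum_comm]
  refine Finset.sum_congr rfl fun i _ => ?_
  rw [Finset.sum_comm]
  refine Finset.sum_congr rfl fun j _ => ?_
  rw [Finset.sum_comm]
  refine Finset.sum_congr rfl fun k _ => ?_
  rw [Finset.sum_comm]
  refine Finset.sum_congr rfl fun l _ => ?_
  push_cast
  rw [← Finset.sum_smul]

theorem rr_sub (R S : Ten n) : rr (fun i j k l => R i j k l - S i j k l) = rr R - rr S := by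
  unfold rr
  simp only [Complex.ofReal_sub, sub_smul, Finset.sum_sub_distrib, smul_sub]

theorem rr_add (R S : Ten n) : rr (fun i j k l => R i j k l + S i j k l) = rr R + rr S := by
  unfold rr
  simp only [Complex.ofReal_add, add_smul, Finset.sum_add_distrib, smul_add]

end Pool.TwoForms
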