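import Pool.Agent.Lib.MP_4a593f_gt.TF.Defs

/-!
A nonnegative quadratic form on 2-forms is a sum of squares; pair symmetry.
-/

namespace Pool.TwoForms

open scoped BigOperators

variable {n : ℕ}

/-- the first Bianchi identity and the skew symmetries give the pair symmetry -/
theorem IsCurvature.pair {R : Ten n} (hR : IsCurvature R) (i j k l : Fin n) :
    R k l i j = R i j k l := by
  have L := hR.skew_left
  have Q := hR.skew_right
  linarith [hR.bianchi i j k l, hR.bianchi j k l i, hR.bianchi k l i j, hR.bianchi l i j k,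
    L i j k l, L i j l k, L j k i l, L j k l i, L k i j l, L k i l j, L k l i j, L k l j i,
    L l i j k, L l i k j, L j l i k, L j l k i,
    Q i j k l, Q j i k l, Q j k i l, Q k j i l, Q k i j l, Q i k j l, Q k l i j, Q l k i j,
    Q l i j k, Q i l j k, Q j l i k, Q l j i k]

/-- the value on a 2-tensor is the value on its skew part -/
private theorem psd_skew_part (S : Ten n) (h₁ : ∀ i j k l, S j i k l = - S i j k l)
    (h₂ : ∀ i j k l, S i j l k = - S i j k l) (x : Mat n) :
    ∑ i, ∑ j, ∑ k, ∑ l, S i j k l * ((x i j - x j i) / 2) * ((x k l - x l k) / 2)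
      = ∑ i, ∑ j, ∑ k, ∑ l, S i j k l * x i j * x k l := by
  have inner : ∀ i j, ∑ k, ∑ l, S i j k l * ((x k l - x l k) / 2) = ∑ k, ∑ l, S i j k l * x k l := by
    intro i j
    have sw : ∑ k, ∑ l, S i j k l * x l k = - ∑ k, ∑ l, S i j k l * x k l := by
      rw [Finset.sum_comm, ← Finset.sum_neg_distrib]
      refine Finset.sum_congr rfl fun k _ => ?_
      rw [← Finset.sum_neg_distrib]
      refine Finset.sum_congr rfl fun l _ => ?_
      rw [h₂ i j k l]
      ring
    have e : ∀ k l, S i j k l * ((x k l - x l k) / 2)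
        = (1 / 2 : ℝ) * (S i j k l * x k l) - (1 / 2 : ℝ) * (S i j k l * x l k) :=
      fun k l => by ring
    simp only [e, Finset.sum_sub_distrib, ← Finset.mul_sum]
    rw [sw]
    ring
  have lhs : ∀ i j, ∑ k, ∑ l, S i j k l * ((x i j - x j i) / 2) * ((x k l - x l k) / 2)
      = ((x i j - x j i) / 2) * ∑ k, ∑ l, S i j k l * x k l := by
    intro i j
    rw [← inner i j, Finset.mul_sum]
    refine Finset.sum_congr rfl fun k _ => ?_
    rw [Finset.mul_sum]
    refine Finset.sum_congr rfl fun l _ => ?_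
    ring
  have rhs : ∀ i j, ∑ k, ∑ l, S i j k l * x i j * x k l = x i j * ∑ k, ∑ l, S i j k l * x k l := by
    intro i j
    rw [Finset.mul_sum]
    refine Finset.sum_congr rfl fun k _ => ?_
    rw [Finset.mul_sum]
    refine Finset.sum_congr rfl fun l _ => ?_
    ring
  simp only [lhs, rhs]
  have sw : ∑ i, ∑ j, x j i * ∑ k, ∑ l, S i j k l * x k l
      = - ∑ i, ∑ j, x i j * ∑ k, ∑ l, S i j k l * x k l := by
    rw [Finset.sum_comm, ← Finset.sum_neg_distrib]
    refine Finset.sum_congr rfl fun i _ => ?_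
    rw [← Finset.sum_neg_distrib]
    refine Finset.sum_congr rfl fun j _ => ?_
    rw [← mul_neg, ← Finset.sum_neg_distrib]
    congr 1
    refine Finset.sum_congr rfl fun k _ => ?_
    rw [← Finset.sum_neg_distrib]
    refine Finset.sum_congr rfl fun l _ => ?_
    rw [h₁ i j k l]
    ring
  have e : ∀ i j, ((x i j - x j i) / 2) * ∑ k, ∑ l, S i j k l * x k l
      = (1 / 2 : ℝ) * (x i j * ∑ k, ∑ l, S i j k l * x k l)
        - (1 / 2 : ℝ) * (x j i * ∑ k, ∑ l, S i j k l * x k l) := fun i j => by ring
  have c : ∀ F : Fin n → Fin n → ℝ,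
      ∑ i, ∑ j, (1 / 2 : ℝ) * F i j = (1 / 2 : ℝ) * ∑ i, ∑ j, F i j := by
    intro F
    rw [Finset.mul_sum]
    exact Finset.sum_congr rfl fun i _ => (Finset.mul_sum _ _ _).symm
  simp only [e, Finset.sum_sub_distrib]
  rw [c, c, sw]
  ring

open scoped MatrixOrder in
/-- the square root of a positive semidefinite matrix -/
private theorem psd_exists_star_mul {ι : Type*} [Fintype ι] [DecidableEq ι]
    (M : Matrix ι ι ℝ) (hM : M.PosSemidef) : ∃ B : Matrix ι ι ℝ, M = B.conjTranspose * B := by
  obtain ⟨B, hB⟩ := CStarAlgebra.nonneg_iff_eq_star_mul_self.mp hM.nonneg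
  exact ⟨B, hB⟩

/-- **Sum of squares.** PROOF. The matrix `M (i,j) (k,l) = S i j k l` is symmetric and positive
semidefinite (for an arbitrary `β` replace it by its skew part, which does not change the value), so
`M = Bᵀ B` with `B` real; `ρ s i j = B s (i,j)` is skew because
`∑_s (ρ s i j + ρ s j i)^2 = S i j i j + 2 S i j j i + S j i j i = 0`. -/
theorem exists_sq (S : Ten n) (h₁ : ∀ i j k l, S j i k l = - S i j k l)
    (h₂ : ∀ i j k l, S i j l k = - S i j k l) (h₃ : ∀ i j k l, S k l i j = S i j k l)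
    (h : NonnegOnForms S) :
    ∃ ρ : (Fin n × Fin n) → Mat n, (∀ s, Skew (ρ s)) ∧
      ∀ i j k l, S i j k l = ∑ s, ρ s i j * ρ s k l := by
  classical
  set M : Matrix (Fin n × Fin n) (Fin n × Fin n) ℝ :=
    Matrix.of fun p q => S p.1 p.2 q.1 q.2 with hM
  have hpos : M.PosSemidef := by
    refine Matrix.PosSemidef.of_dotProduct_mulVec_nonneg ?_ ?_
    · ext p q
      simp [hM, Matrix.conjTranspose_apply, h₃]
    · intro x
      have h0 := h (fun i j => (x (i, j) - x (j, i)) / 2) (fun i j => by ring)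
      rw [psd_skew_part S h₁ h₂ (fun i j => x (i, j))] at h0
      refine h0.trans_eq ?_
      rw [dotProduct, Fintype.sum_prod_type]
      refine Finset.sum_congr rfl fun i _ => Finset.sum_congr rfl fun j _ => ?_
      rw [Matrix.mulVec, dotProduct, Fintype.sum_prod_type, Finset.mul_sum]
      refine Finset.sum_congr rfl fun k _ => ?_
      rw [Finset.mul_sum]
      refine Finset.sum_congr rfl fun l _ => ?_
      simp only [hM, Matrix.of_apply, Pi.star_apply, star_trivial]
      ring
  obtain ⟨B, hB⟩ := psd_exists_star_mul M hpos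
  have hB' : ∀ i j k l, S i j k l = ∑ s, B s (i, j) * B s (k, l) := by
    intro i j k l
    have := congrFun (congrFun hB (i, j)) (k, l)
    rw [Matrix.mul_apply] at this
    simpa [hM, Matrix.conjTranspose_apply] using this
  refine ⟨fun s i j => B s (i, j), ?_, hB'⟩
  intro s i j
  have hz : ∑ s, (B s (i, j) + B s (j, i)) ^ 2 = 0 := by
    have e : ∀ s, (B s (i, j) + B s (j, i)) ^ 2
        = B s (i, j) * B s (i, j) + B s (i, j) * B s (j, i)
          + B s (j, i) * B s (i, j) + B s (j, i) * B s (j, i) := fun s => by ring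
    rw [Finset.sum_congr rfl fun s _ => e s, Finset.sum_add_distrib, Finset.sum_add_distrib,
      Finset.sum_add_distrib, ← hB', ← hB', ← hB', ← hB']
    rw [h₁ i j i j, h₁ i j j i, h₂ i j i j]
    ring
  have := (Finset.sum_eq_zero_iff_of_nonneg (fun s _ => sq_nonneg _)).1 hz s (Finset.mem_univ s)
  have h2 := pow_eq_zero_iff (two_ne_zero) |>.1 this
  show B s (j, i) = - B s (i, j)
  linarith

end Pool.TwoForms
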