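import Pool.Agent.Lib.MP_4a593f_gt.TF.Defs

/-!
Kernels of singular skew matrices of even size.
-/

namespace Pool.TwoForms

open scoped BigOperators

/-- a real matrix of odd size with `Aᵀ = -A` is singular -/
private theorem strictA_det_odd {k : ℕ} (hk : Odd k) (A : Matrix (Fin k) (Fin k) ℝ)
    (hA : A.transpose = -A) : A.det = 0 := by
  have h1 : A.det = (-1 : ℝ) ^ k * A.det := by
    conv_lhs => rw [← Matrix.det_transpose, hA, Matrix.det_neg]
    simp
  rw [hk.neg_one_pow] at h1
  linarith

/-- a singular real skew matrix of even size has kernel of dimension at least two.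
PROOF. Let `v ≠ 0`, `θ v = 0`, `v i ≠ 0`. The matrix without row and column `i` is skew of odd size,
so its determinant vanishes (`det A = det Aᵀ = det (-A) = - det A`); a kernel vector, extended by
`0` at `i`, is a vector `w` with `(θ w) r = 0` for `r ≠ i`, and `0 = ⟨v, θ w⟩ = v i (θ w) i`. -/
theorem exists_two_kernel {n : ℕ} (hn : Even n) (θ : Mat n) (hθ : Skew θ)
    (h0 : Matrix.det (Matrix.of θ) = 0) :
    ∃ x y : Fin n → ℝ, LinearIndependent ℝ ![x, y] ∧ (∀ i, ∑ j, θ i j * x j = 0) ∧
      ∀ i, ∑ j, θ i j * y j = 0 := by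
  obtain ⟨v, hv, hvk⟩ := Matrix.exists_mulVec_eq_zero_iff.mpr h0
  have hvk' : ∀ i, ∑ j, θ i j * v j = 0 := fun i => by
    have := congrFun hvk i
    simpa [Matrix.mulVec, dotProduct] using this
  obtain ⟨i, hi⟩ : ∃ i, v i ≠ 0 := by
    by_contra hcon
    push Not at hcon
    exact hv (funext hcon)
  obtain ⟨k, rfl⟩ : ∃ k, n = k + 1 := ⟨n - 1, by have := i.2; omega⟩
  have hk : Odd k := by
    rcases Nat.even_or_odd k with h | h
    · exfalso
      exact (Nat.not_even_iff_odd.mpr h.add_one) hn
    · exact h
  set A : Matrix (Fin k) (Fin k) ℝ := Matrix.of fun r s => θ (i.succAbove r) (i.succAbove s)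
    with hAdef
  have hA : A.transpose = -A := by
    ext r s
    simp only [hAdef, Matrix.transpose_apply, Matrix.of_apply, Matrix.neg_apply]
    exact hθ _ _
  have hdet : A.det = 0 := strictA_det_odd hk A hA
  obtain ⟨u, hu, huk⟩ := Matrix.exists_mulVec_eq_zero_iff.mpr hdet
  have huk' : ∀ r, ∑ s, θ (i.succAbove r) (i.succAbove s) * u s = 0 := fun r => by
    have := congrFun huk r
    simpa [hAdef, Matrix.mulVec, dotProduct] using this
  set w : Fin (k + 1) → ℝ := i.insertNth (0 : ℝ) u with hw
  have hwi : w i = 0 := by simp [hw]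
  have hws : ∀ s, w (i.succAbove s) = u s := fun s => by simp [hw]
  have hsucc : ∀ r, ∑ j, θ (i.succAbove r) j * w j = 0 := fun r => by
    rw [Fin.sum_univ_succAbove _ i, hwi, mul_zero, zero_add]
    simp only [hws]
    exact huk' r
  have hpair : ∑ a, v a * ∑ j, θ a j * w j = 0 := by
    calc ∑ a, v a * ∑ j, θ a j * w j = ∑ j, w j * -(∑ a, θ j a * v a) := by
          simp only [Finset.mul_sum, mul_neg, ← Finset.sum_neg_distrib]
          rw [Finset.sum_comm]
          refine Finset.sum_congr rfl fun j _ => Finset.sum_congr rfl fun a _ => ?_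
          rw [hθ j a]
          ring
      _ = 0 := by simp [hvk']
  have hwk : ∀ a, ∑ j, θ a j * w j = 0 := by
    have hii : ∑ j, θ i j * w j = 0 := by
      rw [Fin.sum_univ_succAbove _ i] at hpair
      simp only [hsucc, mul_zero, Finset.sum_const_zero, add_zero] at hpair
      exact (mul_eq_zero.mp hpair).resolve_left hi
    intro a
    rcases eq_or_ne a i with rfl | ha
    · exact hii
    · obtain ⟨r, rfl⟩ := Fin.exists_succAbove_eq ha
      exact hsucc r
  refine ⟨v, w, ?_, hvk', hwk⟩
  rw [LinearIndependent.pair_iff]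
  intro s t hst
  have hs : s = 0 := by
    have := congrFun hst i
    simp only [Pi.add_apply, Pi.smul_apply, smul_eq_mul, hwi, mul_zero, add_zero,
      Pi.zero_apply] at this
    exact (mul_eq_zero.mp this).resolve_right hi
  refine ⟨hs, ?_⟩
  by_contra ht
  apply hu
  funext r
  have := congrFun hst (i.succAbove r)
  simp only [hs, Pi.add_apply, Pi.smul_apply, smul_eq_mul, zero_mul, zero_add, hws,
    Pi.zero_apply] at this
  exact (mul_eq_zero.mp this).resolve_left ht

end Pool.TwoForms
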