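import Pool.Agent.Lib.MP_4a593f_gt.TF.Det

/-!
Vanishing top coefficient of `θ^m` implies vanishing determinant.
-/

namespace Pool.TwoForms

open scoped BigOperators

private theorem strictB_pow {A : Type*} [Ring A] {z Z : A} (hz : z * z = 0)
    (hc : z * Z = Z * z) (k : ℕ) :
    (z + Z) ^ (k + 1) = Z ^ (k + 1) + (k + 1) • (z * Z ^ k) := by
  induction k with
  | zero => simp [add_comm]
  | succ k ih =>
    have h1 : z * (z * Z ^ k) = 0 := by rw [← mul_assoc, hz, zero_mul]
    have h2 : Z * (z * Z ^ k) = z * Z ^ (k + 1) := by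
      rw [← mul_assoc, ← hc, mul_assoc, ← pow_succ']
    rw [pow_succ', ih, add_mul, mul_add, mul_add, mul_smul_comm, mul_smul_comm, h1, h2, smul_zero,
      add_zero, ← pow_succ', succ_nsmul (z * Z ^ (k + 1)) (k + 1)]
    abel

private theorem strictB_list {A : Type*} [Ring A] {I : Type*} (z : I → A)
    (h2 : ∀ i, z i * z i = 0) (hc : ∀ i x, z i * x = x * z i) (L : List I) :
    ((L.map z).sum) ^ L.length = (L.length.factorial) • (L.map z).prod ∧
      ((L.map z).sum) ^ (L.length + 1) = 0 := by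
  induction L with
  | nil => simp
  | cons i L ih =>
    obtain ⟨h3, h4⟩ := ih
    constructor
    · rw [List.map_cons, List.sum_cons, List.prod_cons, List.length_cons,
        strictB_pow (h2 i) (hc i _), h4, h3, zero_add, mul_smul_comm, smul_smul,
        Nat.factorial_succ]
    · rw [List.map_cons, List.sum_cons, List.length_cons, strictB_pow (h2 i) (hc i _), pow_succ,
        h4, zero_mul, mul_zero, smul_zero, add_zero]

private theorem strictB_anti {J : Type} [DecidableEq J] {I : Type} (v : J → ℂ) (u : I → J → ℂ) (L : List I) :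
    ExteriorAlgebra.ι ℂ v * (L.map fun i => ExteriorAlgebra.ι ℂ (u i)).prod =
      ((-1 : ℂ) ^ L.length) • ((L.map fun i => ExteriorAlgebra.ι ℂ (u i)).prod *
        ExteriorAlgebra.ι ℂ v) := by
  induction L with
  | nil => simp
  | cons i L ih =>
    rw [List.map_cons, List.prod_cons, ← mul_assoc, ι_anti, neg_mul, mul_assoc, ih, List.length_cons,
      pow_succ, mul_smul_comm, mul_neg_one, neg_smul, mul_assoc]

private theorem strictB_reorder {J : Type} [DecidableEq J] {I : Type} (u v : I → J → ℂ) (L : List I) :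
    ∃ s : ℂ, s ≠ 0 ∧
      (L.map fun i => ExteriorAlgebra.ι ℂ (u i) * ExteriorAlgebra.ι ℂ (v i)).prod =
      s • ((L.map fun i => ExteriorAlgebra.ι ℂ (u i)).prod *
        (L.map fun i => ExteriorAlgebra.ι ℂ (v i)).prod) := by
  induction L with
  | nil => exact ⟨1, one_ne_zero, by simp⟩
  | cons i L ih =>
    obtain ⟨s, hs, h⟩ := ih
    refine ⟨s * (-1) ^ L.length, mul_ne_zero hs (pow_ne_zero _ (by norm_num)), ?_⟩
    rw [List.map_cons, List.prod_cons, h, List.map_cons, List.prod_cons, List.map_cons,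
      List.prod_cons, mul_smul_comm, mul_assoc, ← mul_assoc (ExteriorAlgebra.ι ℂ (v i)),
      strictB_anti, smul_mul_assoc, mul_smul_comm, smul_smul]
    simp only [mul_assoc]

private theorem strictB_even {n : ℕ} (L : List (Fin n)) :
    (Even L.length → (L.map fun i => (e i : G (Fin n))).prod ∈ Ev n) ∧
      (¬ Even L.length → ∀ i : Fin n, e i * (L.map fun i => (e i : G (Fin n))).prod ∈ Ev n) := by
  induction L with
  | nil => exact ⟨fun _ => by simp, fun h => absurd (by simp) h⟩
  | cons j L ih =>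
    rw [List.length_cons, Nat.even_add_one, List.map_cons, List.prod_cons]
    refine ⟨fun h => ih.2 h j, fun h i => ?_⟩
    rw [not_not] at h
    rw [← mul_assoc]
    exact mul_mem (Algebra.subset_adjoin ⟨(i, j), rfl⟩) (ih.1 h)

/-- the rows on the second copy -/
private theorem strictB_row {n : ℕ} (v : Fin n → ℂ) :
    ∑ j, v j • (e (Sum.inr j) : GG n) = ExteriorAlgebra.ι ℂ (Sum.elim (0 : Fin n → ℂ) v) := by
  unfold e
  simp only [← map_smul, ← map_sum]
  congr 1
  ext x
  cases x with
  | inl x => simp [Finset.sum_apply]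
  | inr x => simp [Finset.sum_apply, Pi.single_apply]

private theorem strictB_inc₂ {n : ℕ} (v : Fin n → ℂ) :
    inc₂ n (ExteriorAlgebra.ι ℂ v) = ExteriorAlgebra.ι ℂ (Sum.elim (0 : Fin n → ℂ) v) := by
  unfold inc₂
  rw [ExteriorAlgebra.map_apply_ι]
  rfl

private theorem strictB_fw {n : ℕ} (A : Fin n → Fin n → ℂ) :
    fw A = ((List.finRange n).map fun i =>
      ExteriorAlgebra.ι ℂ (Pi.single (Sum.inl i) (1 : ℂ) : Fin n ⊕ Fin n → ℂ) *
        ExteriorAlgebra.ι ℂ (Sum.elim (0 : Fin n → ℂ) (A i))).sum := by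
  rw [← List.ofFn_eq_map, List.sum_ofFn]
  unfold fw
  refine Finset.sum_congr rfl fun i _ => ?_
  rw [← strictB_row, Finset.mul_sum]
  refine Finset.sum_congr rfl fun j _ => ?_
  rw [mul_smul_comm]
  rfl

/-- the top coefficient of the power of the mixed form -/
private theorem strictB_det {m : ℕ} (A : Fin (2 * m) → Fin (2 * m) → ℂ)
    (h : TT (2 * m) (fw A ^ (2 * m)) = 0) : Matrix.det (Matrix.of A) = 0 := by
  let z : Fin (2 * m) → GG (2 * m) := fun i =>
    ExteriorAlgebra.ι ℂ (Pi.single (Sum.inl i) (1 : ℂ) : Fin (2 * m) ⊕ Fin (2 * m) → ℂ) *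
        ExteriorAlgebra.ι ℂ (Sum.elim (0 : Fin (2 * m) → ℂ) (A i))
  have hz2 : ∀ i, z i * z i = 0 := by
    intro i
    change (_ * _) * (_ * _) = 0
    rw [ιι_comm, mul_assoc, ← mul_assoc (ExteriorAlgebra.ι ℂ (Sum.elim (0 : Fin (2 * m) → ℂ) (A i))),
      ι_anti (Sum.elim (0 : Fin (2 * m) → ℂ) (A i)), neg_mul, mul_assoc, ExteriorAlgebra.ι_sq_zero, mul_zero, neg_zero,
      mul_zero]
  have hzc : ∀ i x, z i * x = x * z i := fun i x => ιι_comm _ _ x
  have h1 := (strictB_list z hz2 hzc (List.finRange (2 * m))).1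
  rw [List.length_finRange] at h1
  have hW : fw A = ((List.finRange (2 * m)).map z).sum := strictB_fw A
  rw [← hW] at h1
  obtain ⟨s, hs, h2⟩ := strictB_reorder
    (fun i : Fin (2 * m) => (Pi.single (Sum.inl i) (1 : ℂ) : Fin (2 * m) ⊕ Fin (2 * m) → ℂ))
    (fun i => Sum.elim (0 : Fin (2 * m) → ℂ) (A i)) (List.finRange (2 * m))
  have h3 : ((List.finRange (2 * m)).map z).prod = s • (inc₁ (2 * m)
      (((List.finRange (2 * m)).map fun i => (e i : G (Fin (2 * m)))).prod) *
      inc₂ (2 * m) (ExteriorAlgebra.ιMulti ℂ (2 * m) A)) := by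
    refine h2.trans ?_
    rw [map_list_prod, List.map_map, ExteriorAlgebra.ιMulti_apply, map_list_prod,
      List.ofFn_eq_map, List.map_map]
    congr 2
    · congr 1
      refine List.map_congr_left fun i _ => ?_
      exact (inc₁_e i).symm
    · congr 1
      refine List.map_congr_left fun i _ => ?_
      exact (strictB_inc₂ (A i)).symm
  have hE : ((List.finRange (2 * m)).map fun i => (e i : G (Fin (2 * m)))).prod ∈ Ev (2 * m) := by
    apply (strictB_even _).1
    rw [List.length_finRange]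
    exact even_two_mul m
  have hX : T1 (2 * m) (((List.finRange (2 * m)).map fun i => (e i : G (Fin (2 * m)))).prod)
      = 1 := by
    have h4 : ((List.finRange (2 * m)).map fun i => (e i : G (Fin (2 * m)))).prod =
        ExteriorAlgebra.ιMulti ℂ (2 * m) (fun i => Pi.single i (1 : ℂ)) := by
      rw [ExteriorAlgebra.ιMulti_apply, List.ofFn_eq_map]
      rfl
    rw [h4, T1_ιMulti]
    have h5 : (Matrix.of fun i : Fin (2 * m) => (Pi.single i (1 : ℂ) : Fin (2 * m) → ℂ)) = 1 := by
      ext i j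
      rw [Matrix.of_apply, Matrix.one_apply, Pi.single_apply]
      exact if_congr eq_comm rfl rfl
    rw [h5, Matrix.det_one]
  rw [h1, h3, map_nsmul, map_smul, TT_mul _ _ hE, hX, one_mul, T1_ιMulti, nsmul_eq_mul,
    smul_eq_mul] at h
  rcases mul_eq_zero.1 h with h | h
  · exact absurd h (Nat.cast_ne_zero.2 (Nat.factorial_ne_zero _))
  · rcases mul_eq_zero.1 h with h | h
    · exact absurd h hs
    · exact h

private theorem strictB_DD_pow {n : ℕ} (x : GG n) (hx : ∀ y, x * y = y * x) (k : ℕ) :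
    DD n (x ^ k) = k • (x ^ (k - 1) * DD n x) := by
  have h1 : ∀ j : ℕ, ∀ y, x ^ j * y = y * x ^ j := by
    intro j y
    induction j with
    | zero => simp
    | succ j ihj => rw [pow_succ, mul_assoc, hx y, ← mul_assoc, ihj, mul_assoc]
  have h0 : DD n (1 : GG n) = 0 := by
    have h2 := DD_mul (n := n) 1 1
    rw [mul_one, mul_one, one_mul] at h2
    exact left_eq_add.1 h2
  induction k with
  | zero => rw [pow_zero, h0, zero_smul]
  | succ k ih =>
    rw [pow_succ', DD_mul, ih, mul_smul_comm, Nat.add_sub_cancel, add_smul, one_smul, add_comm,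
      h1 k (DD n x)]
    congr 1
    cases k with
    | zero => simp
    | succ k => rw [Nat.add_sub_cancel, ← mul_assoc, ← pow_succ', h1 (k + 1) (DD n x)]

private theorem strictB_comm {C : Type*} [CommRing C] (a b W : C) (r k : ℕ) :
    W * (W ^ (2 * r + 1) * (a * b) ^ k) + a * ((2 * r + 1) • (W ^ (2 * r) * (b + b)) * (a * b) ^ k +
      W ^ (2 * r + 1) * (k • ((a * b) ^ (k - 1) * (W * b)))) =
      (k + 1) • (W ^ (2 * (r + 1)) * (a * b) ^ k) +
        (2 * (2 * r + 1)) • (W ^ (2 * r) * (a * b) ^ (k + 1)) := by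
  simp only [nsmul_eq_mul]
  push_cast
  cases k with
  | zero => ring
  | succ k =>
    rw [Nat.add_sub_cancel]
    push_cast
    ring

private theorem strictB_central {A : Type*} [Ring A] [Algebra ℂ A] (a b W : A)
    (ca : ∀ x, a * x = x * a) (cb : ∀ x, b * x = x * b) (cW : ∀ x, W * x = x * W) (r k : ℕ) :
    W * (W ^ (2 * r + 1) * (a * b) ^ k) + a * ((2 * r + 1) • (W ^ (2 * r) * (b + b)) * (a * b) ^ k +
      W ^ (2 * r + 1) * (k • ((a * b) ^ (k - 1) * (W * b)))) =
      (k + 1) • (W ^ (2 * (r + 1)) * (a * b) ^ k) +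
        (2 * (2 * r + 1)) • (W ^ (2 * r) * (a * b) ^ (k + 1)) := by
  have h := congrArg (Subtype.val) (strictB_comm
    (⟨a, Subalgebra.mem_center_iff.2 fun x => (ca x).symm⟩ : Subalgebra.center ℂ A)
    ⟨b, Subalgebra.mem_center_iff.2 fun x => (cb x).symm⟩
    ⟨W, Subalgebra.mem_center_iff.2 fun x => (cW x).symm⟩ r k)
  exact h

/-- Only the implication `T1 (tf θ ^ m) = 0 → det θ = 0` is needed.
PROOF (suggestion, in `GG (2m)`, `a = fa θ`, `b = fb θ`, `W = fw θ`, all central). By `TT_DD` and the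
derivation rule applied to `a * W^(2r-1) * (a b)^(m-r)`, `r ≥ 1`:
`(1 + m - r) TT(W^(2r) (a b)^(m-r)) + 2 (2r-1) TT(W^(2r-2) (a b)^(m-r+1)) = 0`. So
`TT(W^(2m))` is a nonzero multiple of `TT(a^m b^m) = T1(tf θ^m)^2 = 0` (`TT_mul`, `inc₁_tf`,
`inc₂_tf`). On the other hand `W = ∑_i e(inl i) * η_i` with `η_i = ∑_j θ i j e(inr j)`; the `n = 2m`
products `e(inl i) * η_i` commute and have square zero, so `W^n = n! ∏_i e(inl i) η_i`, which is
`± n! (∏ e(inl i)) (∏ η_i)`, and by `TT_mul`, `T1_ιMulti` its top coefficient is `± n! det θ`.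
(Any other proof will do.) -/
theorem det_eq_zero_of_T1 {m : ℕ} (θ : Mat (2 * m)) (hθ : Skew θ)
    (h : T1 (2 * m) (tf (fun i j => (θ i j : ℂ)) ^ m) = 0) : Matrix.det (Matrix.of θ) = 0 := by
  have hA : SkewC (fun i j => (θ i j : ℂ)) := by
    intro i j
    change ((θ j i : ℝ) : ℂ) = -((θ i j : ℝ) : ℂ)
    rw [hθ i j, Complex.ofReal_neg]
  set A : Fin (2 * m) → Fin (2 * m) → ℂ := fun i j => (θ i j : ℂ) with hAdef
  set a := fa A with ha
  set b := fb A with hb
  set W := fw A with hW
  have ca : ∀ x, a * x = x * a := fa_comm A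
  have cb : ∀ x, b * x = x * b := fb_comm A
  have cW : ∀ x, W * x = x * W := fw_comm A
  have cab : ∀ x, (a * b) * x = x * (a * b) := by
    intro x
    rw [mul_assoc, cb x, ← mul_assoc, ca x, mul_assoc]
  have dab : DD (2 * m) (a * b) = W * b := by
    rw [DD_mul, DD_fa hA, DD_fb, mul_zero, add_zero]
  -- the bottom of the chain
  have h0 : TT (2 * m) ((a * b) ^ m) = 0 := by
    have h1 : (a * b) ^ m = inc₁ (2 * m) (tf A ^ m) * inc₂ (2 * m) (tf A ^ m) := by
      rw [map_pow, map_pow, inc₁_tf, inc₂_tf]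
      exact (show Commute a b from ca b).mul_pow m
    rw [h1, TT_mul _ _ (pow_mem (tf_mem_Ev A) m), h, mul_zero]
  -- the chain
  have chain : ∀ r k : ℕ, r + k = m → TT (2 * m) (W ^ (2 * r) * (a * b) ^ k) = 0 := by
    intro r
    induction r with
    | zero =>
      intro k hk
      have : k = m := by omega
      rw [this, mul_zero, pow_zero, one_mul]
      exact h0
    | succ r ih =>
      intro k hk
      have ih' := ih (k + 1) (by omega)
      have hd := TT_DD (n := 2 * m) (a * (W ^ (2 * r + 1) * (a * b) ^ k))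
      have e1 : DD (2 * m) (W ^ (2 * r + 1)) = (2 * r + 1) • (W ^ (2 * r) * (b + b)) := by
        rw [strictB_DD_pow W cW, DD_fw, Nat.add_sub_cancel, two_mul (fb A)]
      have e2 : DD (2 * m) ((a * b) ^ k) = k • ((a * b) ^ (k - 1) * (W * b)) := by
        rw [strictB_DD_pow (a * b) cab, dab]
      rw [DD_mul, DD_mul, DD_fa hA, e1, e2, strictB_central a b W ca cb cW r k, map_add, map_nsmul,
        map_nsmul, ih', smul_zero, add_zero, nsmul_eq_mul] at hd
      rcases mul_eq_zero.1 hd with h1 | h1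
      · exact absurd h1 (Nat.cast_ne_zero.2 (Nat.succ_ne_zero k))
      · exact h1
  have hfin := chain m 0 (by omega)
  rw [pow_zero, mul_one] at hfin
  have hdet := strictB_det A hfin
  have h5 : Matrix.of A = (Matrix.of θ).map (algebraMap ℝ ℂ) := rfl
  rw [h5, ← RingHom.mapMatrix_apply, ← RingHom.map_det] at hdet
  exact (map_eq_zero _).1 hdet

end Pool.TwoForms
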