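import Pool.Agent.Lib.MP_4a593f_gt.TF.Pos
import Pool.Agent.Lib.MP_4a593f_gt.TF.StrictA
import Pool.Agent.Lib.MP_4a593f_gt.TF.StrictB

/-!
If all terms of the sum of squares vanish there is a plane on which all forms vanish.
-/

namespace Pool.TwoForms

open scoped BigOperators Pointwise

/-- contraction with an arbitrary vector of the dual space -/
noncomputable def cv {n : ℕ} (x : Fin n → ℝ) : G (Fin n) →ₗ[ℂ] G (Fin n) :=
  ∑ i, (x i : ℂ) • c i

/-- if `θ₀` has maximal rank on the line `θ₀ + t θ`, then `θ` maps the kernel of `θ₀` to its range -/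
private theorem strict_maxrank {n : ℕ} (A B : Matrix (Fin n) (Fin n) ℝ)
    (hmax : ∀ t : ℝ, (A + t • B).rank ≤ A.rank) (x : Fin n → ℝ) (hx : A.mulVec x = 0) :
    ∃ z, A.mulVec z = B.mulVec x := by
  by_contra hcon
  have hcon' : B.mulVec x ∉ LinearMap.range A.mulVecLin := by
    rintro ⟨z, hz⟩
    exact hcon ⟨z, hz⟩
  obtain ⟨b, hb⟩ : ∃ b : Fin A.rank → LinearMap.range A.mulVecLin,
      LinearIndependent ℝ b ∧ ⊤ ≤ Submodule.span ℝ (Set.range b) :=
    ⟨Module.finBasis ℝ (LinearMap.range A.mulVecLin), (Module.finBasis ℝ _).linearIndependent,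
      (Module.finBasis ℝ _).span_eq.ge⟩
  have hv : ∀ i, ∃ v, A.mulVec v = (b i : Fin n → ℝ) := fun i => (b i).2
  choose v hv using hv
  set F : ℝ → Option (Fin A.rank) → (Fin n → ℝ) := fun t o =>
    o.elim (B.mulVec x) (fun i => (A + t • B).mulVec (v i)) with hF
  have hcont : Continuous F := by
    refine continuous_pi fun o => ?_
    cases o with
    | none => exact continuous_const
    | some i =>
      change Continuous fun t : ℝ => (A + t • B).mulVec (v i)
      simp only [Matrix.add_mulVec, Matrix.smul_mulVec]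
      exact continuous_const.add (continuous_id.smul continuous_const)
  have h0 : LinearIndependent ℝ (F 0) := by
    rw [linearIndependent_option]
    have hcomp : (F 0 ∘ some : Fin A.rank → (Fin n → ℝ)) = fun i => (b i : Fin n → ℝ) := by
      funext i
      change (A + (0 : ℝ) • B).mulVec (v i) = _
      rw [zero_smul, add_zero, hv]
    change LinearIndependent ℝ (F 0 ∘ some) ∧ F 0 none ∉ Submodule.span ℝ (Set.range (F 0 ∘ some))
    rw [hcomp]
    refine ⟨hb.1.map' (LinearMap.range A.mulVecLin).subtype (Submodule.ker_subtype _), ?_⟩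
    intro hmem
    apply hcon'
    refine (Submodule.span_le.2 ?_) hmem
    rintro _ ⟨i, rfl⟩
    exact (b i).2
  have hopen : IsOpen {f : Option (Fin A.rank) → (Fin n → ℝ) | LinearIndependent ℝ f} :=
    isOpen_setOfPred_linearIndependent
  have hev : ∀ᶠ t in nhds (0 : ℝ), LinearIndependent ℝ (F t) :=
    (hcont.tendsto 0).eventually (hopen.mem_nhds h0)
  obtain ⟨t, ht, ht0⟩ : ∃ t : ℝ, LinearIndependent ℝ (F t) ∧ t ≠ 0 := by
    have h1 : ∀ᶠ t in nhdsWithin (0 : ℝ) {0}ᶜ, LinearIndependent ℝ (F t) ∧ t ≠ 0 := by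
      filter_upwards [hev.filter_mono nhdsWithin_le_nhds, self_mem_nhdsWithin] with t h1 h2
      exact ⟨h1, h2⟩
    exact h1.exists
  have hle : Submodule.span ℝ (Set.range (F t)) ≤ LinearMap.range (A + t • B).mulVecLin := by
    rw [Submodule.span_le]
    rintro _ ⟨o, rfl⟩
    cases o with
    | none =>
      refine ⟨t⁻¹ • x, ?_⟩
      change (A + t • B).mulVec (t⁻¹ • x) = B.mulVec x
      rw [Matrix.mulVec_smul, Matrix.add_mulVec, hx, zero_add, Matrix.smul_mulVec, smul_smul,
        inv_mul_cancel₀ ht0, one_smul]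
    | some i => exact ⟨v i, rfl⟩
  have h1 := Submodule.finrank_mono hle
  rw [finrank_span_eq_card ht, Fintype.card_option, Fintype.card_fin] at h1
  have h2 := hmax t
  unfold Matrix.rank at h2
  unfold Matrix.rank at h1
  omega

private theorem strict_tf_add {n : ℕ} (A B : Fin n → Fin n → ℂ) : tf (A + B) = tf A + tf B := by
  unfold tf
  rw [← smul_add, ← Finset.sum_add_distrib]
  congr 1
  refine Finset.sum_congr rfl fun i _ => ?_
  rw [← Finset.sum_add_distrib]
  refine Finset.sum_congr rfl fun j _ => ?_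
  rw [Pi.add_apply, Pi.add_apply, add_smul]

private theorem strict_tf_smul {n : ℕ} (r : ℂ) (A : Fin n → Fin n → ℂ) :
    tf (r • A) = r • tf A := by
  unfold tf
  rw [smul_comm r]
  congr 1
  rw [Finset.smul_sum]
  refine Finset.sum_congr rfl fun i _ => ?_
  rw [Finset.smul_sum]
  refine Finset.sum_congr rfl fun j _ => ?_
  rw [Pi.smul_apply, Pi.smul_apply, smul_smul, smul_eq_mul]

/-- the generators -/
private noncomputable def strictX {n : ℕ} {S : Type} (ρ : S → Mat n) (w₁ w₂ : Mat n) :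
    Set (G (Fin n)) :=
  Set.range (fun s => tf (toC (ρ s))) ∪ {tf (omb w₁ w₂), tf (om w₁ w₂)}

private theorem strict_pow {n : ℕ} {S : Type} (ρ : S → Mat n) (w₁ w₂ : Mat n) (l : ℕ) :
    ∀ y ∈ strictX ρ w₁ w₂ ^ l, ∃ (r j k : ℕ) (f : Fin r → S), r + j + k = l ∧
      y = pf ρ w₁ w₂ f j k := by
  induction l with
  | zero =>
    intro y hy
    rw [pow_zero, Set.mem_one] at hy
    refine ⟨0, 0, 0, Fin.elim0, rfl, ?_⟩
    rw [hy, pf]
    simp
  | succ l ih =>
    intro y hy
    rw [pow_succ', Set.mem_mul] at hy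
    obtain ⟨x, hx, z, hz, rfl⟩ := hy
    obtain ⟨r, j, k, f, hl, rfl⟩ := ih z hz
    rcases hx with ⟨s, rfl⟩ | hx | hx
    · refine ⟨r + 1, j, k, Fin.cons s f, by omega, ?_⟩
      rw [pf, pf, List.ofFn_succ, List.prod_cons]
      simp only [Fin.cons_zero, Fin.cons_succ]
      rw [mul_assoc]
    · refine ⟨r, j + 1, k, f, by omega, ?_⟩
      rw [hx, pf, pf, ← mul_assoc, tf_comm, mul_assoc, ← mul_assoc (tf (omb w₁ w₂)), ← pow_succ']
    · rw [Set.mem_singleton_iff] at hx
      refine ⟨r, j, k + 1, f, by omega, ?_⟩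
      rw [hx, pf, pf, ← mul_assoc, tf_comm, mul_assoc, ← mul_assoc (tf (om w₁ w₂)),
        tf_comm (om w₁ w₂), mul_assoc, ← pow_succ']

private theorem strict_mem {n : ℕ} {S : Type} (ρ : S → Mat n) (w₁ w₂ : Mat n) (θ : Mat n)
    (hθ : θ ∈ Submodule.span ℝ (Set.range ρ ∪ {w₁, w₂})) :
    tf (toC θ) ∈ Submodule.span ℂ (strictX ρ w₁ w₂) := by
  induction hθ using Submodule.span_induction with
  | mem x hx =>
    rcases hx with ⟨s, rfl⟩ | hx | hx
    · exact Submodule.subset_span (Or.inl ⟨s, rfl⟩)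
    · have h1 : toC x = (1 / 2 : ℂ) • (omb w₁ w₂ + om w₁ w₂) := by
        funext i j
        rw [hx]
        simp only [toC, omb, om, Pi.smul_apply, Pi.add_apply, smul_eq_mul]
        ring
      rw [h1, strict_tf_smul, strict_tf_add]
      exact Submodule.smul_mem _ _ (Submodule.add_mem _
        (Submodule.subset_span (Or.inr (Or.inl rfl)))
        (Submodule.subset_span (Or.inr (Or.inr rfl))))
    · rw [Set.mem_singleton_iff] at hx
      have h1 : toC x = (Complex.I / 2 : ℂ) • (omb w₁ w₂ + (-1 : ℂ) • om w₁ w₂) := by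
        funext i j
        rw [hx]
        simp only [toC, omb, om, Pi.smul_apply, Pi.add_apply, smul_eq_mul]
        linear_combination (w₂ i j : ℂ) * Complex.I_mul_I
      rw [h1, strict_tf_smul, strict_tf_add, strict_tf_smul]
      exact Submodule.smul_mem _ _ (Submodule.add_mem _
        (Submodule.subset_span (Or.inr (Or.inl rfl)))
        (Submodule.smul_mem _ _ (Submodule.subset_span (Or.inr (Or.inr rfl)))))
  | zero =>
    have h1 : toC (0 : Mat n) = (0 : ℂ) • toC (0 : Mat n) := by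
      funext i j
      simp [toC]
    rw [h1, strict_tf_smul, zero_smul]
    exact Submodule.zero_mem _
  | add x y _ _ hx hy =>
    have h1 : toC (x + y) = toC x + toC y := by
      funext i j
      simp [toC]
    rw [h1, strict_tf_add]
    exact Submodule.add_mem _ hx hy
  | smul a x _ hx =>
    have h1 : toC (a • x) = (a : ℂ) • toC x := by
      funext i j
      simp [toC]
    rw [h1, strict_tf_smul]
    exact Submodule.smul_mem _ _ hx

/-- **Plane of zeros.** PROOF. Let `L` be the real span of the `ρ s`, `w₁`, `w₂`. By hypothesis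
(`w₁ = (ω+ω̄)/2`, `w₂ = (ω-ω̄)/(2i)`) `T1 (tf θ ^ m) = 0` for all `θ ∈ L`, so every `θ ∈ L` is
singular (`det_eq_zero_of_T1`). Let `θ₀ ∈ L` be of maximal rank and `x, y` independent in its kernel
(`exists_two_kernel`). For `θ ∈ L` the rank of `θ₀ + t θ` is at most the rank of `θ₀`, so
`θ y = θ₀ z` for some `z` (linear independence is an open condition) and
`θ(x,y) = θ₀(x,z) = 0`. -/
theorem exists_plane {m : ℕ} {S : Type} [Fintype S] (ρ : S → Mat (2 * m)) (w₁ w₂ : Mat (2 * m))
    (hρ : ∀ s, Skew (ρ s)) (h₁ : Skew w₁) (h₂ : Skew w₂)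
    (hall : ∀ r j k : ℕ, r + j + k = m → ∀ f : Fin r → S, T1 (2 * m) (pf ρ w₁ w₂ f j k) = 0) :
    ∃ x y : Fin (2 * m) → ℝ, LinearIndependent ℝ ![x, y] ∧
      (∀ s, ∑ i, ∑ j, ρ s i j * x i * y j = 0) ∧
      (∑ i, ∑ j, w₁ i j * x i * y j = 0) ∧ ∑ i, ∑ j, w₂ i j * x i * y j = 0 := by
  set L : Submodule ℝ (Mat (2 * m)) := Submodule.span ℝ (Set.range ρ ∪ {w₁, w₂}) with hL
  have hskew : ∀ θ ∈ L, Skew θ := by
    intro θ hθ
    rw [hL] at hθ
    induction hθ using Submodule.span_induction with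
    | mem x hx =>
      rcases hx with ⟨s, rfl⟩ | hx | hx
      · exact hρ s
      · rw [hx]; exact h₁
      · rw [Set.mem_singleton_iff] at hx
        rw [hx]; exact h₂
    | zero => intro i j; simp
    | add x y _ _ hx hy =>
      intro i j
      simp only [Pi.add_apply, hx i j, hy i j]
      ring
    | smul a x _ hx =>
      intro i j
      simp only [Pi.smul_apply, hx i j, smul_eq_mul]
      ring
  have hT : ∀ z ∈ Submodule.span ℂ (strictX ρ w₁ w₂) ^ m, T1 (2 * m) z = 0 := by
    intro z hz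
    rw [Submodule.span_pow] at hz
    induction hz using Submodule.span_induction with
    | mem x hx =>
      obtain ⟨r, j, k, f, hl, rfl⟩ := strict_pow ρ w₁ w₂ m x hx
      exact hall r j k hl f
    | zero => exact map_zero _
    | add x y _ _ hx hy => rw [map_add, hx, hy, add_zero]
    | smul a x _ hx => rw [map_smul, hx, smul_zero]
  have hdet : ∀ θ ∈ L, Matrix.det (Matrix.of θ) = 0 := by
    intro θ hθ
    refine det_eq_zero_of_T1 θ (hskew θ hθ) ?_
    exact hT _ (Submodule.pow_mem_pow _ (strict_mem ρ w₁ w₂ θ hθ) m)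
  obtain ⟨θ₀, hθ₀, hmax⟩ : ∃ θ₀ ∈ L, ∀ θ ∈ L, (Matrix.of θ).rank ≤ (Matrix.of θ₀).rank := by
    have hne : {k : ℕ | ∃ θ ∈ L, (Matrix.of θ).rank = k}.Nonempty := ⟨_, 0, L.zero_mem, rfl⟩
    have hbdd : BddAbove {k : ℕ | ∃ θ ∈ L, (Matrix.of θ).rank = k} := by
      refine ⟨2 * m, ?_⟩
      rintro _ ⟨θ, _, rfl⟩
      exact Matrix.rank_le_width _
    obtain ⟨θ₀, h1, h2⟩ := Nat.sSup_mem hne hbdd
    refine ⟨θ₀, h1, fun θ hθ => ?_⟩
    rw [h2]
    exact le_csSup hbdd ⟨θ, hθ, rfl⟩
  obtain ⟨x, y, hxy, hx, hy⟩ := exists_two_kernel (by simp) θ₀ (hskew θ₀ hθ₀) (hdet θ₀ hθ₀)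
  have key : ∀ θ ∈ L, ∑ i, ∑ j, θ i j * x i * y j = 0 := by
    intro θ hθ
    obtain ⟨z, hz⟩ := strict_maxrank (Matrix.of θ₀) (Matrix.of θ)
      (fun t => hmax (θ₀ + t • θ) (L.add_mem hθ₀ (L.smul_mem t hθ))) y
      (by funext i; exact hy i)
    have hz' : ∀ i, ∑ j, θ₀ i j * z j = ∑ j, θ i j * y j := fun i => congrFun hz i
    have hs := hskew θ₀ hθ₀
    calc ∑ i, ∑ j, θ i j * x i * y j = ∑ i, x i * ∑ j, θ i j * y j := by
          refine Finset.sum_congr rfl fun i _ => ?_
          rw [Finset.mul_sum]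
          exact Finset.sum_congr rfl fun j _ => by ring
      _ = ∑ i, x i * ∑ j, θ₀ i j * z j := by simp only [hz']
      _ = ∑ j, z j * -(∑ i, θ₀ j i * x i) := by
          simp only [Finset.mul_sum, mul_neg, ← Finset.sum_neg_distrib]
          rw [Finset.sum_comm]
          refine Finset.sum_congr rfl fun j _ => Finset.sum_congr rfl fun i _ => ?_
          rw [hs j i]
          ring
      _ = 0 := by simp [hx]
  exact ⟨x, y, hxy, fun s => key _ (Submodule.subset_span (Or.inl ⟨s, rfl⟩)),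
    key _ (Submodule.subset_span (Or.inr (Or.inl rfl))),
    key _ (Submodule.subset_span (Or.inr (Or.inr rfl)))⟩

end Pool.TwoForms
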