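import Pool.Agent.Lib.MP_4a593f_gt.TF.Flow
import Pool.Agent.Lib.MP_4a593f_gt.TF.GBT
import Pool.Agent.Lib.MP_4a593f_gt.TF.PSD
import Pool.Agent.Lib.MP_4a593f_gt.TF.Strict

/-!
The theorem of the two 2-forms.
-/

namespace Pool.TwoForms

open scoped BigOperators Nat

section center

variable {n : ℕ}

/-- the centre of the exterior algebra -/
abbrev CC (n : ℕ) := Subalgebra.center ℂ (GG n)

theorem mem_cc {x : GG n} (h : ∀ y, x * y = y * x) : x ∈ CC n :=
  Subalgebra.mem_center_iff.2 fun y => (h y).symm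

theorem DD_mem (x : CC n) : DD n (x : GG n) ∈ CC n := by
  refine mem_cc fun y => ?_
  have hx : ∀ y, (x : GG n) * y = y * x := fun y => (Subalgebra.mem_center_iff.1 x.2 y).symm
  have h1 := DD_mul (x : GG n) y
  have h2 := DD_mul y (x : GG n)
  rw [hx y, h2, hx (DD n y)] at h1
  have h3 := congrArg (fun z => z - DD n y * (x : GG n)) h1
  simpa using h3.symm

theorem DD'_mem (x : CC n) : DD' n (x : GG n) ∈ CC n := by
  refine mem_cc fun y => ?_
  have hx : ∀ y, (x : GG n) * y = y * x := fun y => (Subalgebra.mem_center_iff.1 x.2 y).symm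
  have h1 := DD'_mul (x : GG n) y
  have h2 := DD'_mul y (x : GG n)
  rw [hx y, h2, hx (DD' n y)] at h1
  have h3 := congrArg (fun z => z - DD' n y * (x : GG n)) h1
  simpa using h3.symm

/-- the derivation `DD` on the centre -/
noncomputable def dC (n : ℕ) : Derivation ℂ (CC n) (CC n) :=
  Derivation.mk'
    { toFun := fun x => ⟨DD n x, DD_mem x⟩
      map_add' := fun x y => by ext; simp
      map_smul' := fun r x => by ext; simp }
    (fun x y => by
      ext
      have hx : (DD n (x : GG n)) * y = y * DD n (x : GG n) :=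
        (Subalgebra.mem_center_iff.1 y.2 _)
      simp only [LinearMap.coe_mk, AddHom.coe_mk, smul_eq_mul, Subalgebra.coe_add,
        Subalgebra.coe_mul, DD_mul, hx]
      rw [add_comm])

/-- the derivation `DD'` on the centre -/
noncomputable def dC' (n : ℕ) : Derivation ℂ (CC n) (CC n) :=
  Derivation.mk'
    { toFun := fun x => ⟨DD' n x, DD'_mem x⟩
      map_add' := fun x y => by ext; simp
      map_smul' := fun r x => by ext; simp }
    (fun x y => by
      ext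
      have hx : (DD' n (x : GG n)) * y = y * DD' n (x : GG n) :=
        (Subalgebra.mem_center_iff.1 y.2 _)
      simp only [LinearMap.coe_mk, AddHom.coe_mk, smul_eq_mul, Subalgebra.coe_add,
        Subalgebra.coe_mul, DD'_mul, hx]
      rw [add_comm])

theorem dC_coe (x : CC n) : ((dC n x : CC n) : GG n) = DD n x := rfl

theorem dC'_coe (x : CC n) : ((dC' n x : CC n) : GG n) = DD' n x := rfl

/-- the flow identity in the exterior algebra -/
theorem flow_G {R : Ten n} (hR : IsCurvature R) {A B : Fin n → Fin n → ℂ} (hA : SkewC A)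
    (hB : SkewC B) (m : ℕ) :
    TT n (rr R ^ m) / (m ! : ℂ) =
      ∑ j ∈ Finset.range (m + 1), ∑ k ∈ Finset.range (m + 1 - j),
        ((cf j k : ℕ) : ℂ) / (2 ^ (j + k) * (j ! : ℂ) * (k ! : ℂ) * ((m - j - k)! : ℂ)) *
          TT n ((rr R - ((1 / 2 : ℂ) • (fa B * fb A + fa A * fb B)
            - (1 / 2 : ℂ) • (fw A * fw B))) ^ (m - j - k)
            * ((fa B * fb A) ^ j * (fa A * fb B) ^ k)) := by
  have h := flow (A := CC n) (dC n) (dC' n) ((TT n).comp (CC n).val.toLinearMap)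
    (fun x => TT_DD _) (fun x => TT_DD' _)
    ⟨rr R, mem_cc (rr_comm R)⟩ ⟨fa A, mem_cc (fa_comm A)⟩ ⟨fa B, mem_cc (fa_comm B)⟩
    ⟨fb A, mem_cc (fb_comm A)⟩ ⟨fb B, mem_cc (fb_comm B)⟩
    ⟨fw A, mem_cc (fw_comm A)⟩ ⟨fw B, mem_cc (fw_comm B)⟩
    (Subtype.ext (DD_rr hR)) (Subtype.ext (DD'_rr hR))
    (Subtype.ext (DD_fa hA)) (Subtype.ext (DD_fa hB))
    (Subtype.ext (DD_fw A)) (Subtype.ext (DD_fw B))
    (Subtype.ext (DD_fb A)) (Subtype.ext (DD_fb B))
    (Subtype.ext (DD'_fb hA)) (Subtype.ext (DD'_fb hB))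
    (Subtype.ext (DD'_fw A)) (Subtype.ext (DD'_fw B))
    (Subtype.ext (DD'_fa A)) (Subtype.ext (DD'_fa B)) m
  exact h

end center

section main

variable {n : ℕ}

theorem skewC_om {w₁ w₂ : Mat n} (h₁ : Skew w₁) (h₂ : Skew w₂) : SkewC (om w₁ w₂) := by
  intro i j
  unfold om
  rw [h₁ i j, h₂ i j]
  push_cast
  ring

theorem skewC_omb {w₁ w₂ : Mat n} (h₁ : Skew w₁) (h₂ : Skew w₂) : SkewC (omb w₁ w₂) := by
  intro i j
  unfold omb
  rw [h₁ i j, h₂ i j]
  push_cast
  ring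

theorem fa_om (w₁ w₂ : Mat n) : fa (om w₁ w₂) = fa (toC w₁) + Complex.I • fa (toC w₂) := by
  unfold fa om toC
  simp only [add_smul, Finset.sum_add_distrib, smul_add, mul_smul, ← Finset.smul_sum]
  rw [smul_comm Complex.I]

theorem fa_omb (w₁ w₂ : Mat n) : fa (omb w₁ w₂) = fa (toC w₁) - Complex.I • fa (toC w₂) := by
  unfold fa omb toC
  simp only [sub_smul, Finset.sum_sub_distrib, smul_sub, mul_smul, ← Finset.smul_sum]
  rw [smul_comm Complex.I]

theorem fb_om (w₁ w₂ : Mat n) : fb (om w₁ w₂) = fb (toC w₁) + Complex.I • fb (toC w₂) := by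
  unfold fb om toC
  simp only [add_smul, Finset.sum_add_distrib, smul_add, mul_smul, ← Finset.smul_sum]
  rw [smul_comm Complex.I]

theorem fb_omb (w₁ w₂ : Mat n) : fb (omb w₁ w₂) = fb (toC w₁) - Complex.I • fb (toC w₂) := by
  unfold fb omb toC
  simp only [sub_smul, Finset.sum_sub_distrib, smul_sub, mul_smul, ← Finset.smul_sum]
  rw [smul_comm Complex.I]

theorem fw_om (w₁ w₂ : Mat n) : fw (om w₁ w₂) = fw (toC w₁) + Complex.I • fw (toC w₂) := by
  unfold fw om toC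
  simp only [add_smul, Finset.sum_add_distrib, mul_smul, ← Finset.smul_sum]

theorem fw_omb (w₁ w₂ : Mat n) : fw (omb w₁ w₂) = fw (toC w₁) - Complex.I • fw (toC w₂) := by
  unfold fw omb toC
  simp only [sub_smul, Finset.sum_sub_distrib, mul_smul, ← Finset.smul_sum]

/-- the two tensors in complex form -/
theorem rr_two (w₁ w₂ : Mat n) :
    rr (wsq w₁) + rr (wsq w₂)
      = (1 / 2 : ℂ) • (fa (omb w₁ w₂) * fb (om w₁ w₂) + fa (om w₁ w₂) * fb (omb w₁ w₂))
        - (1 / 2 : ℂ) • (fw (om w₁ w₂) * fw (omb w₁ w₂)) := by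
  rw [rr_wsq, rr_wsq, fa_om, fa_omb, fb_om, fb_omb, fw_om, fw_omb]
  change fa (toC w₁) * fb (toC w₁) - (1 / 2 : ℂ) • (fw (toC w₁) * fw (toC w₁))
    + (fa (toC w₂) * fb (toC w₂) - (1 / 2 : ℂ) • (fw (toC w₂) * fw (toC w₂))) = _
  simp only [add_mul, sub_mul, mul_add, mul_sub, smul_mul_assoc, mul_smul_comm]
  rw [fw_comm (toC w₂) (fw (toC w₁))]
  match_scalars <;> ring_nf <;> simp [Complex.I_sq] <;> norm_num

theorem cf_pos (j k : ℕ) : 0 < cf j k := by
  unfold cf
  split_ifs with h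
  · omega
  · omega

/-- the sum of squares formula -/
theorem gb_formula (m : ℕ) (R : Ten (2 * m)) (hR : IsCurvature R) (w₁ w₂ : Mat (2 * m))
    (h₁ : Skew w₁) (h₂ : Skew w₂) {S : Type} [Fintype S] (ρ : S → Mat (2 * m))
    (hρ : ∀ i j k l, R i j k l - (wsq w₁ i j k l + wsq w₂ i j k l) = ∑ s, ρ s i j * ρ s k l) :
    gb m R = 4 ^ m * (m ! : ℝ) * ∑ j ∈ Finset.range (m + 1), ∑ k ∈ Finset.range (m + 1 - j),
      ((cf j k : ℕ) : ℝ) / (2 ^ (j + k) * (j ! : ℝ) * (k ! : ℝ) * ((m - j - k)! : ℝ)) *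
        ∑ f : Fin (m - j - k) → S, Complex.normSq (T1 (2 * m) (pf ρ w₁ w₂ f j k)) := by
  have h := flow_G hR (skewC_om h₁ h₂) (skewC_omb h₁ h₂) m
  have hX : rr R - ((1 / 2 : ℂ) • (fa (omb w₁ w₂) * fb (om w₁ w₂)
      + fa (om w₁ w₂) * fb (omb w₁ w₂)) - (1 / 2 : ℂ) • (fw (om w₁ w₂) * fw (omb w₁ w₂)))
      = ∑ s, fa (toC (ρ s)) * fb (toC (ρ s)) := by
    rw [← rr_two, ← rr_add, ← rr_sub]
    have : (fun i j k l => R i j k l - (wsq w₁ i j k l + wsq w₂ i j k l))
        = fun i j k l => ∑ s, ρ s i j * ρ s k l := by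
      funext i j k l
      exact hρ i j k l
    rw [this, rr_sq]
    rfl
  rw [hX, TT_rr_pow] at h
  simp only [TT_pos] at h
  have h' : ((gb m R : ℝ) : ℂ) = ((4 ^ m * (m ! : ℝ) * ∑ j ∈ Finset.range (m + 1),
      ∑ k ∈ Finset.range (m + 1 - j),
      ((cf j k : ℕ) : ℝ) / (2 ^ (j + k) * (j ! : ℝ) * (k ! : ℝ) * ((m - j - k)! : ℝ)) *
        ∑ f : Fin (m - j - k) → S, Complex.normSq (T1 (2 * m) (pf ρ w₁ w₂ f j k)) : ℝ) : ℂ) := by
    push_cast at h ⊢
    rw [← h]
    have hm : ((m ! : ℕ) : ℂ) ≠ 0 := by exact_mod_cast Nat.factorial_ne_zero m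
    have h4 : (4 : ℂ) ^ m * (1 / 4 : ℂ) ^ m = 1 := by
      rw [← mul_pow]; norm_num
    have h5 : (4 : ℂ) ^ m * ((m ! : ℕ) : ℂ) * ((1 / 4) ^ m * ((gb m R : ℝ) : ℂ) / ((m ! : ℕ) : ℂ))
        = (4 ^ m * (1 / 4 : ℂ) ^ m) * ((gb m R : ℝ) : ℂ) * (((m ! : ℕ) : ℂ) / ((m ! : ℕ) : ℂ)) := by
      ring
    rw [h5, h4, div_self hm]
    ring
  exact_mod_cast h'

theorem sum_four (a b : Fin n → Fin n → ℝ) :
    ∑ i, ∑ j, ∑ k, ∑ l, a i j * b k l = (∑ i, ∑ j, a i j) * ∑ k, ∑ l, b k l := by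
  rw [Finset.sum_mul]
  refine Finset.sum_congr rfl fun i _ => ?_
  rw [Finset.sum_mul]
  refine Finset.sum_congr rfl fun j _ => ?_
  rw [Finset.mul_sum]
  refine Finset.sum_congr rfl fun k _ => ?_
  rw [Finset.mul_sum]

theorem sum_zero_of {R : Ten n} {S : Type} [Fintype S] (ρ : S → Mat n) (w₁ w₂ : Mat n)
    (h₁ : Skew w₁) (h₂ : Skew w₂)
    (hR : ∀ i j k l, R i j k l = ∑ s, ρ s i j * ρ s k l + (wsq w₁ i j k l + wsq w₂ i j k l))
    (x y : Fin n → ℝ) (hx1 : ∀ s, ∑ i, ∑ j, ρ s i j * x i * y j = 0)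
    (hx2 : ∑ i, ∑ j, w₁ i j * x i * y j = 0) (hx3 : ∑ i, ∑ j, w₂ i j * x i * y j = 0) :
    ∑ i, ∑ j, ∑ k, ∑ l, R i j k l * x i * y j * x k * y l = 0 := by
  have hw : ∀ w : Mat n, Skew w → ∑ i, ∑ j, w i j * x i * y j = 0 →
      ∑ i, ∑ j, ∑ k, ∑ l, wsq w i j k l * x i * y j * x k * y l = 0 := by
    intro w hs hz
    have e1 : ∑ i, ∑ j, ∑ k, ∑ l, (w i k * w j l) * x i * y j * x k * y l = 0 := by
      have hxx : ∑ i, ∑ j, w i j * x i * x j = 0 := by
        have : ∑ i, ∑ j, w i j * x i * x j = - ∑ i, ∑ j, w i j * x i * x j := by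
          conv_lhs => rw [Finset.sum_comm]
          rw [← Finset.sum_neg_distrib]
          refine Finset.sum_congr rfl fun i _ => ?_
          rw [← Finset.sum_neg_distrib]
          refine Finset.sum_congr rfl fun j _ => ?_
          rw [hs i j]; ring
        linarith
      have h := sum_four (fun i k => w i k * x i * x k) (fun j l => w j l * y j * y l)
      rw [hxx, zero_mul] at h
      rw [← h]
      refine Finset.sum_congr rfl fun i _ => ?_
      rw [Finset.sum_comm]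
      refine Finset.sum_congr rfl fun k _ => Finset.sum_congr rfl fun j _ =>
        Finset.sum_congr rfl fun l _ => ?_
      ring
    have e2 : ∑ i, ∑ j, ∑ k, ∑ l, (w i l * w j k) * x i * y j * x k * y l = 0 := by
      have h := sum_four (fun i l => w i l * x i * y l) (fun j k => w j k * y j * x k)
      rw [hz, zero_mul] at h
      rw [← h]
      refine Finset.sum_congr rfl fun i _ => ?_
      have : ∀ j, ∑ k, ∑ l, (w i l * w j k) * x i * y j * x k * y l
          = ∑ l, ∑ k, (w i l * w j k) * x i * y j * x k * y l := fun j => Finset.sum_comm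
      simp only [this]
      rw [Finset.sum_comm]
      refine Finset.sum_congr rfl fun l _ => Finset.sum_congr rfl fun j _ =>
        Finset.sum_congr rfl fun k _ => ?_
      ring
    have e3 : ∑ i, ∑ j, ∑ k, ∑ l, (w i j * w k l) * x i * y j * x k * y l = 0 := by
      have h := sum_four (fun i j => w i j * x i * y j) (fun k l => w k l * x k * y l)
      rw [hz, zero_mul] at h
      rw [← h]
      refine Finset.sum_congr rfl fun i _ => Finset.sum_congr rfl fun j _ =>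
        Finset.sum_congr rfl fun k _ => Finset.sum_congr rfl fun l _ => ?_
      ring
    unfold wsq
    simp only [add_mul, sub_mul, Finset.sum_add_distrib, Finset.sum_sub_distrib]
    rw [e1, e2, e3]
    ring
  have e0 : ∑ i, ∑ j, ∑ k, ∑ l, (∑ s, ρ s i j * ρ s k l) * x i * y j * x k * y l = 0 := by
    have h : ∀ s, ∑ i, ∑ j, ∑ k, ∑ l, (ρ s i j * x i * y j) * (ρ s k l * x k * y l) = 0 := by
      intro s
      rw [sum_four (fun i j => ρ s i j * x i * y j) (fun k l => ρ s k l * x k * y l), hx1 s,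
        zero_mul]
    have h' : ∑ s, ∑ i, ∑ j, ∑ k, ∑ l, (ρ s i j * x i * y j) * (ρ s k l * x k * y l) = 0 :=
      Finset.sum_eq_zero fun s _ => h s
    rw [← h']
    symm
    rw [Finset.sum_comm]
    refine Finset.sum_congr rfl fun i _ => ?_
    rw [Finset.sum_comm]
    refine Finset.sum_congr rfl fun j _ => ?_
    rw [Finset.sum_comm]
    refine Finset.sum_congr rfl fun k _ => ?_
    rw [Finset.sum_comm]
    refine Finset.sum_congr rfl fun l _ => ?_
    simp only [Finset.sum_mul]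
    refine Finset.sum_congr rfl fun s _ => ?_
    ring
  simp only [hR, add_mul, Finset.sum_add_distrib]
  rw [e0, hw w₁ h₁ hx2, hw w₂ h₂ hx3]
  ring

/-- **Two 2-forms.** -/
theorem main (m : ℕ) (R : Ten (2 * m)) (hR : IsCurvature R) (w₁ w₂ : Mat (2 * m))
    (h₁ : Skew w₁) (h₂ : Skew w₂)
    (hP : NonnegOnForms fun i j k l => R i j k l - (wsq w₁ i j k l + wsq w₂ i j k l)) :
    0 ≤ gb m R ∧ (SecPos R → 0 < gb m R) := by
  obtain ⟨ρ, hρs, hρ⟩ := exists_sq (fun i j k l => R i j k l - (wsq w₁ i j k l + wsq w₂ i j k l))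
    (by intro i j k l; simp only [wsq, hR.skew_left i j, h₁ i j, h₂ i j]; ring)
    (by intro i j k l; simp only [wsq, hR.skew_right i j k l, h₁ k l, h₂ k l]; ring)
    (by
      intro i j k l
      simp only [wsq, hR.pair i j k l, h₁ i k, h₁ j l, h₁ i l, h₁ j k, h₂ i k, h₂ j l, h₂ i l,
        h₂ j k]
      ring) hP
  have hg := gb_formula m R hR w₁ w₂ h₁ h₂ ρ hρ
  have hnn : ∀ j k : ℕ, 0 ≤ ((cf j k : ℕ) : ℝ) /
      (2 ^ (j + k) * (j ! : ℝ) * (k ! : ℝ) * ((m - j - k)! : ℝ)) *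
        ∑ f : Fin (m - j - k) → Fin (2 * m) × Fin (2 * m),
          Complex.normSq (T1 (2 * m) (pf ρ w₁ w₂ f j k)) := by
    intro j k
    have : 0 ≤ ∑ f : Fin (m - j - k) → Fin (2 * m) × Fin (2 * m),
          Complex.normSq (T1 (2 * m) (pf ρ w₁ w₂ f j k)) :=
      Finset.sum_nonneg fun f _ => Complex.normSq_nonneg _
    positivity
  have h0 : 0 ≤ gb m R := by
    rw [hg]
    have : 0 ≤ ∑ j ∈ Finset.range (m + 1), ∑ k ∈ Finset.range (m + 1 - j),
      ((cf j k : ℕ) : ℝ) / (2 ^ (j + k) * (j ! : ℝ) * (k ! : ℝ) * ((m - j - k)! : ℝ)) *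
        ∑ f : Fin (m - j - k) → Fin (2 * m) × Fin (2 * m),
          Complex.normSq (T1 (2 * m) (pf ρ w₁ w₂ f j k)) :=
      Finset.sum_nonneg fun j _ => Finset.sum_nonneg fun k _ => hnn j k
    positivity
  refine ⟨h0, fun hsec => lt_of_le_of_ne h0 fun hz => ?_⟩
  have hsum : ∑ j ∈ Finset.range (m + 1), ∑ k ∈ Finset.range (m + 1 - j),
      ((cf j k : ℕ) : ℝ) / (2 ^ (j + k) * (j ! : ℝ) * (k ! : ℝ) * ((m - j - k)! : ℝ)) *
        ∑ f : Fin (m - j - k) → Fin (2 * m) × Fin (2 * m),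
          Complex.normSq (T1 (2 * m) (pf ρ w₁ w₂ f j k)) = 0 := by
    rw [hg] at hz
    have hc : (4 : ℝ) ^ m * (m ! : ℝ) ≠ 0 := by positivity
    exact (mul_eq_zero.1 hz.symm).resolve_left hc
  have hall : ∀ r j k : ℕ, r + j + k = m → ∀ f : Fin r → Fin (2 * m) × Fin (2 * m),
      T1 (2 * m) (pf ρ w₁ w₂ f j k) = 0 := by
    intro r j k hrjk
    obtain rfl : r = m - j - k := by omega
    intro f
    have e1 := (Finset.sum_eq_zero_iff_of_nonneg
      (fun j _ => Finset.sum_nonneg fun k _ => hnn j k)).1 hsum j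
      (Finset.mem_range.2 (by omega))
    have e2 := (Finset.sum_eq_zero_iff_of_nonneg (fun k _ => hnn j k)).1 e1 k
      (Finset.mem_range.2 (by omega))
    have hc : ((cf j k : ℕ) : ℝ) / (2 ^ (j + k) * (j ! : ℝ) * (k ! : ℝ) * ((m - j - k)! : ℝ)) ≠ 0 := by
      have := cf_pos j k
      positivity
    have e3 := (mul_eq_zero.1 e2).resolve_left hc
    have e4 := (Finset.sum_eq_zero_iff_of_nonneg
      (fun f _ => Complex.normSq_nonneg _)).1 e3 f (Finset.mem_univ _)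
    exact Complex.normSq_eq_zero.1 e4
  obtain ⟨x, y, hxy, hx1, hx2, hx3⟩ := exists_plane ρ w₁ w₂ hρs h₁ h₂ hall
  have hpos := hsec x y hxy
  have hR' : ∀ i j k l, R i j k l = ∑ s, ρ s i j * ρ s k l + (wsq w₁ i j k l + wsq w₂ i j k l) := by
    intro i j k l
    rw [← hρ i j k l]; ring
  have hzero := sum_zero_of ρ w₁ w₂ h₁ h₂ hR' x y hx1 hx2 hx3
  rw [hzero] at hpos
  exact lt_irrefl _ hpos

end main

end Pool.TwoForms
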