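import Pool.Agent.Lib.MP_4a593f_gt.TF.Conj

/-!
Positivity of the terms of the flow identity.
-/

namespace Pool.TwoForms

open scoped BigOperators

variable {n : ℕ}

/-- complex arrays of real ones -/
def toC (w : Mat n) : Fin n → Fin n → ℂ := fun i j => (w i j : ℂ)

/-- `ω = w₁ + i w₂` -/
noncomputable def om (w₁ w₂ : Mat n) : Fin n → Fin n → ℂ :=
  fun i j => (w₁ i j : ℂ) + Complex.I * (w₂ i j : ℂ)

/-- the conjugate of `ω` -/
noncomputable def omb (w₁ w₂ : Mat n) : Fin n → Fin n → ℂ :=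
  fun i j => (w₁ i j : ℂ) - Complex.I * (w₂ i j : ℂ)

/-- `ρ_{f 0} ... ρ_{f (r-1)} ω̄^j ω^k` -/
noncomputable def pf {S : Type} (ρ : S → Mat n) (w₁ w₂ : Mat n) {r : ℕ} (f : Fin r → S)
    (j k : ℕ) : G (Fin n) :=
  (List.ofFn fun t => tf (toC (ρ (f t)))).prod * (tf (omb w₁ w₂) ^ j * tf (om w₁ w₂) ^ k)

/-- the power of a sum as a sum over functions, without commutativity -/
private theorem pos_sum_pow {S : Type} [Fintype S] (x : S → GG n) (r : ℕ) :
    (∑ s, x s) ^ r = ∑ f : Fin r → S, (List.ofFn fun t => x (f t)).prod := by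
  have h := MultilinearMap.map_sum (MultilinearMap.mkPiAlgebraFin ℂ r (GG n))
    (fun (_ : Fin r) (s : S) => x s)
  simp only [MultilinearMap.mkPiAlgebraFin_apply] at h
  rw [← h, List.ofFn_const, List.prod_replicate]

/-- a product of `fa A * fb B` is split in the two copies -/
private theorem pos_list (L : List ((Fin n → Fin n → ℂ) × (Fin n → Fin n → ℂ))) :
    (L.map fun p => fa p.1 * fb p.2).prod =
      inc₁ n (L.map fun p => tf p.1).prod * inc₂ n (L.map fun p => tf p.2).prod := by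
  induction L with
  | nil => simp
  | cons p L ih =>
    rw [List.map_cons, List.map_cons, List.map_cons, List.prod_cons, List.prod_cons,
      List.prod_cons, ih, map_mul, map_mul, inc₁_tf, inc₂_tf]
    calc fa p.1 * fb p.2 * (inc₁ n (L.map fun p => tf p.1).prod *
          inc₂ n (L.map fun p => tf p.2).prod)
        = fa p.1 * (fb p.2 * inc₁ n (L.map fun p => tf p.1).prod) *
          inc₂ n (L.map fun p => tf p.2).prod := by simp only [mul_assoc]
      _ = fa p.1 * (inc₁ n (L.map fun p => tf p.1).prod * fb p.2) *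
          inc₂ n (L.map fun p => tf p.2).prod := by rw [fb_comm]
      _ = fa p.1 * inc₁ n (L.map fun p => tf p.1).prod *
          (fb p.2 * inc₂ n (L.map fun p => tf p.2).prod) := by simp only [mul_assoc]

/-- the list of all factors -/
private noncomputable def posL {S : Type} (ρ : S → Mat n) (w₁ w₂ : Mat n) {r : ℕ} (f : Fin r → S)
    (j k : ℕ) : List ((Fin n → Fin n → ℂ) × (Fin n → Fin n → ℂ)) :=
  (List.ofFn fun t => (toC (ρ (f t)), toC (ρ (f t)))) ++
    (List.replicate j (omb w₁ w₂, om w₁ w₂) ++ List.replicate k (om w₁ w₂, omb w₁ w₂))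

private theorem posL_conj {S : Type} (ρ : S → Mat n) (w₁ w₂ : Mat n) {r : ℕ} (f : Fin r → S)
    (j k : ℕ) (p : (Fin n → Fin n → ℂ) × (Fin n → Fin n → ℂ)) (hp : p ∈ posL ρ w₁ w₂ f j k) :
    p.2 = fun i j => (starRingEnd ℂ) (p.1 i j) := by
  rw [posL, List.mem_append, List.mem_append, List.mem_ofFn', Set.mem_range] at hp
  rcases hp with ⟨t, rfl⟩ | hp | hp
  · funext a b
    simp only [toC, Complex.conj_ofReal]
  · rw [List.eq_of_mem_replicate hp]
    funext a b
    simp only [om, omb, map_sub, map_mul, Complex.conj_ofReal, Complex.conj_I]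
    ring
  · rw [List.eq_of_mem_replicate hp]
    funext a b
    simp only [om, omb, map_add, map_mul, Complex.conj_ofReal, Complex.conj_I]
    ring

/-- **Positivity of the terms.** PROOF. Everything commutes (`fa_comm`, `fb_comm`), so
`(∑ s, fa ρ_s * fb ρ_s)^r = ∑_f ∏_t fa ρ_{f t} * ∏_t fb ρ_{f t}` and the whole product is
`∑_f inc₁ (pf f j k) * inc₂ (pf' f j k)` with `pf'` the same with `ω`, `ω̄` exchanged; use `TT_mul`
(`inc₁_tf`, `inc₂_tf`, `tf_mem_Ev`) and `T1_conj`. -/
theorem TT_pos {S : Type} [Fintype S] (ρ : S → Mat n) (w₁ w₂ : Mat n) (r j k : ℕ) :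
    TT n ((∑ s, fa (toC (ρ s)) * fb (toC (ρ s))) ^ r *
      ((fa (omb w₁ w₂) * fb (om w₁ w₂)) ^ j * (fa (om w₁ w₂) * fb (omb w₁ w₂)) ^ k))
      = ((∑ f : Fin r → S, Complex.normSq (T1 n (pf ρ w₁ w₂ f j k)) : ℝ) : ℂ) := by
  rw [pos_sum_pow, Finset.sum_mul, map_sum, Complex.ofReal_sum]
  refine Finset.sum_congr rfl fun f _ => ?_
  have h1 : (List.ofFn fun t => fa (toC (ρ (f t))) * fb (toC (ρ (f t)))).prod *
      ((fa (omb w₁ w₂) * fb (om w₁ w₂)) ^ j * (fa (om w₁ w₂) * fb (omb w₁ w₂)) ^ k) =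
      ((posL ρ w₁ w₂ f j k).map fun p => fa p.1 * fb p.2).prod := by
    rw [posL, List.map_append, List.map_append, List.prod_append, List.prod_append,
      List.map_replicate, List.map_replicate, List.prod_replicate, List.prod_replicate,
      List.map_ofFn]
    rfl
  have h2 : ((posL ρ w₁ w₂ f j k).map fun p => tf p.1).prod = pf ρ w₁ w₂ f j k := by
    rw [posL, List.map_append, List.map_append, List.prod_append, List.prod_append,
      List.map_replicate, List.map_replicate, List.prod_replicate, List.prod_replicate,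
      List.map_ofFn]
    rfl
  have h3 : ((posL ρ w₁ w₂ f j k).map fun p => tf p.2) =
      ((posL ρ w₁ w₂ f j k).map Prod.fst).map
        fun A => tf fun i j => (starRingEnd ℂ) (A i j) := by
    rw [List.map_map]
    refine List.map_congr_left fun p hp => ?_
    rw [posL_conj ρ w₁ w₂ f j k p hp]
    rfl
  have hEv : pf ρ w₁ w₂ f j k ∈ Ev n := by
    rw [← h2]
    refine list_prod_mem fun x hx => ?_
    obtain ⟨p, _, rfl⟩ := List.mem_map.1 hx
    exact tf_mem_Ev _
  have h4 : T1 n ((posL ρ w₁ w₂ f j k).map fun p => tf p.2).prod =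
      (starRingEnd ℂ) (T1 n (pf ρ w₁ w₂ f j k)) := by
    rw [h3, T1_conj, List.map_map]
    rw [← h2]
    rfl
  rw [h1, pos_list, h2, TT_mul _ _ hEv, h4, Complex.mul_conj]

end Pool.TwoForms
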