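import Pool.Agent.Lib.MP_4a593f_gt.TF.Defs

/-!
Sharpness: three 2-forms are not enough in dimension 6.
-/

namespace Pool.TwoForms

open scoped BigOperators

/-- three forms on `ℝ⁶ = ℝ³ ⊗ ℝ²`: `w_a (2i+s) (2j+t) = ε_{aij} δ_{st}` -/
def wEx (a : Fin 3) : Mat (2 * 3) := fun p q =>
  if p.1 % 2 = q.1 % 2 then
    (if (p.1 / 2, q.1 / 2) = ((a.1 + 1) % 3, (a.1 + 2) % 3) then 1
     else if (p.1 / 2, q.1 / 2) = ((a.1 + 2) % 3, (a.1 + 1) % 3) then -1 else 0)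
  else 0

/-- the curvature tensor `∑_a (Λ²w_a + 2 w_a ⊗ w_a)` -/
def rEx : Ten (2 * 3) := fun i j k l => ∑ a : Fin 3, (wsq (wEx a) i j k l + wEx a i j * wEx a k l)

/-! ### integer versions -/

private def sharpW (a : Fin 3) (p q : Fin (2 * 3)) : ℤ :=
  if p.1 % 2 = q.1 % 2 then
    (if (p.1 / 2, q.1 / 2) = ((a.1 + 1) % 3, (a.1 + 2) % 3) then 1
     else if (p.1 / 2, q.1 / 2) = ((a.1 + 2) % 3, (a.1 + 1) % 3) then -1 else 0)
  else 0

private theorem sharpW_cast (a : Fin 3) (p q : Fin (2 * 3)) : wEx a p q = (sharpW a p q : ℝ) := by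
  unfold wEx sharpW
  split_ifs <;> simp

private def sharpR (i j k l : Fin (2 * 3)) : ℤ :=
  ∑ a : Fin 3, (sharpW a i k * sharpW a j l - sharpW a i l * sharpW a j k +
    sharpW a i j * sharpW a k l + sharpW a i j * sharpW a k l)

private theorem sharpR_cast (i j k l : Fin (2 * 3)) : rEx i j k l = (sharpR i j k l : ℝ) := by
  unfold rEx sharpR wsq
  rw [Int.cast_sum]
  refine Finset.sum_congr rfl fun a _ => ?_
  simp only [sharpW_cast]
  push_cast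
  ring

private def sharpT : ℕ := 0x6db6db6db6db6db6db6db6db6db6db6db6db6dc6db4db6db71b6d36f36db75b0db6d96db6db6db6db6db6db8db69b6db6db6db6db6db6dbcdb6dd6db6db6db0db6d96db6db6db6e36db6db6db69b6db6db6db6db6db6da6db8db6db69b6e36db6db6db6db6db6db6db6db6db6dc6db6db6db6d36db6db6db6db6eb6db79b2db6d86db6db6db6db6db71b6db6db6db6db6db6d36db6dbadb6de6db6db6db2db6d86db6c36db65bcdb6dd6db6db6db6db6da6db6db6db6e36db6db6db6db6db6db6db6db6db6db6db6db6db71b6d36db6db6db6db6db71b6d36db6db6db6dbcdb6dd6c36db65b6db6db6db6db6db6e36da6db6db6db6db4db71b6db6db6db6db6db6cb6db61badb6de6db6db6db6db69b6e36db6db6db6db6db69b6e36db6db6db6db6db6db6db6db6db6db6db6db6db71b6db6db6db4db6db6db6db6dbadb6de6cb6db61b6db0db6d96db6db6dbcdb6dd6db6db69b6db6db6db6db6db6e36db6db6db6db6db0db6d96f36db75b6db6db6db6db69b6db6db6db8db6db6db6db6db6db6db6db6db6db71b6d36db6dc6db4db6db6db6db6db6db6d36db6db6db71b6db6db6db2db6d86db6db6dbadb6de6db6db6db6db6db6db6d36dc6db6db6db6db6db6db2db6d86eb6db79b69b6e36db6da6db8db6db6db6db6db6db6db6db6db6db6db6db6db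

private def sharpL : ℕ → ℕ → ℤ := fun p q => ((sharpT / 8 ^ (36 * p + q) % 8 : ℕ) : ℤ) - 3

private def sharpC (i j : Fin (2 * 3)) : ℕ := 6 * i.1 + j.1

set_option maxRecDepth 20000 in
private theorem sharpR_tab : ∀ i j k l : Fin (2 * 3),
    sharpR i j k l = sharpL (sharpC i j) (sharpC k l) := by
  decide +kernel

private def sharpQ : List (ℤ × ℕ × ℕ × ℕ) :=
    [(1, 1, 15, 29), (-1, 1, 16, 23), (1, 1, 17, 22), (1, 1, 22, 17), (-1, 1, 23, 16)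
    , (1, 1, 29, 15), (-1, 2, 9, 29), (1, 2, 10, 23), (-1, 2, 11, 22), (-1, 2, 22, 11)
    , (1, 2, 23, 10), (-1, 2, 29, 9), (1, 3, 8, 29), (-1, 3, 10, 17), (1, 3, 11, 16), (1, 3, 16, 11)
    , (-1, 3, 17, 10), (1, 3, 29, 8), (-1, 4, 8, 23), (1, 4, 9, 17), (-1, 4, 11, 15)
    , (-1, 4, 15, 11), (1, 4, 17, 9), (-1, 4, 23, 8), (1, 5, 8, 22), (-1, 5, 9, 16), (1, 5, 10, 15)
    , (1, 5, 15, 10), (-1, 5, 16, 9), (1, 5, 22, 8), (1, 8, 3, 29), (-1, 8, 4, 23), (1, 8, 5, 22)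
    , (1, 8, 22, 5), (-1, 8, 23, 4), (1, 8, 29, 3), (-1, 9, 2, 29), (1, 9, 4, 17), (-1, 9, 5, 16)
    , (-1, 9, 16, 5), (1, 9, 17, 4), (-1, 9, 29, 2), (1, 10, 2, 23), (-1, 10, 3, 17), (1, 10, 5, 15)
    , (1, 10, 15, 5), (-1, 10, 17, 3), (1, 10, 23, 2), (-1, 11, 2, 22), (1, 11, 3, 16)
    , (-1, 11, 4, 15), (-1, 11, 15, 4), (1, 11, 16, 3), (-1, 11, 22, 2), (1, 15, 1, 29)
    , (-1, 15, 4, 11), (1, 15, 5, 10), (1, 15, 10, 5), (-1, 15, 11, 4), (1, 15, 29, 1)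
    , (-1, 16, 1, 23), (1, 16, 3, 11), (-1, 16, 5, 9), (-1, 16, 9, 5), (1, 16, 11, 3)
    , (-1, 16, 23, 1), (1, 17, 1, 22), (-1, 17, 3, 10), (1, 17, 4, 9), (1, 17, 9, 4)
    , (-1, 17, 10, 3), (1, 17, 22, 1), (1, 22, 1, 17), (-1, 22, 2, 11), (1, 22, 5, 8), (1, 22, 8, 5)
    , (-1, 22, 11, 2), (1, 22, 17, 1), (-1, 23, 1, 16), (1, 23, 2, 10), (-1, 23, 4, 8)
    , (-1, 23, 8, 4), (1, 23, 10, 2), (-1, 23, 16, 1), (1, 29, 1, 15), (-1, 29, 2, 9), (1, 29, 3, 8)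
    , (1, 29, 8, 3), (-1, 29, 9, 2), (1, 29, 15, 1)]

private def sharpV (x y : ℤ × ℕ × ℕ × ℕ) : ℤ :=
  x.1 * y.1 * (sharpL x.2.1 y.2.1 * sharpL x.2.2.1 y.2.2.1 * sharpL x.2.2.2 y.2.2.2)

set_option maxRecDepth 20000 in
private theorem sharp_val :
    (sharpQ.map fun x => (sharpQ.map fun y => sharpV x y).sum).sum = -144 := by
  decide +kernel

private def sharpK (σ : Equiv.Perm (Fin (2 * 3))) : ℤ × ℕ × ℕ × ℕ :=
  ((Equiv.Perm.sign σ : ℤ), sharpC (σ 0) (σ 1), sharpC (σ 2) (σ 3), sharpC (σ 4) (σ 5))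

private def sharpA : Finset (Equiv.Perm (Fin (2 * 3))) :=
  ((Finset.univ.filter fun σ => σ 0 < σ 1).filter fun σ => σ 2 < σ 3).filter fun σ => σ 4 < σ 5

set_option maxRecDepth 20000 in
private theorem sharpA_keys : sharpA.val.map sharpK = (sharpQ : Multiset (ℤ × ℕ × ℕ × ℕ)) := by
  decide +kernel

/-! ### halving a sum -/

private theorem sharp_half (A : Finset (Equiv.Perm (Fin (2 * 3)))) (s : Equiv.Perm (Fin (2 * 3)))
    (hs : s * s = 1) (hA : ∀ σ, σ ∈ A → σ * s ∈ A) (p : Equiv.Perm (Fin (2 * 3)) → Prop)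
    [DecidablePred p] (hp : ∀ σ, p (σ * s) ↔ ¬ p σ) (F : Equiv.Perm (Fin (2 * 3)) → ℤ)
    (hF : ∀ σ, F (σ * s) = F σ) : ∑ σ ∈ A, F σ = 2 * ∑ σ ∈ A.filter p, F σ := by
  have h1 : ∑ σ ∈ A.filter (fun σ => ¬ p σ), F σ = ∑ σ ∈ A.filter p, F σ := by
    refine Finset.sum_nbij' (fun σ => σ * s) (fun σ => σ * s) ?_ ?_ ?_ ?_ ?_
    · intro σ hσ
      rw [Finset.mem_filter] at hσ ⊢
      exact ⟨hA σ hσ.1, (hp σ).2 hσ.2⟩
    · intro σ hσ
      rw [Finset.mem_filter] at hσ ⊢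
      exact ⟨hA σ hσ.1, fun h => (hp σ).1 h hσ.2⟩
    · intro σ _
      rw [mul_assoc, hs, mul_one]
    · intro σ _
      rw [mul_assoc, hs, mul_one]
    · intro σ _
      exact (hF σ).symm
  rw [← Finset.sum_filter_add_sum_filter_not A p, h1]
  ring

private theorem sharp_sum (F : Equiv.Perm (Fin (2 * 3)) → ℤ)
    (h0 : ∀ σ, F (σ * Equiv.swap 0 1) = F σ) (h2 : ∀ σ, F (σ * Equiv.swap 2 3) = F σ)
    (h4 : ∀ σ, F (σ * Equiv.swap 4 5) = F σ) : ∑ σ, F σ = 8 * ∑ σ ∈ sharpA, F σ := by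
  have e : ∀ (σ : Equiv.Perm (Fin (2 * 3))) (i j k : Fin (2 * 3)),
      (σ * Equiv.swap i j) k = σ (Equiv.swap i j k) := fun σ i j k => rfl
  have hlt : ∀ (σ : Equiv.Perm (Fin (2 * 3))) (i j : Fin (2 * 3)), i ≠ j →
      (σ j < σ i ↔ ¬ σ i < σ j) := by
    intro σ i j hij
    rw [not_lt, le_iff_lt_or_eq]
    constructor
    · exact Or.inl
    · rintro (h | h)
      · exact h
      · exact absurd (σ.injective h).symm hij
  rw [sharp_half Finset.univ (Equiv.swap 0 1) (Equiv.swap_mul_self _ _)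
      (fun σ _ => Finset.mem_univ _) (fun σ => σ 0 < σ 1) ?_ F h0,
    sharp_half _ (Equiv.swap 2 3) (Equiv.swap_mul_self _ _) ?_ (fun σ => σ 2 < σ 3) ?_ F h2,
    sharp_half _ (Equiv.swap 4 5) (Equiv.swap_mul_self _ _) ?_ (fun σ => σ 4 < σ 5) ?_ F h4]
  · unfold sharpA
    ring
  · intro σ hσ
    rw [Finset.mem_filter, Finset.mem_filter] at hσ ⊢
    rw [e, e, e, e]
    exact ⟨⟨Finset.mem_univ _, hσ.1.2⟩, hσ.2⟩
  · intro σ
    change σ (Equiv.swap 4 5 4) < σ (Equiv.swap 4 5 5) ↔ _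
    rw [Equiv.swap_apply_left, Equiv.swap_apply_right]
    exact hlt σ 4 5 (by decide)
  · intro σ hσ
    rw [Finset.mem_filter] at hσ ⊢
    rw [e, e]
    exact ⟨Finset.mem_univ _, hσ.2⟩
  · intro σ
    change σ (Equiv.swap 2 3 2) < σ (Equiv.swap 2 3 3) ↔ _
    rw [Equiv.swap_apply_left, Equiv.swap_apply_right]
    exact hlt σ 2 3 (by decide)
  · intro σ
    change σ (Equiv.swap 0 1 0) < σ (Equiv.swap 0 1 1) ↔ _
    rw [Equiv.swap_apply_left, Equiv.swap_apply_right]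
    exact hlt σ 0 1 (by decide)

theorem wEx_skew (a : Fin 3) : Skew (wEx a) := by
  have h : ∀ (a : Fin 3) (i j : Fin (2 * 3)), sharpW a j i = - sharpW a i j := by decide +kernel
  intro i j
  rw [sharpW_cast, sharpW_cast, h a i j]
  push_cast
  ring

theorem rEx_curv : IsCurvature rEx := by
  have h1 : ∀ i j k l : Fin (2 * 3), sharpR j i k l = - sharpR i j k l := by decide +kernel
  have h2 : ∀ i j k l : Fin (2 * 3), sharpR i j l k = - sharpR i j k l := by decide +kernel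
  have h3 : ∀ i j k l : Fin (2 * 3), sharpR i j k l + sharpR j k i l + sharpR k i j l = 0 := by
    decide +kernel
  refine ⟨?_, ?_, ?_⟩
  · intro i j k l
    rw [sharpR_cast, sharpR_cast, h1]
    push_cast
    ring
  · intro i j k l
    rw [sharpR_cast, sharpR_cast, h2]
    push_cast
    ring
  · intro i j k l
    rw [sharpR_cast, sharpR_cast, sharpR_cast]
    exact_mod_cast h3 i j k l

private def sharpG (σ τ : Equiv.Perm (Fin (2 * 3))) : ℤ :=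
  (Equiv.Perm.sign σ : ℤ) * (Equiv.Perm.sign τ : ℤ) *
    (sharpR (σ 0) (σ 1) (τ 0) (τ 1) * sharpR (σ 2) (σ 3) (τ 2) (τ 3) *
      sharpR (σ 4) (σ 5) (τ 4) (τ 5))

private theorem sharp_gb : gb 3 rEx = ((∑ σ, ∑ τ, sharpG σ τ : ℤ) : ℝ) := by
  unfold gb sharpG
  rw [Int.cast_sum]
  refine Finset.sum_congr rfl fun σ _ => ?_
  rw [Int.cast_sum]
  refine Finset.sum_congr rfl fun τ _ => ?_
  rw [Fin.prod_univ_three]
  simp only [sharpR_cast]
  push_cast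
  rfl

private theorem sharpG_eq (σ τ : Equiv.Perm (Fin (2 * 3))) :
    sharpG σ τ = sharpV (sharpK σ) (sharpK τ) := by
  unfold sharpG sharpV sharpK
  rw [sharpR_tab, sharpR_tab, sharpR_tab]

/-- the exact value is `-9216` (`gb` of the unit sphere is `5760`). -/
theorem rEx_gb : gb 3 rEx < 0 := by
  have hl : ∀ i j k l : Fin (2 * 3), sharpR j i k l = - sharpR i j k l := by decide +kernel
  have hr : ∀ i j k l : Fin (2 * 3), sharpR i j l k = - sharpR i j k l := by decide +kernel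
  have hsg : ∀ (σ : Equiv.Perm (Fin (2 * 3))) (i j : Fin (2 * 3)), i ≠ j →
      (Equiv.Perm.sign (σ * Equiv.swap i j) : ℤ) = - (Equiv.Perm.sign σ : ℤ) := by
    intro σ i j hij
    rw [Equiv.Perm.sign_mul, Equiv.Perm.sign_swap hij]
    simp
  have e : ∀ (σ : Equiv.Perm (Fin (2 * 3))) (i j k : Fin (2 * 3)),
      (σ * Equiv.swap i j) k = σ (Equiv.swap i j k) := fun σ i j k => rfl
  have a1 : ∀ i : Fin (2 * 3), Equiv.swap (0 : Fin (2 * 3)) 1 i =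
      if i = 0 then 1 else if i = 1 then 0 else i := by decide
  have a2 : ∀ i : Fin (2 * 3), Equiv.swap (2 : Fin (2 * 3)) 3 i =
      if i = 2 then 3 else if i = 3 then 2 else i := by decide
  have a3 : ∀ i : Fin (2 * 3), Equiv.swap (4 : Fin (2 * 3)) 5 i =
      if i = 4 then 5 else if i = 5 then 4 else i := by decide
  have hτ : ∀ σ, ∑ τ, sharpG σ τ = 8 * ∑ τ ∈ sharpA, sharpG σ τ := by
    intro σ
    refine sharp_sum _ ?_ ?_ ?_
    · intro τ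
      change _ * (_ : ℤ) * (sharpR _ _ (τ (Equiv.swap 0 1 0)) (τ (Equiv.swap 0 1 1)) *
        sharpR _ _ (τ (Equiv.swap 0 1 2)) (τ (Equiv.swap 0 1 3)) *
        sharpR _ _ (τ (Equiv.swap 0 1 4)) (τ (Equiv.swap 0 1 5))) = _
      rw [hsg τ 0 1 (by decide), a1, a1, a1, a1, a1, a1]
      change _ * (_ : ℤ) * (sharpR _ _ (τ 1) (τ 0) * sharpR _ _ (τ 2) (τ 3) *
        sharpR _ _ (τ 4) (τ 5)) = _
      unfold sharpG
      rw [hr (σ 0) (σ 1) (τ 0) (τ 1)]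
      ring
    · intro τ
      change _ * (_ : ℤ) * (sharpR _ _ (τ (Equiv.swap 2 3 0)) (τ (Equiv.swap 2 3 1)) *
        sharpR _ _ (τ (Equiv.swap 2 3 2)) (τ (Equiv.swap 2 3 3)) *
        sharpR _ _ (τ (Equiv.swap 2 3 4)) (τ (Equiv.swap 2 3 5))) = _
      rw [hsg τ 2 3 (by decide), a2, a2, a2, a2, a2, a2]
      change _ * (_ : ℤ) * (sharpR _ _ (τ 0) (τ 1) * sharpR _ _ (τ 3) (τ 2) *
        sharpR _ _ (τ 4) (τ 5)) = _
      unfold sharpG
      rw [hr (σ 2) (σ 3) (τ 2) (τ 3)]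
      ring
    · intro τ
      change _ * (_ : ℤ) * (sharpR _ _ (τ (Equiv.swap 4 5 0)) (τ (Equiv.swap 4 5 1)) *
        sharpR _ _ (τ (Equiv.swap 4 5 2)) (τ (Equiv.swap 4 5 3)) *
        sharpR _ _ (τ (Equiv.swap 4 5 4)) (τ (Equiv.swap 4 5 5))) = _
      rw [hsg τ 4 5 (by decide), a3, a3, a3, a3, a3, a3]
      change _ * (_ : ℤ) * (sharpR _ _ (τ 0) (τ 1) * sharpR _ _ (τ 2) (τ 3) *
        sharpR _ _ (τ 5) (τ 4)) = _
      unfold sharpG
      rw [hr (σ 4) (σ 5) (τ 4) (τ 5)]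
      ring
  have hG : ∀ (s : Equiv.Perm (Fin (2 * 3))), (∀ σ τ, sharpG (σ * s) τ = sharpG σ τ) →
      ∀ σ, (8 * ∑ τ ∈ sharpA, sharpG (σ * s) τ : ℤ) = 8 * ∑ τ ∈ sharpA, sharpG σ τ := by
    intro s h σ
    simp only [h]
  have hσ : ∑ σ, (8 * ∑ τ ∈ sharpA, sharpG σ τ) =
      8 * ∑ σ ∈ sharpA, (8 * ∑ τ ∈ sharpA, sharpG σ τ) := by
    refine sharp_sum _ (hG _ ?_) (hG _ ?_) (hG _ ?_)
    · intro σ τ
      change (_ : ℤ) * _ * (sharpR (σ (Equiv.swap 0 1 0)) (σ (Equiv.swap 0 1 1)) _ _ *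
        sharpR (σ (Equiv.swap 0 1 2)) (σ (Equiv.swap 0 1 3)) _ _ *
        sharpR (σ (Equiv.swap 0 1 4)) (σ (Equiv.swap 0 1 5)) _ _) = _
      rw [hsg σ 0 1 (by decide), a1, a1, a1, a1, a1, a1]
      change (_ : ℤ) * _ * (sharpR (σ 1) (σ 0) _ _ * sharpR (σ 2) (σ 3) _ _ *
        sharpR (σ 4) (σ 5) _ _) = _
      unfold sharpG
      rw [hl (σ 0) (σ 1) (τ 0) (τ 1)]
      ring
    · intro σ τ
      change (_ : ℤ) * _ * (sharpR (σ (Equiv.swap 2 3 0)) (σ (Equiv.swap 2 3 1)) _ _ *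
        sharpR (σ (Equiv.swap 2 3 2)) (σ (Equiv.swap 2 3 3)) _ _ *
        sharpR (σ (Equiv.swap 2 3 4)) (σ (Equiv.swap 2 3 5)) _ _) = _
      rw [hsg σ 2 3 (by decide), a2, a2, a2, a2, a2, a2]
      change (_ : ℤ) * _ * (sharpR (σ 0) (σ 1) _ _ * sharpR (σ 3) (σ 2) _ _ *
        sharpR (σ 4) (σ 5) _ _) = _
      unfold sharpG
      rw [hl (σ 2) (σ 3) (τ 2) (τ 3)]
      ring
    · intro σ τ
      change (_ : ℤ) * _ * (sharpR (σ (Equiv.swap 4 5 0)) (σ (Equiv.swap 4 5 1)) _ _ *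
        sharpR (σ (Equiv.swap 4 5 2)) (σ (Equiv.swap 4 5 3)) _ _ *
        sharpR (σ (Equiv.swap 4 5 4)) (σ (Equiv.swap 4 5 5)) _ _) = _
      rw [hsg σ 4 5 (by decide), a3, a3, a3, a3, a3, a3]
      change (_ : ℤ) * _ * (sharpR (σ 0) (σ 1) _ _ * sharpR (σ 2) (σ 3) _ _ *
        sharpR (σ 5) (σ 4) _ _) = _
      unfold sharpG
      rw [hl (σ 4) (σ 5) (τ 4) (τ 5)]
      ring
  have key : ∀ f : ℤ × ℕ × ℕ × ℕ → ℤ, ∑ σ ∈ sharpA, f (sharpK σ) = (sharpQ.map f).sum := by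
    intro f
    have h : ∑ σ ∈ sharpA, f (sharpK σ) = ((sharpA.val.map sharpK).map f).sum := by
      rw [Multiset.map_map]
      rfl
    rw [h, sharpA_keys, Multiset.map_coe, Multiset.sum_coe]
  have hval : ∑ σ ∈ sharpA, ∑ τ ∈ sharpA, sharpG σ τ = -144 := by
    have h1 : ∀ σ, ∑ τ ∈ sharpA, sharpG σ τ = (sharpQ.map fun y => sharpV (sharpK σ) y).sum := by
      intro σ
      rw [← key fun y => sharpV (sharpK σ) y]
      exact Finset.sum_congr rfl fun τ _ => sharpG_eq σ τ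
    rw [Finset.sum_congr rfl fun σ _ => h1 σ,
      key fun x => (sharpQ.map fun y => sharpV x y).sum]
    exact sharp_val
  have htot : ∑ σ, ∑ τ, sharpG σ τ = -9216 := by
    rw [Finset.sum_congr rfl fun σ _ => hτ σ, hσ, ← Finset.mul_sum, hval]
    norm_num
  rw [sharp_gb, htot]
  norm_num

/-- **Sharpness.** Three 2-forms do not suffice in dimension 6, even with coefficient 2. -/
theorem sharp : ∃ R : Ten (2 * 3), IsCurvature R ∧ (∃ w : Fin 3 → Mat (2 * 3),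
    (∀ a, Skew (w a)) ∧
      NonnegOnForms (fun i j k l => R i j k l - ∑ a, (wsq (w a) i j k l + w a i j * w a k l))) ∧
    gb 3 R < 0 := by
  refine ⟨rEx, rEx_curv, ⟨wEx, wEx_skew, fun β _ => ?_⟩, rEx_gb⟩
  simp [rEx]

end Pool.TwoForms
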